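import Pool.Agent.Lib.MP_2ea600_lc.Defs

/-!
# Calculus of pp-definitions and the Inv-Pol theorem (MP_2ea600_lc)
-/

namespace Pool.Agent.Lib.MP2ea600

variable {A : Type} {Γ : Set (FinRel A)}

/-! ### Operations -/

theorem isPol_proj {ι : Type} (j : ι) : IsPol Γ fun v : ι → A => v j := fun _ _ _ hM => hM j

theorem IsPol.comp {ι κ : Type} {f : (ι → A) → A} (hf : IsPol Γ f) {g : ι → (κ → A) → A}
    (hg : ∀ i, IsPol Γ (g i)) : IsPol Γ fun v => f fun i => g i v := by
  intro R hR M hM
  exact hf R hR (fun i x => g i fun j => M j x) fun i => hg i R hR M hM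

theorem IsPol.reindex {ι κ : Type} {f : (ι → A) → A} (hf : IsPol Γ f) (e : ι → κ) :
    IsPol Γ fun v : κ → A => f fun i => v (e i) :=
  hf.comp fun i => isPol_proj (e i)

theorem IsMalcev.pol' {m : A → A → A → A} (hm : IsMalcev Γ m) {κ : Type} {f g h : (κ → A) → A}
    (hf : IsPol Γ f) (hg : IsPol Γ g) (hh : IsPol Γ h) : IsPol Γ fun v => m (f v) (g v) (h v) := by
  have := hm.pol.comp (g := ![f, g, h]) (by
    intro i
    fin_cases i
    · exact hf
    · exact hg
    · exact hh)
  exact this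

/-- Invariant relations, indexed by an arbitrary type. -/
def Inv (Γ : Set (FinRel A)) {X : Type} (R : Set (X → A)) : Prop :=
  ∀ (m : ℕ) (f : (Fin m → A) → A), IsPol Γ f → ∀ M : Fin m → X → A, (∀ j, M j ∈ R) →
    (fun i => f fun j => M j i) ∈ R

theorem Inv.fin {X : Type} {R : Set (X → A)} (hR : Inv Γ R) {ι : Type} [Finite ι]
    {f : (ι → A) → A} (hf : IsPol Γ f) (M : ι → X → A) (hM : ∀ j, M j ∈ R) :
    (fun i => f fun j => M j i) ∈ R := by
  obtain ⟨m, ⟨e⟩⟩ := Finite.exists_equiv_fin ι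
  have := hR m (fun v => f fun j => v (e j)) (hf.reindex e) (fun j => M (e.symm j))
    fun j => hM _
  simpa using this

theorem Inv.univ {X : Type} : Inv Γ (Set.univ : Set (X → A)) := fun _ _ _ _ _ => trivial

theorem Inv.inter {X : Type} {R S : Set (X → A)} (hR : Inv Γ R) (hS : Inv Γ S) : Inv Γ (R ∩ S) :=
  fun m f hf M hM => ⟨hR m f hf M fun j => (hM j).1, hS m f hf M fun j => (hM j).2⟩

theorem Inv.sInter {X : Type} {C : Set (Set (X → A))} (h : ∀ R ∈ C, Inv Γ R) : Inv Γ (⋂₀ C) :=
  fun m f hf M hM R hR => h R hR m f hf M fun j => hM j R hR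

theorem Inv.preimage {X X' : Type} {R : Set (X → A)} (hR : Inv Γ R) (g : X → X') :
    Inv Γ {x : X' → A | (fun i => x (g i)) ∈ R} :=
  fun m f hf M hM => hR m f hf (fun j i => M j (g i)) hM

theorem Inv.image {X X' : Type} {R : Set (X' → A)} (hR : Inv Γ R) (g : X → X') :
    Inv Γ {x : X → A | ∃ y ∈ R, ∀ i, x i = y (g i)} := by
  intro m f hf M hM
  choose y hy hyM using hM
  exact ⟨_, hR m f hf y hy, fun i => congrArg f (funext fun j => hyM j i)⟩

theorem inv_iff_sub {S : Set A} : IsSub Γ S ↔ Inv Γ {x : Unit → A | x () ∈ S} := by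
  constructor
  · intro h m f hf M hM
    exact h m f hf _ hM
  · intro h m f hf v hv
    exact h m f hf (fun j _ => v j) hv

theorem IsSub.fin {S : Set A} (hS : IsSub Γ S) {ι : Type} [Finite ι] {f : (ι → A) → A}
    (hf : IsPol Γ f) (v : ι → A) (hv : ∀ i, v i ∈ S) : f v ∈ S :=
  (inv_iff_sub.1 hS).fin hf (fun j _ => v j) hv

theorem IsCong.fin {S : Set A} {θ : A → A → Prop} (hθ : IsCong Γ S θ) {ι : Type} [Finite ι]
    {f : (ι → A) → A} (hf : IsPol Γ f) (v w : ι → A) (h : ∀ i, θ (v i) (w i)) :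
    θ (f v) (f w) := by
  obtain ⟨m, ⟨e⟩⟩ := Finite.exists_equiv_fin ι
  have := hθ.comp m (fun v => f fun j => v (e j)) (hf.reindex e) (fun j => v (e.symm j))
    (fun j => w (e.symm j)) fun j => h _
  simpa using this

theorem Centralizes.fin {α β θ : A → A → Prop} (h : Centralizes Γ α β θ) {ι κ : Type}
    [Finite ι] [Finite κ] {f : (ι ⊕ κ → A) → A} (hf : IsPol Γ f) (a a' : ι → A) (b b' : κ → A)
    (ha : ∀ i, α (a i) (a' i)) (hb : ∀ j, β (b j) (b' j))
    (h0 : θ (f (Sum.elim a b)) (f (Sum.elim a b'))) :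
    θ (f (Sum.elim a' b)) (f (Sum.elim a' b')) := by
  obtain ⟨m, ⟨e⟩⟩ := Finite.exists_equiv_fin ι
  obtain ⟨n, ⟨e'⟩⟩ := Finite.exists_equiv_fin κ
  have key : ∀ (a : ι → A) (b : κ → A),
      (fun j => Sum.elim (fun i => a (e.symm i)) (fun i => b (e'.symm i)) (Sum.map e e' j))
        = Sum.elim a b := by
    intro a b
    funext j
    cases j <;> simp
  have := h m n (fun v => f fun j => v (Sum.map e e' j)) (hf.reindex _)
    (fun i => a (e.symm i)) (fun i => a' (e.symm i)) (fun i => b (e'.symm i))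
    (fun i => b' (e'.symm i)) (fun i => ha _) (fun j => hb _)
  simp only [key] at this
  exact this h0

theorem IsSupernilpotent.fin {D : ℕ} {ρ θ : A → A → Prop} (h : IsSupernilpotent Γ D ρ θ)
    {κ : Type} [Finite κ] {f : (Fin (D + 1) × κ → A) → A} (hf : IsPol Γ f)
    (a b : Fin (D + 1) × κ → A) (hab : ∀ x, ρ (a x) (b x))
    (h0 : ∀ c : Fin (D + 1) → Bool, c (Fin.last D) = false → (∃ k, k ≠ Fin.last D ∧ c k = false) →
      θ (f (vertex a b c)) (f (vertex a b (Function.update c (Fin.last D) true)))) :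
    θ (f (vertex a b (Function.update (fun _ => true) (Fin.last D) false)))
      (f (vertex a b fun _ => true)) := by
  obtain ⟨m, ⟨e⟩⟩ := Finite.exists_equiv_fin κ
  have key : ∀ c : Fin (D + 1) → Bool,
      (fun j : Fin (D + 1) × κ => vertex (fun x => a (x.1, e.symm x.2))
        (fun x => b (x.1, e.symm x.2)) c (j.1, e j.2)) = vertex a b c := by
    intro c
    funext j
    simp [vertex]
  have := h m (fun v => f fun j => v (j.1, e j.2)) (hf.reindex _)
    (fun x => a (x.1, e.symm x.2)) (fun x => b (x.1, e.symm x.2)) (fun x => hab _)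
  simp only [key] at this
  exact this h0

/-! ### pp-definitions -/

/-- Renaming of variables in an atom. -/
def Atom.map {V W : Type} (g : V → W) : Atom Γ V → Atom Γ W
  | .eq x y => .eq (g x) (g y)
  | .rel R hR z => .rel R hR fun i => g (z i)

@[simp] theorem Atom.holds_map {V W : Type} (g : V → W) (v : W → A) (a : Atom Γ V) :
    (a.map g).Holds v ↔ a.Holds fun x => v (g x) := by
  cases a <;> rfl

@[simp] theorem Atom.size_map {V W : Type} (g : V → W) (a : Atom Γ V) : (a.map g).size = a.size := by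
  cases a <;> rfl

/-- The relation `R` has a pp-definition of length at most `L`. -/
def HasDef (Γ : Set (FinRel A)) {X : Type} (R : Set (X → A)) (L : ℕ) : Prop :=
  ∃ (k : ℕ) (atoms : List (Atom Γ (X ⊕ Fin k))),
    R = {x | ∃ y : Fin k → A, ∀ a ∈ atoms, a.Holds (Sum.elim x y)} ∧
    2 * k + (atoms.map fun a => a.size + 1).sum ≤ L

theorem HasDef.mono {X : Type} {R : Set (X → A)} {L L' : ℕ} (h : HasDef Γ R L) (hL : L ≤ L') :
    HasDef Γ R L' := by
  obtain ⟨k, atoms, h1, h2⟩ := h
  exact ⟨k, atoms, h1, h2.trans hL⟩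

theorem HasDef.of_fintype {X : Type} {R : Set (X → A)} {L : ℕ} (Y : Type) [Fintype Y]
    (atoms : List (Atom Γ (X ⊕ Y)))
    (h1 : R = {x | ∃ y : Y → A, ∀ a ∈ atoms, a.Holds (Sum.elim x y)})
    (h2 : 2 * Fintype.card Y + (atoms.map fun a => a.size + 1).sum ≤ L) : HasDef Γ R L := by
  let e := Fintype.equivFin Y
  refine ⟨Fintype.card Y, atoms.map (Atom.map (Sum.map id e)), ?_, ?_⟩
  · rw [h1]
    ext x
    simp only [Set.mem_ofPred_eq, List.mem_map, forall_exists_index, and_imp,
      forall_apply_eq_imp_iff₂, Atom.holds_map]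
    constructor
    · rintro ⟨y, hy⟩
      refine ⟨fun i => y (e.symm i), fun a ha => ?_⟩
      convert hy a ha using 1
      funext i
      cases i <;> simp
    · rintro ⟨y, hy⟩
      refine ⟨fun i => y (e i), fun a ha => ?_⟩
      convert hy a ha using 1
      funext i
      cases i <;> simp
  · rw [List.map_map]
    have : ((fun a : Atom Γ (X ⊕ Fin (Fintype.card Y)) => a.size + 1) ∘ Atom.map (Sum.map id e))
        = fun a => a.size + 1 := by
      funext a
      simp
    rw [this]
    exact h2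

theorem HasDef.inv {X : Type} {R : Set (X → A)} {L : ℕ} (h : HasDef Γ R L) : Inv Γ R := by
  obtain ⟨k, atoms, rfl, -⟩ := h
  intro m f hf M hM
  choose y hy using hM
  refine ⟨fun i => f fun j => y j i, fun a ha => ?_⟩
  have key : (Sum.elim (fun i => f fun j => M j i) fun i => f fun j => y j i)
      = fun i => f fun j => Sum.elim (M j) (y j) i := by
    funext i
    cases i <;> rfl
  rw [key]
  cases a with
  | eq u v =>
    show f _ = f _
    exact congrArg f (funext fun j => hy j _ ha)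
  | rel R hR z =>
    show (fun i => f fun j => Sum.elim (M j) (y j) (z i)) ∈ R.2
    exact hf R hR (fun j i => Sum.elim (M j) (y j) (z i)) fun j => hy j _ ha

theorem hasDef_univ {X : Type} : HasDef Γ (Set.univ : Set (X → A)) 0 := by
  refine ⟨0, [], ?_, by simp⟩
  ext x
  simp

theorem HasDef.inter {X : Type} {R S : Set (X → A)} {L L' : ℕ} (h : HasDef Γ R L)
    (h' : HasDef Γ S L') : HasDef Γ (R ∩ S) (L + L') := by
  obtain ⟨k, atoms, rfl, h2⟩ := h
  obtain ⟨k', atoms', rfl, h2'⟩ := h'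
  refine HasDef.of_fintype (Fin k ⊕ Fin k')
    (atoms.map (Atom.map (Sum.map id Sum.inl)) ++ atoms'.map (Atom.map (Sum.map id Sum.inr))) ?_ ?_
  · ext x
    simp only [Set.mem_inter_iff, Set.mem_ofPred_eq, List.mem_append, List.mem_map]
    constructor
    · rintro ⟨⟨y, hy⟩, ⟨y', hy'⟩⟩
      refine ⟨Sum.elim y y', ?_⟩
      rintro a (⟨b, hb, rfl⟩ | ⟨b, hb, rfl⟩)
      · rw [Atom.holds_map]
        convert hy b hb using 1
        funext i
        cases i <;> simp
      · rw [Atom.holds_map]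
        convert hy' b hb using 1
        funext i
        cases i <;> simp
    · rintro ⟨y, hy⟩
      refine ⟨⟨fun i => y (Sum.inl i), fun a ha => ?_⟩, ⟨fun i => y (Sum.inr i), fun a ha => ?_⟩⟩
      · have := hy _ (Or.inl ⟨a, ha, rfl⟩)
        rw [Atom.holds_map] at this
        convert this using 1
        funext i
        cases i <;> simp
      · have := hy _ (Or.inr ⟨a, ha, rfl⟩)
        rw [Atom.holds_map] at this
        convert this using 1
        funext i
        cases i <;> simp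
  · simp only [Fintype.card_sum, Fintype.card_fin, List.map_append, List.map_map, List.sum_append]
    have e1 : ((fun a : Atom Γ (X ⊕ (Fin k ⊕ Fin k')) => a.size + 1) ∘
        Atom.map (Sum.map id Sum.inl)) = fun a : Atom Γ (X ⊕ Fin k) => a.size + 1 := by
      funext a
      simp
    have e2 : ((fun a : Atom Γ (X ⊕ (Fin k ⊕ Fin k')) => a.size + 1) ∘
        Atom.map (Sum.map id Sum.inr)) = fun a : Atom Γ (X ⊕ Fin k') => a.size + 1 := by
      funext a
      simp
    rw [e1, e2]
    omega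

theorem HasDef.iInter_finset {X I : Type} {R : I → Set (X → A)} {L : ℕ} (s : Finset I)
    (h : ∀ i ∈ s, HasDef Γ (R i) L) : HasDef Γ {x | ∀ i ∈ s, x ∈ R i} (s.card * L) := by
  classical
  induction s using Finset.induction_on with
  | empty => simpa using (hasDef_univ (Γ := Γ) (X := X))
  | insert i s hi ih =>
    have h1 := h i (Finset.mem_insert_self _ _)
    have h2 := ih fun j hj => h j (Finset.mem_insert_of_mem hj)
    rw [Finset.card_insert_of_notMem hi]
    have h3 := h1.inter h2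
    have e : (R i ∩ {x | ∀ i ∈ s, x ∈ R i}) = {x | ∀ j ∈ insert i s, x ∈ R j} := by
      ext x
      simp
    rw [e] at h3
    exact h3.mono (by ring_nf; exact le_rfl)

theorem HasDef.iInter {X I : Type} [Fintype I] {R : I → Set (X → A)} {L : ℕ}
    (h : ∀ i, HasDef Γ (R i) L) : HasDef Γ {x | ∀ i, x ∈ R i} (Fintype.card I * L) := by
  have := HasDef.iInter_finset (Γ := Γ) (R := R) (L := L) Finset.univ fun i _ => h i
  simpa using this

theorem HasDef.preimage {X X' : Type} {R : Set (X → A)} {L : ℕ} (h : HasDef Γ R L) (g : X → X') :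
    HasDef Γ {x : X' → A | (fun i => x (g i)) ∈ R} L := by
  obtain ⟨k, atoms, rfl, h2⟩ := h
  refine ⟨k, atoms.map (Atom.map (Sum.map g id)), ?_, ?_⟩
  · ext x
    simp only [Set.mem_ofPred_eq, List.mem_map, forall_exists_index, and_imp,
      forall_apply_eq_imp_iff₂, Atom.holds_map]
    refine exists_congr fun y => forall₂_congr fun a _ => ?_
    apply iff_of_eq
    congr 1
    funext i
    cases i <;> rfl
  · rw [List.map_map]
    have : ((fun a : Atom Γ (X' ⊕ Fin k) => a.size + 1) ∘ Atom.map (Sum.map g id))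
        = fun a => a.size + 1 := by
      funext a
      simp
    rw [this]
    exact h2

theorem HasDef.exists {X Z : Type} [Fintype Z] {R : Set (X ⊕ Z → A)} {L : ℕ} (h : HasDef Γ R L) :
    HasDef Γ {x : X → A | ∃ z : Z → A, Sum.elim x z ∈ R} (L + 2 * Fintype.card Z) := by
  obtain ⟨k, atoms, rfl, h2⟩ := h
  refine HasDef.of_fintype (Z ⊕ Fin k) (atoms.map (Atom.map (Equiv.sumAssoc _ _ _))) ?_ ?_
  · ext x
    simp only [Set.mem_ofPred_eq, List.mem_map, forall_exists_index, and_imp,
      forall_apply_eq_imp_iff₂, Atom.holds_map]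
    constructor
    · rintro ⟨z, y, hy⟩
      refine ⟨Sum.elim z y, fun a ha => ?_⟩
      convert hy a ha using 1
      funext i
      rcases i with (i | i) | i <;> simp
    · rintro ⟨y, hy⟩
      refine ⟨fun i => y (Sum.inl i), fun i => y (Sum.inr i), fun a ha => ?_⟩
      convert hy a ha using 1
      funext i
      rcases i with (i | i) | i <;> simp
  · rw [List.map_map]
    have : ((fun a : Atom Γ (X ⊕ (Z ⊕ Fin k)) => a.size + 1) ∘ Atom.map (Equiv.sumAssoc X Z (Fin k)))
        = fun a => a.size + 1 := by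
      funext a
      simp
    rw [this]
    simp only [Fintype.card_sum, Fintype.card_fin]
    omega

theorem hasDef_eq {X : Type} (a b : X) : HasDef Γ {x : X → A | x a = x b} 4 := by
  refine ⟨0, [.eq (Sum.inl a) (Sum.inl b)], ?_, by simp [Atom.size]⟩
  ext x
  simp [Atom.Holds]

/-! ### The Inv-Pol theorem -/

theorem exists_list_of_finite {α : Type} {s : Set α} (hs : s.Finite) :
    ∃ l : List α, ∀ x, x ∈ l ↔ x ∈ s :=
  ⟨hs.toFinset.toList, fun x => by simp⟩

theorem exists_hasDef_of_inv [Finite A] (hΓ : Γ.Finite) {X : Type} [Finite X] {R : Set (X → A)}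
    (hR : Inv Γ R) : ∃ L, HasDef Γ R L := by
  classical
  have := Fintype.ofFinite A
  have := Fintype.ofFinite X
  let Y : Type := R → A
  have : Fintype Y := inferInstanceAs (Fintype (R → A))
  have hfin1 : {a : Atom Γ (X ⊕ Y) | ∃ S, ∃ hS : S ∈ Γ, ∃ M : R → Fin S.1 → A,
      (∀ r, M r ∈ S.2) ∧ a = .rel S hS fun i => Sum.inr fun r => M r i}.Finite := by
    have hsub : {a : Atom Γ (X ⊕ Y) | ∃ S, ∃ hS : S ∈ Γ, ∃ M : R → Fin S.1 → A,
      (∀ r, M r ∈ S.2) ∧ a = .rel S hS fun i => Sum.inr fun r => M r i}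
      ⊆ ⋃ S : Γ, Set.range fun M : R → Fin S.1.1 → A =>
        (.rel S.1 S.2 fun i => Sum.inr fun r => M r i : Atom Γ (X ⊕ Y)) := by
      rintro a ⟨S, hS, M, -, rfl⟩
      exact Set.mem_iUnion.2 ⟨⟨S, hS⟩, M, rfl⟩
    have : Finite Γ := hΓ
    exact (Set.finite_iUnion fun S => Set.finite_range _).subset hsub
  have hfin2 : (Set.range fun j : X => (.eq (Sum.inl j) (Sum.inr fun r => r.1 j) :
      Atom Γ (X ⊕ Y))).Finite := Set.finite_range _
  obtain ⟨l, hl⟩ := exists_list_of_finite (hfin1.union hfin2)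
  refine ⟨_, HasDef.of_fintype Y l ?_ le_rfl⟩
  ext x
  simp only [Set.mem_ofPred_eq, hl]
  constructor
  · intro hx
    refine ⟨fun v => v ⟨x, hx⟩, ?_⟩
    rintro a (⟨S, hS, M, hM, rfl⟩ | ⟨j, rfl⟩)
    · exact hM _
    · rfl
  · rintro ⟨z, hz⟩
    have hpol : IsPol Γ z := by
      intro S hS M hM
      exact hz _ (Or.inl ⟨S, hS, M, hM, rfl⟩)
    have h1 := hR.fin hpol (fun r : R => r.1) fun r => r.2
    have h2 : x = fun i => z fun r : R => r.1 i := by
      funext i
      exact hz _ (Or.inr ⟨i, rfl⟩)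
    rw [h2]
    exact h1

/-- A uniform bound for the lengths of definitions of invariant relations of bounded arity. -/
theorem exists_bound [Finite A] (hΓ : Γ.Finite) (K : ℕ) :
    ∃ L, ∀ (X : Type) [Finite X] (R : Set (X → A)), Nat.card X ≤ K → Inv Γ R → HasDef Γ R L := by
  classical
  have h1 : ∀ k : ℕ, ∃ L, ∀ R : Set (Fin k → A), Inv Γ R → HasDef Γ R L := by
    intro k
    have : ∀ R : Set (Fin k → A), ∃ L, Inv Γ R → HasDef Γ R L := by
      intro R
      by_cases hR : Inv Γ R
      · obtain ⟨L, hL⟩ := exists_hasDef_of_inv hΓ hR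
        exact ⟨L, fun _ => hL⟩
      · exact ⟨0, fun h => absurd h hR⟩
    choose L hL using this
    obtain ⟨B, hB⟩ := (Set.finite_range L).bddAbove
    exact ⟨B, fun R hR => (hL R hR).mono (hB ⟨R, rfl⟩)⟩
  choose L hL using h1
  refine ⟨(Finset.range (K + 1)).sup L, fun X _ R hX hR => ?_⟩
  let e := Finite.equivFin X
  have h2 : Inv Γ {x : Fin (Nat.card X) → A | (fun i => x (e i)) ∈ R} := hR.preimage e
  have h3 := (hL _ _ h2).preimage e.symm
  have h4 : {x : X → A | (fun i => x (e.symm i)) ∈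
      {x : Fin (Nat.card X) → A | (fun i => x (e i)) ∈ R}} = R := by
    ext x
    simp
  rw [h4] at h3
  exact h3.mono (Finset.le_sup (f := L) (Finset.mem_range.2 (by omega)))

end Pool.Agent.Lib.MP2ea600
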