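import Pool.Agent.Lib.MP_2ea600_lc.UADefs

/-!
# Few subpowers: cube polymorphisms and small generating families (MP_2ea600_lc)

Module CUBE: `cubeStmt : CubeStmt Γ` and `genStmt : GenStmt Γ`.
-/

namespace Pool.Agent.Lib.MP2ea600

open Function

variable {A : Type} {Γ : Set (FinRel A)}

theorem inv_genRel {ι X : Type} (u : ι → X → A) : Inv Γ (GenRel Γ u) := by
  intro m f hf M hM
  choose w hw hMw using hM
  refine ⟨fun v => f fun j => w j v, hf.comp hw, ?_⟩
  funext i
  exact congrArg f (funext fun j => congrFun (hMw j) i)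

theorem mem_genRel {ι X : Type} (u : ι → X → A) (j : ι) : u j ∈ GenRel Γ u :=
  ⟨fun v => v j, isPol_proj j, rfl⟩

theorem genRel_subset {ι X : Type} [Finite ι] {u : ι → X → A} {N : Set (X → A)} (hN : Inv Γ N)
    (hu : ∀ j, u j ∈ N) : GenRel Γ u ⊆ N := by
  rintro x ⟨w, hw, rfl⟩
  exact hN.fin hw u hu

/-- the subfamily of `u` with indices in `S` -/
def subFam {ι X : Type} (u : ι → X → A) (S : Set ι) : S → X → A := fun j => u j.1

/-- independent families -/
def Indep (Γ : Set (FinRel A)) {ι X : Type} (u : ι → X → A) : Prop :=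
  ∀ i, u i ∉ GenRel Γ (subFam u {j | j ≠ i})

theorem Indep.injective {ι X : Type} [Finite ι] {u : ι → X → A} (hu : Indep Γ u) :
    Injective fun S : Set ι => GenRel Γ (subFam u S) := by
  have key : ∀ S T : Set ι, GenRel Γ (subFam u S) = GenRel Γ (subFam u T) → S ⊆ T := by
    intro S T h i hi
    by_contra hT
    have h1 : u i ∈ GenRel Γ (subFam u S) := mem_genRel (subFam u S) ⟨i, hi⟩
    rw [h] at h1
    refine hu i (genRel_subset (inv_genRel _) ?_ h1)
    rintro ⟨j, hj⟩
    refine mem_genRel (subFam u {j | j ≠ i}) ⟨j, ?_⟩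
    rintro rfl
    exact hT hj
  intro S T h
  exact Set.Subset.antisymm (key S T h) (key T S h.symm)

theorem Inv.defines [Finite A] (hΓ : Γ.Finite) {n : ℕ} {R : Set (Fin n → A)} (hR : Inv Γ R) :
    ∃ φ : PPFormula Γ n, φ.Defines R := by
  obtain ⟨L, k, atoms, h1, -⟩ := exists_hasDef_of_inv hΓ hR
  exact ⟨⟨k, atoms⟩, h1⟩

/-- the number of members of an independent family of tuples of length `n` is at most `p n` -/
theorem Indep.card_le [Finite A] (hΓ : Γ.Finite) {p : Polynomial ℕ}
    (hp : ∀ n : ℕ, 0 < n →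
      {R : Set (Fin n → A) | ∃ φ : PPFormula Γ n, φ.Defines R}.ncard ≤ 2 ^ p.eval n)
    {ι X : Type} [Finite ι] [Finite X] [Nonempty X] {u : ι → X → A} (hu : Indep Γ u) :
    Nat.card ι ≤ p.eval (Nat.card X) := by
  classical
  have hn : 0 < Nat.card X := Nat.card_pos
  have h1 := hp _ hn
  let e : X ≃ Fin (Nat.card X) := Finite.equivFin X
  let F : Set ι → Set (Fin (Nat.card X) → A) := fun S =>
    {x | (fun i => x (e i)) ∈ GenRel Γ (subFam u S)}
  have hFinj : Injective F := by
    intro S T h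
    apply hu.injective
    have : ∀ x : X → A, x ∈ GenRel Γ (subFam u S) ↔ x ∈ GenRel Γ (subFam u T) := by
      intro x
      have h2 : (fun i => x (e.symm i)) ∈ F S ↔ (fun i => x (e.symm i)) ∈ F T := by rw [h]
      simpa [F] using h2
    exact Set.ext this
  have hFsub : F '' Set.univ ⊆
      {R : Set (Fin (Nat.card X) → A) | ∃ φ : PPFormula Γ (Nat.card X), φ.Defines R} := by
    rintro R ⟨S, -, rfl⟩
    exact Inv.defines hΓ ((inv_genRel _).preimage e)
  have h3 := Set.ncard_le_ncard hFsub (Set.toFinite _)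
  rw [Set.ncard_image_of_injective _ hFinj, Set.ncard_univ] at h3
  have h4 : Nat.card (Set ι) = 2 ^ Nat.card ι := by
    have := Fintype.ofFinite ι
    rw [Nat.card_eq_fintype_card, Nat.card_eq_fintype_card, Fintype.card_set]
  rw [h4] at h3
  exact (Nat.pow_le_pow_iff_right (by norm_num)).1 (h3.trans h1)

theorem genStmt [Finite A] (hΓ : Γ.Finite) : GenStmt Γ := by
  classical
  rintro ⟨p, hp⟩
  refine ⟨p, ?_⟩
  intro n hn N hN
  have : Nonempty (Fin n) := ⟨⟨0, hn⟩⟩
  -- minimal generating subsets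
  have hex : ∃ r : ℕ, ∃ G : Set (Fin n → A), G ⊆ N ∧ G.ncard = r ∧
      N = GenRel Γ (subFam (fun x : Fin n → A => x) G) := by
    refine ⟨_, N, subset_rfl, rfl, ?_⟩
    refine Set.Subset.antisymm (fun x hx => mem_genRel (subFam (fun x : Fin n → A => x) N) ⟨x, hx⟩)
      (genRel_subset hN fun j => j.2)
  obtain ⟨G, hGN, hGr, hG⟩ := Nat.find_spec hex
  have hmin : ∀ G' : Set (Fin n → A), G' ⊆ N →
      N = GenRel Γ (subFam (fun x : Fin n → A => x) G') → G.ncard ≤ G'.ncard := by
    intro G' h1 h2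
    rw [hGr]
    exact Nat.find_min' hex ⟨G', h1, rfl, h2⟩
  have hind : Indep Γ (subFam (fun x : Fin n → A => x) G) := by
    rintro ⟨g, hg⟩ hmem
    have h1 : G \ {g} ⊆ N := Set.sdiff_subset.trans hGN
    have h2 : N = GenRel Γ (subFam (fun x : Fin n → A => x) (G \ {g})) := by
      refine Set.Subset.antisymm ?_ (genRel_subset hN fun j => h1 j.2)
      conv_lhs => rw [hG]
      refine genRel_subset (inv_genRel _) ?_
      rintro ⟨x, hx⟩
      by_cases hxg : x = g
      · subst hxg
        refine genRel_subset (inv_genRel _) ?_ hmem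
        rintro ⟨⟨y, hy⟩, hne⟩
        refine mem_genRel (subFam (fun x : Fin n → A => x) (G \ {x})) ⟨y, hy, ?_⟩
        intro h
        exact hne (Subtype.ext h)
      · exact mem_genRel (subFam (fun x : Fin n → A => x) (G \ {g})) ⟨x, hx, hxg⟩
    have h3 := hmin _ h1 h2
    have h4 := Set.ncard_sdiff_singleton_lt_of_mem hg (Set.toFinite G)
    omega
  have hcard := hind.card_le hΓ hp
  rw [Nat.card_fin, Nat.card_coe_set_eq] at hcard
  refine ⟨G.ncard, hcard, ?_⟩
  have e : Fin G.ncard ≃ G := by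
    have := Finite.equivFin G
    rw [Nat.card_coe_set_eq] at this
    exact this.symm
  refine ⟨fun i => (e i).1, ?_⟩
  rw [hG]
  apply Set.Subset.antisymm
  · refine genRel_subset (inv_genRel _) ?_
    intro j
    have := mem_genRel (Γ := Γ) (fun i => (e i).1) (e.symm j)
    simp only [Equiv.apply_symm_apply] at this
    exact this
  · refine genRel_subset (inv_genRel _) ?_
    intro i
    exact mem_genRel (subFam (fun x : Fin n → A => x) G) (e i)

theorem poly_bound (p : Polynomial ℕ) {x : ℕ} (hx : 1 ≤ x) :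
    p.eval x ≤ p.eval 1 * x ^ p.natDegree := by
  rw [Polynomial.eval_eq_sum_range, Polynomial.eval_eq_sum_range, Finset.sum_mul]
  refine Finset.sum_le_sum fun i hi => ?_
  rw [one_pow, mul_one]
  have : i ≤ p.natDegree := by
    rw [Finset.mem_range] at hi
    omega
  exact Nat.mul_le_mul_left _ (Nat.pow_le_pow_right hx this)

theorem poly_growth (p : Polynomial ℕ) (c k : ℕ) (hc : 1 ≤ c) (hk : p.natDegree < k) :
    ∃ n : ℕ, 0 < n ∧ p.eval (c * n) < n ^ k := by
  refine ⟨p.eval 1 * c ^ p.natDegree + 1, Nat.succ_pos _, ?_⟩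
  set n := p.eval 1 * c ^ p.natDegree + 1 with hn
  have hn1 : 1 ≤ n := by omega
  have h1 : p.eval (c * n) ≤ p.eval 1 * (c * n) ^ p.natDegree :=
    poly_bound p (Nat.mul_pos hc hn1)
  have h2 : p.eval 1 * (c * n) ^ p.natDegree = (p.eval 1 * c ^ p.natDegree) * n ^ p.natDegree := by
    rw [mul_pow]
    ring
  have h3 : (p.eval 1 * c ^ p.natDegree) * n ^ p.natDegree < n * n ^ p.natDegree := by
    refine Nat.mul_lt_mul_of_pos_right ?_ (Nat.pow_pos hn1)
    omega
  have h4 : n * n ^ p.natDegree ≤ n ^ k := by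
    rw [← pow_succ']
    exact Nat.pow_le_pow_right hn1 hk
  omega

theorem cubeStmt [Finite A] (hΓ : Γ.Finite) : CubeStmt Γ := by
  classical
  rintro ⟨p, hp⟩
  refine ⟨p.natDegree + 2, by omega, ?_⟩
  set k := p.natDegree + 2 with hk
  rcases isEmpty_or_nonempty A with hA | hA
  · have hmem : (Finset.univ : Finset (Fin k)) ∈
        ((Finset.univ : Finset (Finset (Fin k))).filter fun w => w.Nonempty) := by
      rw [Finset.mem_filter]
      exact ⟨Finset.mem_univ _, ⟨⟨0, by omega⟩, Finset.mem_univ _⟩⟩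
    exact ⟨_, isPol_proj ⟨_, hmem⟩, fun i a => (hA.false a).elim⟩
  by_contra hcube
  have : Fintype A := Fintype.ofFinite A
  set c := k * (Fintype.card A * Fintype.card A) with hc
  have hc1 : 1 ≤ c := by
    have h1 : 0 < Fintype.card A := Fintype.card_pos
    have h2 : 0 < k := by omega
    exact Nat.mul_pos h2 (Nat.mul_pos h1 h1)
  obtain ⟨n, hn, hgrow⟩ := poly_growth p c k hc1 (by omega)
  have hXne : Nonempty (Fin k × Fin n × (A × A)) := by
    have a := Classical.arbitrary A
    exact ⟨⟨⟨0, by omega⟩, ⟨0, hn⟩, a, a⟩⟩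
  let s : (Fin k → Fin n) → Fin k × Fin n × (A × A) → A := fun φ x =>
    if φ x.1 = x.2.1 then x.2.2.1 else x.2.2.2
  have hind : Indep Γ s := by
    rintro φ₀ ⟨w, hw, hs⟩
    apply hcube
    have hne : ∀ φ : {φ : Fin k → Fin n | φ ≠ φ₀},
        (Finset.univ.filter fun i => φ.1 i ≠ φ₀ i) ∈
          ((Finset.univ : Finset (Finset (Fin k))).filter fun w => w.Nonempty) := by
      intro φ
      rw [Finset.mem_filter]
      refine ⟨Finset.mem_univ _, ?_⟩
      by_contra h
      rw [Finset.not_nonempty_iff_eq_empty, Finset.filter_eq_empty_iff] at h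
      refine φ.2 (funext fun i => ?_)
      have := h (Finset.mem_univ i)
      simpa using this
    refine ⟨fun z => w fun φ => z ⟨_, hne φ⟩, hw.reindex _, ?_⟩
    intro i a b
    have h1 := congrFun hs (i, φ₀ i, (a, b))
    simp only [s, subFam, if_true] at h1
    refine Eq.trans ?_ h1.symm
    show w _ = w _
    refine congrArg w (funext fun φ => ?_)
    simp only [Finset.mem_filter, Finset.mem_univ, true_and]
    by_cases h : φ.1 i = φ₀ i <;> simp [h]
  have hcard := hind.card_le hΓ hp
  rw [Nat.card_eq_fintype_card, Nat.card_eq_fintype_card] at hcard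
  simp only [Fintype.card_fun, Fintype.card_fin, Fintype.card_prod] at hcard
  have hcn : k * (n * (Fintype.card A * Fintype.card A)) = c * n := by
    rw [hc]
    ring
  rw [hcn] at hcard
  omega

end Pool.Agent.Lib.MP2ea600
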