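import Pool.Agent.Lib.MP_2ea600_lc.LSDefs

/-!
# Module DCC: families closed under substitution satisfy the descending chain condition
(MP_2ea600_lc)
-/

namespace Pool.Agent.Lib.MP2ea600.LS

open Function

section Words

variable {B : Type}

/-- The flag: first occurrence of its letter. -/
def fstOcc {r : ℕ} (v : Fin r → B) (i : Fin r) : Prop := ∀ j < i, v j ≠ v i

/-- The embedding of words used in the proof. -/
structure Emb {r n : ℕ} (v : Fin r → B) (w : Fin n → B) (h : Fin r ↪o Fin n) : Prop where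
  eq : ∀ i, v i = w (h i)
  flag : ∀ i, fstOcc v i ↔ fstOcc w (h i)
  range : Set.range v = Set.range w

theorem exists_first {r : ℕ} (v : Fin r → B) (b : B) (hb : b ∈ Set.range v) :
    ∃ i, v i = b ∧ fstOcc v i := by
  classical
  obtain ⟨i₀, hi₀⟩ := hb
  have hne : (Finset.univ.filter fun i => v i = b).Nonempty := ⟨i₀, by simp [hi₀]⟩
  refine ⟨(Finset.univ.filter fun i => v i = b).min' hne, ?_, ?_⟩
  · have := Finset.min'_mem _ hne
    simpa using this
  · intro j hj h
    have h1 := Finset.min'_mem _ hne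
    have h2 : v ((Finset.univ.filter fun i => v i = b).min' hne) = b := by simpa using h1
    have h3 := Finset.min'_le (Finset.univ.filter fun i => v i = b) j (by simp [h, h2])
    exact absurd hj (not_lt.mpr h3)

open Classical in
/-- The substitution belonging to an embedding. -/
theorem Emb.exists_sigma [LinearOrder B] {r n : ℕ} {v : Fin r → B} {w : Fin n → B}
    {h : Fin r ↪o Fin n} (H : Emb v w h) :
    ∃ σ : Fin n → Fin r, v ∘ σ = w ∧
      ∀ x : Fin r → B, toLex x < toLex v → toLex (x ∘ σ) < toLex w := by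
  have hf : ∀ j : Fin n, ∃ i, v i = w j ∧ fstOcc v i := fun j =>
    exists_first v (w j) (by rw [H.range]; exact ⟨j, rfl⟩)
  choose g hg hg' using hf
  let σ : Fin n → Fin r := fun j => if hj : ∃ i, h i = j then hj.choose else g j
  have hσ1 : ∀ i, σ (h i) = i := by
    intro i
    have hj : ∃ i', h i' = h i := ⟨i, rfl⟩
    have : σ (h i) = hj.choose := dif_pos hj
    rw [this]
    exact h.injective hj.choose_spec
  have hσ2 : ∀ j, (¬ ∃ i, h i = j) → σ j = g j := fun j hj => dif_neg hj
  have hvs : v ∘ σ = w := by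
    funext j
    by_cases hj : ∃ i, h i = j
    · obtain ⟨i, rfl⟩ := hj
      simp only [comp_apply, hσ1]
      exact H.eq i
    · simp only [comp_apply, hσ2 j hj]
      exact hg j
  refine ⟨σ, hvs, ?_⟩
  intro x hx
  obtain ⟨i₀, hlt, hi₀⟩ := hx
  have key : ∀ j, j < h i₀ → σ j ≤ i₀ := by
    intro j hj
    by_cases hjr : ∃ i, h i = j
    · obtain ⟨i, rfl⟩ := hjr
      rw [hσ1]
      exact le_of_lt (h.lt_iff_lt.mp hj)
    · rw [hσ2 j hjr]
      by_contra hcon
      push Not at hcon
      have h1 : fstOcc w (h (g j)) := (H.flag _).mp (hg' j)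
      have h2 : j < h (g j) := lt_trans hj (h.lt_iff_lt.mpr hcon)
      exact h1 j h2 (by rw [← H.eq, hg])
  have hne : (Finset.univ.filter fun j => σ j = i₀).Nonempty := ⟨h i₀, by simp [hσ1]⟩
  set j₀ := (Finset.univ.filter fun j => σ j = i₀).min' hne with hj₀
  have hj₀m : σ j₀ = i₀ := by
    have := Finset.min'_mem _ hne
    simpa using this
  have hj₀le : j₀ ≤ h i₀ := Finset.min'_le _ _ (by simp [hσ1])
  refine ⟨j₀, ?_, ?_⟩
  · intro j hj
    have h1 : σ j ≤ i₀ := key j (lt_of_lt_of_le hj hj₀le)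
    have h2 : σ j ≠ i₀ := by
      intro h2
      exact absurd hj (not_lt.mpr (Finset.min'_le _ _ (by simp [h2])))
    have h3 := hlt (σ j) (lt_of_le_of_ne h1 h2)
    have h4 : w j = v (σ j) := by rw [← hvs]; rfl
    change x (σ j) = w j
    rw [h4]
    exact h3
  · have h4 : w j₀ = v (σ j₀) := by rw [← hvs]; rfl
    change x (σ j₀) < w j₀
    rw [h4, hj₀m]
    exact hi₀

open Classical in
/-- Higman's lemma for our embeddings. -/
theorem exists_emb [Finite B] {U : Type} [Finite U] (u : ℕ → U) (r : ℕ → ℕ)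
    (w : ∀ n, Fin (r n) → B) :
    ∃ m n, m < n ∧ u m = u n ∧ ∃ h, Emb (w m) (w n) h := by
  obtain ⟨y, hy⟩ := Finite.exists_infinite_fiber
    (fun n : ℕ => ((u n, Set.range (w n)) : U × Set B))
  have hy' : ((fun n : ℕ => ((u n, Set.range (w n)) : U × Set B)) ⁻¹' {y}).Infinite :=
    Set.infinite_coe_iff.mp hy
  let φ := Nat.orderEmbeddingOfSet ((fun n : ℕ => ((u n, Set.range (w n)) : U × Set B)) ⁻¹' {y})
  have hφ : ∀ n, (u (φ n), Set.range (w (φ n))) = y := by
    intro n
    have h1 : φ n ∈ Set.range φ := ⟨n, rfl⟩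
    have h2 : Set.range φ = (fun n : ℕ => ((u n, Set.range (w n)) : U × Set B)) ⁻¹' {y} :=
      Nat.orderEmbeddingOfSet_range _
    rw [h2] at h1
    exact h1
  let E : ∀ n, List (B × Bool) := fun n =>
    List.ofFn fun i => (w n i, decide (fstOcc (w n) i))
  have hfin : (Set.univ : Set (B × Bool)).PartiallyWellOrderedOn (· = ·) :=
    Set.Finite.partiallyWellOrderedOn Set.finite_univ
  have hH := Set.PartiallyWellOrderedOn.partiallyWellOrderedOn_sublistForall₂
    (fun a b : B × Bool => a = b) hfin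
  obtain ⟨m, n, hmn, hs⟩ := hH (fun n => ⟨E (φ n), fun x _ => Set.mem_univ x⟩)
  change List.SublistForall₂ (fun a b : B × Bool => a = b) (E (φ m)) (E (φ n)) at hs
  refine ⟨φ m, φ n, φ.lt_iff_lt.mpr hmn, ?_, ?_⟩
  · have h1 := hφ m
    have h2 := hφ n
    rw [← h2] at h1
    exact (Prod.mk.inj h1).1
  · rw [List.sublistForall₂_iff] at hs
    obtain ⟨l, hl1, hl2⟩ := hs
    rw [List.forall₂_eq_eq_eq] at hl1
    subst hl1
    rw [List.sublist_iff_exists_fin_orderEmbedding_get_eq] at hl2
    obtain ⟨f, hf⟩ := hl2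
    have e1 : (E (φ m)).length = r (φ m) := by simp [E]
    have e2 : (E (φ n)).length = r (φ n) := by simp [E]
    let h : Fin (r (φ m)) ↪o Fin (r (φ n)) :=
      ((Fin.castOrderIso e1.symm).toOrderEmbedding.trans f).trans
        (Fin.castOrderIso e2).toOrderEmbedding
    have key : ∀ i, (w (φ m) i, decide (fstOcc (w (φ m)) i)) =
        (w (φ n) (h i), decide (fstOcc (w (φ n)) (h i))) := by
      intro i
      have := hf (Fin.cast e1.symm i)
      simp only [E, List.get_ofFn] at this
      exact this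
    refine ⟨h, ?_, ?_, ?_⟩
    · intro i
      exact (Prod.mk.inj (key i)).1
    · intro i
      have := (Prod.mk.inj (key i)).2
      simpa using this
    · have h1 := hφ m
      have h2 := hφ n
      rw [← h2] at h1
      exact (Prod.mk.inj h1).2

end Words

section Pivots

variable {K U B : Type} [Field K] [LinearOrder U] [LinearOrder B]

/-- The places. -/
abbrev Place (U B : Type) (r : ℕ) := U ×ₗ Lex (Fin r → B)

/-- The value at a place. -/
def val {r : ℕ} (f : U → (Fin r → B) → K) (p : Place U B r) : K :=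
  f (ofLex p).1 (ofLex (ofLex p).2)

/-- The pivots of a family. -/
def Piv (V : Fam K U B) (r : ℕ) (p : Place U B r) : Prop :=
  ∃ f ∈ V r, val f p ≠ 0 ∧ ∀ q < p, val f q = 0

theorem piv_mono {V W : Fam K U B} (h : W ≤ V) {r : ℕ} {p : Place U B r} (hp : Piv W r p) :
    Piv V r p := by
  obtain ⟨f, hf, h1, h2⟩ := hp
  exact ⟨f, h r hf, h1, h2⟩

theorem piv_subst {V : Fam K U B} (hV : SubstClosed V) {r n : ℕ} {u : U} {v : Fin r → B}
    {w : Fin n → B} {h : Fin r ↪o Fin n} (H : Emb v w h)
    (hp : Piv V n (toLex (u, toLex w))) : Piv V r (toLex (u, toLex v)) := by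
  obtain ⟨σ, hσ, hlt⟩ := H.exists_sigma
  obtain ⟨f, hf, h1, h2⟩ := hp
  refine ⟨_, hV n r σ f hf, ?_, ?_⟩
  · change f u (v ∘ σ) ≠ 0
    rw [hσ]
    exact h1
  · intro q hq
    obtain ⟨u', x⟩ := q
    change f u' (ofLex x ∘ σ) = 0
    apply h2 (toLex (u', toLex (ofLex x ∘ σ)))
    rw [Prod.Lex.toLex_lt_toLex]
    have hq' := Prod.Lex.toLex_lt_toLex.mp hq
    rcases hq' with hq' | ⟨hq1, hq2⟩
    · exact Or.inl hq'
    · exact Or.inr ⟨hq1, hlt (ofLex x) hq2⟩

theorem eq_of_piv [Finite U] [Finite B] {V W : Fam K U B} (h : W ≤ V)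
    (hp : ∀ r p, Piv V r p → Piv W r p) : W = V := by
  classical
  apply le_antisymm h
  intro r f hf
  by_contra hcon
  -- among the elements of `V \ W` take one with the latest leading place
  have hwf : WellFounded ((· > ·) : Place U B r → Place U B r → Prop) := by
    have : Finite (Place U B r) := inferInstanceAs (Finite (U × (Fin r → B)))
    exact Finite.wellFounded_of_trans_of_irrefl _
  have hex : ∀ g ∈ V r, g ∉ W r → ∃ p : Place U B r, val g p ≠ 0 ∧ ∀ q < p, val g q = 0 := by
    intro g hg hg'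
    have hwf' : WellFounded ((· < ·) : Place U B r → Place U B r → Prop) := by
      have : Finite (Place U B r) := inferInstanceAs (Finite (U × (Fin r → B)))
      exact Finite.wellFounded_of_trans_of_irrefl _
    have hne : {p : Place U B r | val g p ≠ 0}.Nonempty := by
      by_contra hne
      rw [Set.not_nonempty_iff_eq_empty] at hne
      apply hg'
      have : g = 0 := by
        funext u v
        by_contra h0
        have : (toLex (u, toLex v) : Place U B r) ∈ {p : Place U B r | val g p ≠ 0} := h0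
        rw [hne] at this
        exact this
      rw [this]
      exact (W r).zero_mem
    refine ⟨hwf'.min _ hne, hwf'.min_mem _ hne, ?_⟩
    intro q hq
    by_contra h0
    exact hwf'.not_lt_min _ h0 hq
  have hne : {p : Place U B r | ∃ g ∈ V r, g ∉ W r ∧ val g p ≠ 0 ∧ ∀ q < p, val g q = 0}.Nonempty := by
    obtain ⟨p, hp1, hp2⟩ := hex f hf hcon
    exact ⟨p, f, hf, hcon, hp1, hp2⟩
  obtain ⟨g, hgV, hgW, hg1, hg2⟩ := hwf.min_mem _ hne
  set p := hwf.min _ hne with hpdef
  obtain ⟨k, hkW, hk1, hk2⟩ := hp r p ⟨g, hgV, hg1, hg2⟩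
  set g' : U → (Fin r → B) → K := g - (val g p / val k p) • k with hg'
  have hg'V : g' ∈ V r := (V r).sub_mem hgV ((V r).smul_mem _ (h r hkW))
  have hg'W : g' ∉ W r := by
    intro hmem
    apply hgW
    have : g = g' + (val g p / val k p) • k := by rw [hg']; abel
    rw [this]
    exact (W r).add_mem hmem ((W r).smul_mem _ hkW)
  have hval : ∀ q, val g' q = val g q - val g p / val k p * val k q := by
    intro q
    rfl
  obtain ⟨p', hp'1, hp'2⟩ := hex g' hg'V hg'W
  have hlt : p < p' := by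
    by_contra hle
    push Not at hle
    rcases lt_or_eq_of_le hle with hlt | heq
    · apply hp'1
      rw [hval, hg2 _ hlt, hk2 _ hlt]
      ring
    · apply hp'1
      rw [hval, heq]
      field_simp
      ring
  exact hwf.not_lt_min {p : Place U B r | ∃ g ∈ V r, g ∉ W r ∧ val g p ≠ 0 ∧ ∀ q < p, val g q = 0}
    ⟨g', hg'V, hg'W, hp'1, hp'2⟩ hlt

theorem dcc_aux [Finite U] [Finite B] :
    WellFounded fun V W : {V : Fam K U B // SubstClosed V} => V.1 < W.1 := by
  rw [RelEmbedding.wellFounded_iff_isEmpty]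
  constructor
  intro F
  have hF : ∀ m n, m < n → (F n).1 < (F m).1 := fun m n hmn => F.map_rel_iff.mpr hmn
  have hp : ∀ n, ∃ (r : ℕ) (p : Place U B r), Piv (F n).1 r p ∧ ¬ Piv (F (n + 1)).1 r p := by
    intro n
    by_contra hcon
    push Not at hcon
    have h1 := eq_of_piv (le_of_lt (hF n (n + 1) (Nat.lt_succ_self n))) hcon
    exact absurd h1 (ne_of_lt (hF n (n + 1) (Nat.lt_succ_self n)))
  choose r p hp1 hp2 using hp
  obtain ⟨m, n, hmn, hu, h, H⟩ := exists_emb (fun n => (ofLex (p n)).1) r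
    (fun n => ofLex (ofLex (p n)).2)
  apply hp2 m
  have h1 : (p m) = toLex ((ofLex (p m)).1, toLex (ofLex (ofLex (p m)).2)) := rfl
  rw [h1]
  apply piv_subst (F (m + 1)).2 H
  have h2 : (p n) = toLex ((ofLex (p n)).1, toLex (ofLex (ofLex (p n)).2)) := rfl
  have h3 := hp1 n
  rw [h2, ← hu] at h3
  rcases eq_or_lt_of_le (Nat.succ_le_of_lt hmn) with h4 | h4
  · rw [show m + 1 = n from h4]
    exact h3
  · exact piv_mono (le_of_lt (hF (m + 1) n h4)) h3

end Pivots

/-- Module DCC. -/
theorem dccStmt (K U B : Type) [Field K] [Finite U] [Finite B] : DccStmt K U B := by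
  intro S hS hne
  obtain ⟨n, ⟨eU⟩⟩ := Finite.exists_equiv_fin U
  obtain ⟨m, ⟨eB⟩⟩ := Finite.exists_equiv_fin B
  let _ : LinearOrder U := LinearOrder.lift' eU eU.injective
  let _ : LinearOrder B := LinearOrder.lift' eB eB.injective
  have hwf := dcc_aux (K := K) (U := U) (B := B)
  have hne' : {V : {V : Fam K U B // SubstClosed V} | V.1 ∈ S}.Nonempty := by
    obtain ⟨V, hV⟩ := hne
    exact ⟨⟨V, hS V hV⟩, hV⟩
  refine ⟨(hwf.min _ hne').1, hwf.min_mem _ hne', ?_⟩
  intro W hW hle
  by_contra hcon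
  exact hwf.not_lt_min {V : {V : Fam K U B // SubstClosed V} | V.1 ∈ S} (x := ⟨W, hS W hW⟩) hW
    (lt_of_le_of_ne hle hcon)

end Pool.Agent.Lib.MP2ea600.LS
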