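import Mathlib

/-!
# Short pp-definitions: definitions (MP_2ea600_lc)
-/

namespace Pool.Agent.Lib.MP2ea600

/-- A relation of some finite arity on `A`. -/
abbrev FinRel (A : Type) := Σ k : ℕ, Set (Fin k → A)

/-- Atomic formulas over the constraint language `Γ` with variables in `V`: equalities of two
variables, and relation symbols applied to variables. -/
inductive Atom {A : Type} (Γ : Set (FinRel A)) (V : Type) : Type
  | eq (x y : V) : Atom Γ V
  | rel (R : FinRel A) (hR : R ∈ Γ) (z : Fin R.1 → V) : Atom Γ V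

variable {A : Type} {Γ : Set (FinRel A)}

/-- The atom is true under the assignment `v`. -/
def Atom.Holds {V : Type} (v : V → A) : Atom Γ V → Prop
  | .eq x y => v x = v y
  | .rel R _ z => (fun i => v (z i)) ∈ R.2

/-- The number of symbols of an atom. -/
def Atom.size {V : Type} : Atom Γ V → ℕ
  | .eq _ _ => 3
  | .rel R _ _ => R.1 + 1

/-- A primitive positive formula in prenex form over `Γ`, with free variables `x_0, ..., x_{n-1}`,
quantified variables `y_0, ..., y_{k-1}` and a finite conjunction of atoms. -/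
structure PPFormula {A : Type} (Γ : Set (FinRel A)) (n : ℕ) : Type where
  /-- the number of existentially quantified variables -/
  k : ℕ
  /-- the atoms -/
  atoms : List (Atom Γ (Fin n ⊕ Fin k))

/-- The formula holds at the tuple `x`. -/
def PPFormula.Holds {n : ℕ} (φ : PPFormula Γ n) (x : Fin n → A) : Prop :=
  ∃ y : Fin φ.k → A, ∀ a ∈ φ.atoms, a.Holds (Sum.elim x y)

/-- The length of a formula: two symbols for each quantifier with its variable, the symbols of the
atoms, and one conjunction sign for each atom. -/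
def PPFormula.length {n : ℕ} (φ : PPFormula Γ n) : ℕ :=
  2 * φ.k + (φ.atoms.map fun a => a.size + 1).sum

/-- The relation `R` is defined by the formula `φ`. -/
def PPFormula.Defines {n : ℕ} (φ : PPFormula Γ n) (R : Set (Fin n → A)) : Prop :=
  R = {x | φ.Holds x}

/-- `Γ` has short pp-definitions: there is a polynomial `p` such that for all `n > 0` every `n`-ary
relation which is pp-definable from `Γ` is defined by a pp-formula of length at most `p(n)`. -/
def HasShortPPDefinitions {A : Type} (Γ : Set (FinRel A)) : Prop :=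
  ∃ p : Polynomial ℕ, ∀ n : ℕ, 0 < n → ∀ R : Set (Fin n → A),
    (∃ φ : PPFormula Γ n, φ.Defines R) → ∃ φ : PPFormula Γ n, φ.Defines R ∧ φ.length ≤ p.eval n

/-- `f` is a polymorphism of `Γ` (an operation of arity `ι` preserving all relations in `Γ`). -/
def IsPol {A : Type} (Γ : Set (FinRel A)) {ι : Type} (f : (ι → A) → A) : Prop :=
  ∀ R ∈ Γ, ∀ M : ι → (Fin R.1 → A), (∀ j, M j ∈ R.2) → (fun i => f fun j => M j i) ∈ R.2

/-- `m` is a Malcev polymorphism of `Γ`. -/
structure IsMalcev {A : Type} (Γ : Set (FinRel A)) (m : A → A → A → A) : Prop where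
  pol : IsPol Γ fun v : Fin 3 → A => m (v 0) (v 1) (v 2)
  left : ∀ x y, m x y y = x
  right : ∀ x y, m y y x = x

/-- `S` is a subuniverse of the polymorphism algebra of `Γ`. -/
def IsSub {A : Type} (Γ : Set (FinRel A)) (S : Set A) : Prop :=
  ∀ (m : ℕ) (f : (Fin m → A) → A), IsPol Γ f → ∀ v : Fin m → A, (∀ i, v i ∈ S) → f v ∈ S

/-- `θ` is a congruence of the subalgebra `S` of the polymorphism algebra of `Γ`. -/
structure IsCong {A : Type} (Γ : Set (FinRel A)) (S : Set A) (θ : A → A → Prop) : Prop where
  mem : ∀ a b, θ a b → a ∈ S ∧ b ∈ S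
  refl : ∀ a ∈ S, θ a a
  symm : ∀ a b, θ a b → θ b a
  trans : ∀ a b c, θ a b → θ b c → θ a c
  comp : ∀ (m : ℕ) (f : (Fin m → A) → A), IsPol Γ f → ∀ v w : Fin m → A,
    (∀ i, θ (v i) (w i)) → θ (f v) (f w)

/-- The quotient of the algebra `S` by its congruence `θ` is subdirectly irreducible with monolith
`μ / θ`: every congruence of `S` properly containing `θ` contains `μ`, and `μ` is one of them. -/
structure IsMonolith {A : Type} (Γ : Set (FinRel A)) (S : Set A) (θ μ : A → A → Prop) : Prop where
  cong : IsCong Γ S μ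
  le : ∀ a b, θ a b → μ a b
  ne : ∃ a b, μ a b ∧ ¬ θ a b
  min : ∀ α : A → A → Prop, IsCong Γ S α → (∀ a b, θ a b → α a b) → (∃ a b, α a b ∧ ¬ θ a b) →
    ∀ a b, μ a b → α a b

/-- The term condition `C(α, β; θ)`: `α` centralizes `β` modulo `θ`. -/
def Centralizes {A : Type} (Γ : Set (FinRel A)) (α β θ : A → A → Prop) : Prop :=
  ∀ (m n : ℕ) (f : (Fin m ⊕ Fin n → A) → A), IsPol Γ f → ∀ (a a' : Fin m → A) (b b' : Fin n → A),
    (∀ i, α (a i) (a' i)) → (∀ j, β (b j) (b' j)) →
    θ (f (Sum.elim a b)) (f (Sum.elim a b')) → θ (f (Sum.elim a' b)) (f (Sum.elim a' b'))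

/-- The vertex of the cube spanned by `a` and `b` (with blocks of coordinates indexed by `β`)
belonging to `c`: the blocks `k` with `c k = true` are taken from `b`, the others from `a`. -/
def vertex {A β κ : Type} (a b : β × κ → A) (c : β → Bool) : β × κ → A :=
  fun x => if c x.1 then b x else a x

/-- The term condition `C(ρ, ..., ρ; θ)` with `D + 1` entries `ρ` (Bulatov). It says that the
`(D+1)`-ary higher commutator `[ρ, ..., ρ]` vanishes modulo `θ`, i.e. that `ρ` is supernilpotent of
class `D` modulo `θ`. -/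
def IsSupernilpotent {A : Type} (Γ : Set (FinRel A)) (D : ℕ) (ρ θ : A → A → Prop) : Prop :=
  ∀ (m : ℕ) (f : (Fin (D + 1) × Fin m → A) → A), IsPol Γ f → ∀ a b : Fin (D + 1) × Fin m → A,
    (∀ x, ρ (a x) (b x)) →
    (∀ c : Fin (D + 1) → Bool, c (Fin.last D) = false → (∃ k, k ≠ Fin.last D ∧ c k = false) →
      θ (f (vertex a b c)) (f (vertex a b (Function.update c (Fin.last D) true)))) →
    θ (f (vertex a b (Function.update (fun _ => true) (Fin.last D) false)))
      (f (vertex a b fun _ => true))

end Pool.Agent.Lib.MP2ea600
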