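import Pool.Agent.Lib.MP_2ea600_lc.UADefs

/-!
# Module EDGE: edge polymorphisms from cube polymorphisms, Gumm terms, parallelogram property
(MP_2ea600_lc)
-/

namespace Pool.Agent.Lib.MP2ea600

open Function

variable {A : Type} {Γ : Set (FinRel A)}

/-! ### Gumm terms -/

theorem IsEdge.idem {k : ℕ} {e : (Option (Fin k) → A) → A} (he : IsEdge Γ k e) (hk : 2 ≤ k)
    (a : A) (v : Option (Fin k) → A) (hv : ∀ o, v o = a) : e v = a := by
  have h := he.low ⟨0, by omega⟩ (by simp) a a
  have : v = fun o => o.elim a fun j => if j = (⟨0, by omega⟩ : Fin k) then a else a := by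
    funext o
    rw [hv]
    cases o <;> simp
  rw [this]
  exact h

theorem IsEdge.low' {k : ℕ} {e : (Option (Fin k) → A) → A} (he : IsEdge Γ k e)
    (i : Fin k) (hi : i.1 ≤ 1) (a b : A) (v : Option (Fin k) → A) (h0 : v none = b)
    (hi' : v (some i) = b) (hv : ∀ j, j ≠ i → v (some j) = a) : e v = a := by
  have h := he.low i hi a b
  have : v = fun o => o.elim b fun j => if j = i then b else a := by
    funext o
    cases o with
    | none => simpa using h0
    | some j =>
      by_cases hj : j = i
      · subst hj; simpa using hi'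
      · simpa [hj] using hv j hj
  rw [this]
  exact h

theorem IsEdge.high' {k : ℕ} {e : (Option (Fin k) → A) → A} (he : IsEdge Γ k e)
    (i : Fin k) (hi : 1 < i.1) (a : A) (v : Option (Fin k) → A) (h0 : v none = a)
    (hv : ∀ j, j ≠ i → v (some j) = a) : e v = a := by
  have h := he.high i hi a (v (some i))
  have : v = fun o => o.elim a fun j => if j = i then v (some i) else a := by
    funext o
    cases o with
    | none => simpa using h0
    | some j =>
      by_cases hj : j = i
      · subst hj; simp
      · simpa [hj] using hv j hj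
  rw [this]
  exact h

theorem gummStmt (Γ : Set (FinRel A)) : GummStmt Γ := by
  intro k e hk he
  have h1k : 1 < k := by omega
  -- the term `s`
  let s : (Fin k → A) → A := fun x => e fun o => o.elim (x ⟨1, h1k⟩) x
  have hs : IsPol Γ s := by
    have : s = fun x : Fin k → A => e fun o => (fun o : Option (Fin k) => fun x : Fin k → A =>
        x (o.elim ⟨1, h1k⟩ id)) o x := by
      funext x
      simp only [s]
      congr 1
      funext o
      cases o <;> rfl
    rw [this]
    exact he.pol.comp fun o => isPol_proj _
  have hsnu : ∀ (j : Fin k), 1 ≤ j.1 → ∀ (a : A) (x : Fin k → A), (∀ i, i ≠ j → x i = a) →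
      s x = a := by
    intro j hj a x hx
    rcases Nat.lt_or_ge 1 j.1 with h | h
    · refine he.high' j h a _ ?_ ?_
      · exact hx _ fun h' => by rw [← h'] at h; simp at h
      · intro i hi
        exact hx i hi
    · have hj1 : j = ⟨1, h1k⟩ := Fin.ext (by simp; omega)
      subst hj1
      exact he.low' ⟨1, h1k⟩ le_rfl a (x ⟨1, h1k⟩) _ rfl rfl fun i hi => hx i hi
  let pos : ℕ → ℕ := fun i => max 1 (k - 1 - i)
  have hpos : ∀ i, pos i < k := fun i => by simp only [pos]; omega
  have hpos1 : ∀ i, 1 ≤ pos i := fun i => le_max_left _ _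
  let G : ℕ → A → A → A → A := fun i x y z =>
    s fun l => if l.1 < pos i then x else if l.1 = pos i then y else z
  let q : A → A → A → A := fun x y z => e fun o => o.elim y fun l => if l.1 = 0 then x else z
  refine ⟨k - 2, G, q, ?_, ?_, ?_, ?_, ?_, ?_, ?_⟩
  · intro i
    have : (fun v : Fin 3 → A => G i (v 0) (v 1) (v 2)) = fun v : Fin 3 → A =>
        s fun l => (fun (l : Fin k) (v : Fin 3 → A) =>
          v (if l.1 < pos i then 0 else if l.1 = pos i then 1 else 2)) l v := by
      funext v
      have h : (fun l : Fin k => if l.1 < pos i then v 0 else if l.1 = pos i then v 1 else v 2) =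
          fun l : Fin k => v (if l.1 < pos i then 0 else if l.1 = pos i then 1 else 2) := by
        funext l
        split_ifs <;> rfl
      exact congrArg s h
    rw [this]
    exact hs.comp (g := fun (l : Fin k) (v : Fin 3 → A) =>
      v (if l.1 < pos i then 0 else if l.1 = pos i then 1 else 2)) fun l => isPol_proj _
  · have : (fun v : Fin 3 → A => q (v 0) (v 1) (v 2)) = fun v : Fin 3 → A =>
        e fun o => (fun (o : Option (Fin k)) (v : Fin 3 → A) =>
          v (o.elim 1 fun l => if l.1 = 0 then 0 else 2)) o v := by
      funext v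
      refine congrArg e (funext fun o => ?_)
      cases o with
      | none => rfl
      | some l => simp only [Option.elim]; split_ifs <;> rfl
    rw [this]
    exact he.pol.comp (g := fun (o : Option (Fin k)) (v : Fin 3 → A) =>
      v (o.elim 1 fun l => if l.1 = 0 then 0 else 2)) fun l => isPol_proj _
  · intro i x y
    refine hsnu ⟨pos i, hpos i⟩ (hpos1 i) x
      (fun l => if l.1 < pos i then x else if l.1 = pos i then y else x) ?_
    intro l hl
    have : l.1 ≠ pos i := fun h => hl (Fin.ext h)
    simp only [this, if_false, ite_self]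
  · intro x z
    refine hsnu ⟨pos 0, hpos 0⟩ (hpos1 0) x
      (fun l => if l.1 < pos 0 then x else if l.1 = pos 0 then x else z) ?_
    intro l hl
    have : l.1 ≠ pos 0 := fun h => hl (Fin.ext h)
    have h2 : pos 0 = k - 1 := by simp only [pos]; omega
    have h3 : l.1 < pos 0 := by have := l.2; omega
    simp only [h3, if_true]
  · intro i hi x z
    have h : (fun l : Fin k => if l.1 < pos i then x else if l.1 = pos i then z else z) =
        (fun l : Fin k => if l.1 < pos (i + 1) then x else if l.1 = pos (i + 1) then x else z) := ?_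
    · exact congrArg s h
    funext l
    have h1 : pos i = k - 1 - i := by simp only [pos]; omega
    have h2 : pos (i + 1) = k - 1 - i - 1 := by simp only [pos]; omega
    rw [h1, h2]
    by_cases h : l.1 < k - 1 - i
    · rw [if_pos h]
      by_cases h' : l.1 < k - 1 - i - 1
      · rw [if_pos h']
      · rw [if_neg h', if_pos (by omega)]
    · rw [if_neg h, ite_self, if_neg (by omega), if_neg (by omega)]
  · intro x z
    have h1 : pos (k - 2) = 1 := by simp only [pos]; omega
    refine congrArg e (funext fun o => ?_)
    simp only [h1]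
    cases o with
    | none => simp
    | some l =>
      simp only [Option.elim]
      by_cases h : l.1 = 0
      · rw [if_pos (by omega), if_pos h]
      · rw [if_neg (by omega), if_neg h, ite_self]
  · intro x z
    refine he.low' ⟨0, by omega⟩ (by simp) z x _ rfl (by simp) ?_
    intro l hl
    have : l.1 ≠ 0 := fun h => hl (Fin.ext h)
    simp [this]

/-! ### The parallelogram property -/

theorem paraStmt (Γ : Set (FinRel A)) : ParaStmt Γ := by
  intro k e hk he J _ _ R hR y hy hcard j b c hb hc hbc
  have h1k : 1 < k := by omega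
  -- an embedding `g` of `Fin k` into `J` with `g 0 = j`
  obtain ⟨g, hg0⟩ : ∃ g : Fin k → J, Injective g ∧ g ⟨0, by omega⟩ = j := by
    obtain ⟨f⟩ := Function.Embedding.nonempty_of_card_le (α := Fin k) (β := J) (by simpa using hcard)
    exact ⟨fun i => Equiv.swap (f ⟨0, by omega⟩) j (f i),
      fun a b h => f.injective ((Equiv.swap (f ⟨0, by omega⟩) j).injective h), by simp⟩
  obtain ⟨hg, hg0⟩ := hg0
  choose a ha using hy
  set l : J := g ⟨1, h1k⟩ with hl
  have hlj : l ≠ j := by
    rw [← hg0, hl]
    exact fun h => by simpa using hg h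
  have hgj : ∀ i : Fin k, 1 ≤ i.1 → g i ≠ j := by
    intro i hi h
    rw [← hg0] at h
    have := congrArg Fin.val (hg h)
    simp at this
    omega
  have hgl : ∀ i : Fin k, 1 < i.1 → g i ≠ l := by
    intro i hi h
    have := congrArg Fin.val (hg (h.trans hl))
    simp at this
    omega
  -- the four tuples
  let U : J → A := fun m => e fun o => o.elim (update c j b m) fun i =>
    if i.1 = 0 then update y j b m else if i.1 = 1 then update c j (y j) m else update y l (a l) m
  let W : J → A := fun m => e fun o => o.elim (update c j b m) fun i =>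
    if i.1 = 0 then update y j b m else if i.1 = 1 then update c j b m else update y l (a l) m
  let X : J → A := fun m => e fun o => o.elim (update y j b m) fun i =>
    if i.1 ≤ 1 then update y j b m else update y (g i) (a (g i)) m
  have hU : U ∈ R := by
    refine hR.fin he.pol (fun (o : Option (Fin k)) (m : J) => o.elim (update c j b m) fun i =>
      if i.1 = 0 then update y j b m else if i.1 = 1 then update c j (y j) m
      else update y l (a l) m) ?_
    intro o
    cases o with
    | none => exact hbc
    | some i =>
      simp only [Option.elim]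
      split_ifs
      · exact hb
      · exact hc
      · exact ha l
  have hW : W ∈ R := by
    refine hR.fin he.pol (fun (o : Option (Fin k)) (m : J) => o.elim (update c j b m) fun i =>
      if i.1 = 0 then update y j b m else if i.1 = 1 then update c j b m
      else update y l (a l) m) ?_
    intro o
    cases o with
    | none => exact hbc
    | some i =>
      simp only [Option.elim]
      split_ifs
      · exact hb
      · exact hbc
      · exact ha l
  have hX : X ∈ R := by
    refine hR.fin he.pol (fun (o : Option (Fin k)) (m : J) => o.elim (update y j b m) fun i =>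
      if i.1 ≤ 1 then update y j b m else update y (g i) (a (g i)) m) ?_
    intro o
    cases o with
    | none => exact hb
    | some i =>
      simp only [Option.elim]
      split_ifs
      · exact hb
      · exact ha _
  have h0 : ∀ i : Fin k, i ≠ ⟨0, by omega⟩ → i.1 ≠ 0 := fun i hi h => hi (Fin.ext h)
  have h1 : ∀ i : Fin k, i ≠ ⟨1, h1k⟩ → i.1 ≠ 1 := fun i hi h => hi (Fin.ext h)
  -- values
  have hUv : ∀ m, m ≠ l → U m = y m := by
    intro m hm
    by_cases hmj : m = j
    · subst hmj
      refine he.low' ⟨0, by omega⟩ (by simp) (y m) b _ (by simp) (by simp) ?_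
      intro i hi
      simp only [Option.elim, h0 i hi, if_false, update_self, update_of_ne hm, ite_self]
    · refine he.low' ⟨1, h1k⟩ (by simp) (y m) (c m) _ (by simp [hmj]) (by simp [hmj]) ?_
      intro i hi
      simp only [Option.elim, h1 i hi, if_false, update_of_ne hm, update_of_ne hmj, ite_self]
  have hWv : ∀ m, m ≠ l → m ≠ j → W m = y m := by
    intro m hm hmj
    refine he.low' ⟨1, h1k⟩ (by simp) (y m) (c m) _ (by simp [hmj]) (by simp [hmj]) ?_
    intro i hi
    simp only [Option.elim, h1 i hi, if_false, update_of_ne hm, update_of_ne hmj, ite_self]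
  have hWl : W l = U l := by
    simp only [W, U, update_of_ne hlj]
  have hXv : ∀ m, m ≠ j → X m = y m := by
    intro m hm
    by_cases h : ∃ i : Fin k, 1 < i.1 ∧ g i = m
    · obtain ⟨i, hi, him⟩ := h
      refine he.high' i hi (y m) _ (by simp [hm]) ?_
      intro i' hi'
      simp only [Option.elim, update_of_ne hm]
      split_ifs
      · rfl
      · rw [update_of_ne]
        rintro rfl
        exact hi' (hg him.symm)
    · push Not at h
      refine he.idem hk (y m) _ ?_
      intro o
      cases o with
      | none => simp [hm]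
      | some i =>
        simp only [Option.elim, update_of_ne hm]
        split_ifs with h'
        · rfl
        · rw [update_of_ne (h i (by omega)).symm]
  have hXj : X j = W j := by
    simp only [X, W]
    congr 1
    funext o
    cases o with
    | none => simp
    | some i =>
      simp only [Option.elim, update_self]
      by_cases h' : i.1 ≤ 1
      · rw [if_pos h']
        split_ifs
        · rfl
        · rfl
        · omega
      · rw [if_neg h', if_neg (by omega), if_neg (by omega), update_of_ne hlj.symm,
          update_of_ne (hgj i (by omega)).symm]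
  -- the final application
  have hfin := hR.fin he.pol (fun (o : Option (Fin k)) (m : J) => o.elim (W m) fun i =>
      if i.1 = 0 then X m else if i.1 = 1 then U m else update y (g i) (a (g i)) m) (by
    intro o
    cases o with
    | none => exact hW
    | some i =>
      simp only [Option.elim]
      split_ifs
      · exact hX
      · exact hU
      · exact ha _)
  convert hfin using 1
  funext m
  symm
  by_cases hmj : m = j
  · subst hmj
    refine he.low' ⟨0, by omega⟩ (by simp) (y m) (W m) _ rfl (by simpa using hXj) ?_
    intro i hi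
    simp only [Option.elim, h0 i hi, if_false]
    split_ifs
    · exact hUv m hlj.symm
    · exact update_of_ne (hgj i (by have := h0 i hi; omega)).symm _ _
  · by_cases hml : m = l
    · rw [hml]
      refine he.low' ⟨1, h1k⟩ (by simp) (y l) (U l) _ hWl (by simp) ?_
      intro i hi
      simp only [Option.elim, h1 i hi, if_false]
      split_ifs
      · exact hXv l hlj
      · exact update_of_ne (hgl i (by have := h1 i hi; omega)).symm _ _
    · by_cases h : ∃ i : Fin k, 1 < i.1 ∧ g i = m
      · obtain ⟨i, hi, him⟩ := h
        refine he.high' i hi (y m) _ (hWv m hml hmj) ?_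
        intro i' hi'
        simp only [Option.elim]
        split_ifs
        · exact hXv m hmj
        · exact hUv m hml
        · rw [update_of_ne]
          rintro rfl
          exact hi' (hg him.symm)
      · push Not at h
        refine he.idem hk (y m) _ ?_
        intro o
        cases o with
        | none => exact hWv m hml hmj
        | some i =>
          simp only [Option.elim]
          split_ifs
          · exact hXv m hmj
          · exact hUv m hml
          · rw [update_of_ne (h i (by omega)).symm]

/-! ### From cubes to edges -/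

private theorem edge_genRel_inv {ι X : Type} (u : ι → X → A) : Inv Γ (GenRel Γ u) := by
  intro m f hf M hM
  choose w hw hMw using hM
  exact ⟨fun v => f fun j => w j v, hf.comp hw, funext fun x => congrArg f (funext fun j => by
    rw [hMw])⟩

private theorem edge_genRel_mem {ι X : Type} (u : ι → X → A) (i : ι) : u i ∈ GenRel Γ u :=
  ⟨fun v => v i, isPol_proj i, rfl⟩

theorem IsCubical.erase {k : ℕ} {S : Finset (Finset (Fin k))} (h : IsCubical Γ S)
    (u : Finset (Fin k)) (i : Fin k) (hu : u ∈ S) (hiu : i ∈ u) (hui : u ≠ {i})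
    (h1 : ∀ w ∈ S, i ∈ w → w ≠ {i} → w.erase i ∈ S) (w₀ : Finset (Fin k)) (hw₀ : w₀ ∈ S)
    (hw₀u : w₀ ≠ u) (hiw₀ : i ∈ w₀) (hw₀i : w₀ ≠ {i}) : IsCubical Γ (S.erase u) := by
  classical
  obtain ⟨t, ht, hid⟩ := h
  have hconst : ∀ (a : A) (v : S → A), (∀ w, v w = a) → t v = a := by
    intro a v hv
    have h2 := hid i a a
    have h3 : v = fun w : S => if i ∈ w.1 then a else a := by
      funext w
      rw [hv, ite_self]
    rw [h3]
    exact h2
  let V : Finset (Fin k) → Fin k × A × A → A := fun w p => if p.1 ∈ w then p.2.2 else p.2.1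
  let R : Set (Fin k × A × A → A) := GenRel Γ fun w : (S.erase u) => V w.1
  have hR : Inv Γ R := edge_genRel_inv _
  have hV : ∀ w ∈ S, w ≠ u → V w ∈ R := fun w hw hwu =>
    edge_genRel_mem (fun w : (S.erase u) => V w.1) ⟨w, Finset.mem_erase.2 ⟨hwu, hw⟩⟩
  have hV' : ∀ w ∈ S, i ∈ w → w ≠ {i} → V (w.erase i) ∈ R := by
    intro w hw hiw hwi
    refine hV _ (h1 w hw hiw hwi) ?_
    rintro rfl
    simp at hiu
  let β : A → A → A := fun a b => t fun w => if i ∈ w.1 ∧ w.1 ≠ u then b else a
  let Vβ : Finset (Fin k) → Fin k × A × A → A := fun w p =>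
    if p.1 = i then β p.2.1 p.2.2 else if p.1 ∈ w then p.2.2 else p.2.1
  have hA : ∀ w ∈ S, i ∈ w → w ≠ u → w ≠ {i} → Vβ w ∈ R := by
    intro w hw hiw hwu hwi
    have key := hR.fin ht (fun (w' : S) => if i ∈ w'.1 ∧ w'.1 ≠ u then V w else V (w.erase i))
      (by
        intro w'
        split_ifs
        · exact hV w hw hwu
        · exact hV' w hw hiw hwi)
    convert key using 1
    funext p
    by_cases hp : p.1 = i
    · simp only [Vβ, if_pos hp, β]
      congr 1
      funext w'
      split_ifs
      · simp [V, hp, hiw]
      · simp [V, hp]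
    · simp only [Vβ, if_neg hp]
      symm
      apply hconst
      intro w'
      split_ifs <;> simp_all [V]
  have hB : Vβ {i} ∈ R := by
    have key := hR.fin ht (fun (w' : S) => if w'.1 = u then V (u.erase i) else V w'.1)
      (by
        intro w'
        split_ifs with h'
        · exact hV' u hu hiu hui
        · exact hV w'.1 w'.2 h')
    convert key using 1
    funext p
    by_cases hp : p.1 = i
    · simp only [Vβ, if_pos hp, β]
      congr 1
      funext w'
      by_cases h' : w'.1 = u
      · simp [h', V, hp]
      · simp [h', V, hp]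
    · simp only [Vβ, if_neg hp, Finset.mem_singleton]
      rw [← hid p.1 p.2.1 p.2.2]
      congr 1
      funext w'
      by_cases h' : w'.1 = u
      · simp [h', V, hp]
      · simp [h', V]
  have hC : Vβ u ∈ R := by
    have key := hR.fin ht (fun (w' : S) => if i ∈ w'.1 then (if w'.1 = u then V (w₀.erase i)
        else V w₀) else V (u.erase i))
      (by
        intro w'
        split_ifs with h' h''
        · exact hV' w₀ hw₀ hiw₀ hw₀i
        · exact hV w₀ hw₀ hw₀u
        · exact hV' u hu hiu hui)
    convert key using 1
    funext p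
    by_cases hp : p.1 = i
    · simp only [Vβ, if_pos hp, β]
      congr 1
      funext w'
      by_cases h' : i ∈ w'.1
      · by_cases h'' : w'.1 = u
        · simp [h'', hiu, V, hp]
        · simp [h', h'', V, hp, hiw₀]
      · simp [h', V, hp]
    · simp only [Vβ, if_neg hp]
      rw [← hid i (if p.1 ∈ u then p.2.2 else p.2.1) (if p.1 ∈ w₀ then p.2.2 else p.2.1)]
      congr 1
      funext w'
      by_cases h' : i ∈ w'.1
      · by_cases h'' : w'.1 = u
        · simp [h'', hiu, V, hp]
        · simp [h', h'', V]
      · simp [h', V, hp]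
  have hfin : (fun p : Fin k × A × A => p.2.1) ∈ R := by
    have key := hR.fin ht (fun (w' : S) => if i ∈ w'.1 then Vβ w'.1 else V w'.1)
      (by
        intro w'
        split_ifs with h'
        · by_cases h'' : w'.1 = u
          · rw [h'']; exact hC
          · by_cases h3 : w'.1 = {i}
            · rw [h3]; exact hB
            · exact hA w'.1 w'.2 h' h'' h3
        · refine hV w'.1 w'.2 ?_
          intro h''
          rw [h''] at h'
          exact h' hiu)
    convert key using 1
    funext p
    by_cases hp : p.1 = i
    · rw [← hid i p.2.1 (β p.2.1 p.2.2)]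
      congr 1
      funext w'
      by_cases h' : i ∈ w'.1
      · simp [h', Vβ, hp]
      · simp [h', V, hp]
    · rw [← hid p.1 p.2.1 p.2.2]
      congr 1
      funext w'
      by_cases h' : i ∈ w'.1
      · simp [h', Vβ, hp]
      · simp [h', V]
  obtain ⟨t', ht', h'⟩ := hfin
  refine ⟨t', ht', fun j a b => ?_⟩
  exact (congrFun h' (j, a, b)).symm

private theorem edge_phase1 {k : ℕ} : ∀ (n : ℕ) (S : Finset (Finset (Fin (k + 2)))),
    (S.filter fun w => 2 ≤ w.card ∧ ¬ ∃ l, l ≠ 0 ∧ w = {0, l}).card = n →
    (∀ w ∈ S, ∀ w', w' ⊆ w → w'.Nonempty → w' ∈ S) →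
    (∀ l : Fin (k + 2), l ≠ 0 → {0, l} ∈ S) → IsCubical Γ S →
    IsCubical Γ (S.filter fun w => ¬ (2 ≤ w.card ∧ ¬ ∃ l, l ≠ 0 ∧ w = {0, l})) := by
  intro n
  induction n with
  | zero =>
    intro S hn _ _ hS
    have : S.filter (fun w => ¬ (2 ≤ w.card ∧ ¬ ∃ l, l ≠ 0 ∧ w = {0, l})) = S := by
      rw [Finset.filter_eq_self]
      intro w hw hb
      have := Finset.card_eq_zero.1 hn
      exact absurd (Finset.mem_filter.2 ⟨hw, hb⟩) (this ▸ Finset.notMem_empty w)
    rw [this]
    exact hS
  | succ n ih =>
    intro S hn hdown h0 hS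
    have hne : (S.filter fun w => 2 ≤ w.card ∧ ¬ ∃ l, l ≠ 0 ∧ w = {0, l}).Nonempty := by
      rw [← Finset.card_pos]
      omega
    obtain ⟨u, hu, hmax⟩ := Finset.exists_max_image _ Finset.card hne
    obtain ⟨huS, hu2, hub⟩ := Finset.mem_filter.1 hu
    obtain ⟨i, hiu, hi0⟩ : ∃ i ∈ u, i ≠ 0 := by
      by_contra hcon
      push Not at hcon
      have : u ⊆ {0} := fun i hi => Finset.mem_singleton.2 (hcon i hi)
      have := Finset.card_le_card this
      simp at this
      omega
    have hui : u ≠ {i} := by
      rintro rfl
      simp at hu2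
    have herase := hS.erase u i huS hiu hui (fun w hw hiw hwi => hdown w hw _ (Finset.erase_subset _ _)
      (by
        rw [Finset.nonempty_iff_ne_empty]
        intro h
        rw [Finset.erase_eq_empty_iff] at h
        rcases h with h | h
        · rw [h] at hiw; simp at hiw
        · exact hwi h)) {0, i} (h0 i hi0)
      (fun h => hub ⟨i, hi0, h.symm⟩) (by simp) (by
        intro h
        have : (0 : Fin (k + 2)) ∈ ({i} : Finset (Fin (k + 2))) := by rw [← h]; simp
        exact hi0 (Finset.mem_singleton.1 this).symm)
    have hcard : ((S.erase u).filter fun w => 2 ≤ w.card ∧ ¬ ∃ l, l ≠ 0 ∧ w = {0, l}).card = n := by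
      rw [Finset.filter_erase, Finset.card_erase_of_mem hu, hn]
      rfl
    have := ih (S.erase u) hcard ?_ ?_ herase
    · rw [Finset.filter_erase, Finset.erase_eq_of_notMem] at this
      · exact this
      · intro h
        exact (Finset.mem_filter.1 h).2 ⟨hu2, hub⟩
    · intro w hw w' hw' hne'
      obtain ⟨hwu, hwS⟩ := Finset.mem_erase.1 hw
      refine Finset.mem_erase.2 ⟨?_, hdown w hwS w' hw' hne'⟩
      rintro rfl
      have hlt : w'.card < w.card :=
        Finset.card_lt_card (Finset.ssubset_iff_subset_ne.2 ⟨hw', hwu.symm⟩)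
      have hwb : w ∈ S.filter fun w => 2 ≤ w.card ∧ ¬ ∃ l, l ≠ 0 ∧ w = {0, l} := by
        refine Finset.mem_filter.2 ⟨hwS, by omega, ?_⟩
        rintro ⟨l, _, rfl⟩
        have : ({0, l} : Finset (Fin (k + 2))).card ≤ 2 := Finset.card_le_two
        omega
      have := hmax w hwb
      omega
    · intro l hl
      exact Finset.mem_erase.2 ⟨fun h => hub ⟨l, hl, h.symm⟩, h0 l hl⟩

private theorem edge_phase2 {k : ℕ} : ∀ (n : ℕ) (S : Finset (Finset (Fin (k + 2)))),
    (S.filter fun w => ∃ l, l ≠ 0 ∧ l ≠ 1 ∧ w = {0, l}).card = n →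
    (∀ w ∈ S, w.card = 1 ∨ ∃ l, l ≠ 0 ∧ w = {0, l}) → (∀ w : Finset (Fin (k + 2)), w.card = 1 → w ∈ S) →
    {0, 1} ∈ S → IsCubical Γ S →
    IsCubical Γ (S.filter fun w => ¬ ∃ l, l ≠ 0 ∧ l ≠ 1 ∧ w = {0, l}) := by
  intro n
  induction n with
  | zero =>
    intro S hn _ _ _ hS
    have : S.filter (fun w => ¬ ∃ l, l ≠ 0 ∧ l ≠ 1 ∧ w = {0, l}) = S := by
      rw [Finset.filter_eq_self]
      intro w hw hb
      have := Finset.card_eq_zero.1 hn
      exact absurd (Finset.mem_filter.2 ⟨hw, hb⟩) (this ▸ Finset.notMem_empty w)
    rw [this]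
    exact hS
  | succ n ih =>
    intro S hn hform h1 h01 hS
    have hne : (S.filter fun w => ∃ l, l ≠ 0 ∧ l ≠ 1 ∧ w = {0, l}).Nonempty := by
      rw [← Finset.card_pos]
      omega
    obtain ⟨u, hu⟩ := hne
    obtain ⟨huS, l, hl0, hl1, hul⟩ := Finset.mem_filter.1 hu
    have hucard : u.card = 2 := by
      rw [hul]
      exact Finset.card_pair hl0.symm
    have h10 : (1 : Fin (k + 2)) ≠ 0 := by simp
    have hnot : ∀ l : Fin (k + 2), l ≠ 0 → ({0, l} : Finset (Fin (k + 2))) ≠ {0} := by
      intro l hl h
      have : l ∈ ({0} : Finset (Fin (k + 2))) := by rw [← h]; simp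
      exact hl (Finset.mem_singleton.1 this)
    have herase := hS.erase u 0 huS (by rw [hul]; simp) (by rw [hul]; exact hnot l hl0)
      (fun w hw h0w hw0 => by
        rcases hform w hw with h | ⟨m, hm, rfl⟩
        · obtain ⟨a, rfl⟩ := Finset.card_eq_one.1 h
          exact absurd (by rw [Finset.mem_singleton.1 h0w]) hw0
        · refine h1 _ ?_
          rw [Finset.card_erase_of_mem h0w, Finset.card_pair hm.symm]) {0, 1} h01
      (by
        rw [hul]
        intro h
        have : l ∈ ({0, 1} : Finset (Fin (k + 2))) := by rw [h]; simp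
        simp [hl0, hl1] at this) (by simp) (hnot 1 h10)
    have hcard : ((S.erase u).filter fun w => ∃ l, l ≠ 0 ∧ l ≠ 1 ∧ w = {0, l}).card = n := by
      rw [Finset.filter_erase, Finset.card_erase_of_mem hu, hn]
      rfl
    have := ih (S.erase u) hcard ?_ ?_ ?_ herase
    · rw [Finset.filter_erase, Finset.erase_eq_of_notMem] at this
      · exact this
      · intro h
        exact (Finset.mem_filter.1 h).2 ⟨l, hl0, hl1, hul⟩
    · intro w hw
      exact hform w (Finset.mem_erase.1 hw).2
    · intro w hw
      refine Finset.mem_erase.2 ⟨?_, h1 w hw⟩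
      rintro rfl
      omega
    · refine Finset.mem_erase.2 ⟨?_, h01⟩
      rw [hul]
      intro h
      have : l ∈ ({0, 1} : Finset (Fin (k + 2))) := by rw [h]; simp
      simp [hl0, hl1] at this

private theorem edge_final {k : ℕ} (F : Finset (Finset (Fin (k + 2))))
    (hmem : ∀ w ∈ F, (∃ a, w = {a}) ∨ w = {0, 1}) (hF : IsCubical Γ F) :
    ∃ e, IsEdge Γ (k + 2) e := by
  classical
  have h10 : (1 : Fin (k + 2)) ≠ 0 := by simp
  obtain ⟨t, ht, hid⟩ := hF
  let φ : F → Option (Fin (k + 2)) := fun w =>
    if h : ∃ a, w.1 = {a} then some h.choose else none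
  have hφ1 : ∀ w : F, ∀ a, w.1 = {a} → φ w = some a := by
    intro w a ha
    have h : ∃ a, w.1 = {a} := ⟨a, ha⟩
    simp only [φ, dif_pos h]
    exact congrArg some (Finset.singleton_injective (h.choose_spec.symm.trans ha))
  have hφ2 : ∀ w : F, w.1 = {0, 1} → φ w = none := by
    intro w hw
    have h : ¬ ∃ a, w.1 = {a} := by
      rintro ⟨a, ha⟩
      have h3 := congrArg Finset.card (hw.symm.trans ha)
      rw [Finset.card_pair h10.symm] at h3
      simp at h3
    simp only [φ, dif_neg h]
  refine ⟨fun v => t fun w => v (φ w), ht.reindex φ, ?_, ?_⟩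
  · intro i hi a b
    refine Eq.trans ?_ (hid i a b)
    refine congrArg t (funext fun w => ?_)
    rcases hmem w.1 w.2 with ⟨c, hc⟩ | hc
    · rw [hφ1 w c hc, hc]
      simp only [Option.elim, Finset.mem_singleton]
      by_cases h : c = i
      · rw [if_pos h, if_pos h.symm]
      · rw [if_neg h, if_neg fun h' => h h'.symm]
    · rw [hφ2 w hc, hc]
      have : i ∈ ({0, 1} : Finset (Fin (k + 2))) := by
        have : i = 0 ∨ i = 1 := by
          rcases Nat.lt_or_ge 0 i.1 with h | h
          · right
            apply Fin.ext
            have h1 : (1 : Fin (k + 2)).1 = 1 := by simp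
            omega
          · left
            apply Fin.ext
            have h1 : (0 : Fin (k + 2)).1 = 0 := by simp
            omega
        simpa using this
      simp only [Option.elim, if_pos this]
  · intro i hi a b
    refine Eq.trans ?_ (hid i a b)
    refine congrArg t (funext fun w => ?_)
    rcases hmem w.1 w.2 with ⟨c, hc⟩ | hc
    · rw [hφ1 w c hc, hc]
      simp only [Option.elim, Finset.mem_singleton]
      by_cases h : c = i
      · rw [if_pos h, if_pos h.symm]
      · rw [if_neg h, if_neg fun h' => h h'.symm]
    · rw [hφ2 w hc, hc]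
      have : i ∉ ({0, 1} : Finset (Fin (k + 2))) := by
        intro h
        simp only [Finset.mem_insert, Finset.mem_singleton] at h
        rcases h with h | h <;> rw [h] at hi <;> simp at hi
      simp only [Option.elim, if_neg this]

theorem edgeStmt (Γ : Set (FinRel A)) : EdgeStmt Γ := by
  classical
  intro k hk hcube
  obtain ⟨k, rfl⟩ := Nat.exists_eq_add_of_le' hk
  have h1 := edge_phase1 _ _ rfl
    (fun w hw w' hw' hne => Finset.mem_filter.2 ⟨Finset.mem_univ _, hne⟩)
    (fun l hl => Finset.mem_filter.2 ⟨Finset.mem_univ _, by simp⟩) hcube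
  have h10 : (1 : Fin (k + 2)) ≠ 0 := by simp
  have h2 := edge_phase2 _ _ rfl ?_ ?_ ?_ h1
  · refine edge_final _ ?_ h2
    intro w hw
    simp only [Finset.mem_filter, Finset.mem_univ, true_and] at hw
    obtain ⟨⟨hne, hw1⟩, hw2⟩ := hw
    by_cases hc : 2 ≤ w.card
    · right
      by_cases hl : ∃ l, l ≠ 0 ∧ w = {0, l}
      · obtain ⟨l, hl0, rfl⟩ := hl
        by_cases hl1 : l = 1
        · rw [hl1]
        · exact absurd ⟨l, hl0, hl1, rfl⟩ hw2
      · exact absurd ⟨hc, hl⟩ hw1
    · left
      have := Finset.card_pos.2 hne
      exact Finset.card_eq_one.1 (by omega)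
  · intro w hw
    simp only [Finset.mem_filter, Finset.mem_univ, true_and] at hw
    obtain ⟨hne, hw1⟩ := hw
    by_cases hc : 2 ≤ w.card
    · right
      by_contra hl
      exact hw1 ⟨hc, hl⟩
    · left
      have := Finset.card_pos.2 hne
      omega
  · intro w hw
    simp only [Finset.mem_filter, Finset.mem_univ, true_and]
    exact ⟨Finset.card_pos.1 (by omega), fun h => by omega⟩
  · simp only [Finset.mem_filter, Finset.mem_univ, true_and]
    exact ⟨by simp, fun h => h.2 ⟨1, h10, rfl⟩⟩

end Pool.Agent.Lib.MP2ea600
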