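import Pool.Agent.Lib.MP_2ea600_lc.GHDefs

/-!
# Short definitions from the extension theorem (MP_2ea600_lc), module FINAL
-/

namespace Pool.Agent.Lib.MP2ea600

open Function

variable {A : Type} {Γ : Set (FinRel A)}

namespace Fnl

/-! ### Polynomially bounded functions -/

/-- bounded by a polynomial -/
def PB (f : ℕ → ℕ) : Prop := ∃ p : Polynomial ℕ, ∀ n, f n ≤ p.eval n

theorem PB.const (c : ℕ) : PB fun _ => c := ⟨Polynomial.C c, fun n => by simp⟩

theorem PB.id : PB fun n => n := ⟨Polynomial.X, fun n => by simp⟩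

theorem PB.eval (p : Polynomial ℕ) : PB fun n => p.eval n := ⟨p, fun _ => le_rfl⟩

theorem PB.add {f g : ℕ → ℕ} (hf : PB f) (hg : PB g) : PB fun n => f n + g n := by
  obtain ⟨p, hp⟩ := hf
  obtain ⟨q, hq⟩ := hg
  exact ⟨p + q, fun n => by
    rw [Polynomial.eval_add]
    exact Nat.add_le_add (hp n) (hq n)⟩

theorem PB.mul {f g : ℕ → ℕ} (hf : PB f) (hg : PB g) : PB fun n => f n * g n := by
  obtain ⟨p, hp⟩ := hf
  obtain ⟨q, hq⟩ := hg
  exact ⟨p * q, fun n => by
    rw [Polynomial.eval_mul]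
    exact Nat.mul_le_mul (hp n) (hq n)⟩

theorem PB.pow {f : ℕ → ℕ} (hf : PB f) (k : ℕ) : PB fun n => f n ^ k := by
  obtain ⟨p, hp⟩ := hf
  exact ⟨p ^ k, fun n => by
    rw [Polynomial.eval_pow]
    exact Nat.pow_le_pow_left (hp n) k⟩

/-- bound for the number of charts -/
def chb (a K k M R : ℕ) : ℕ := M * (R + 1) ^ (a * k) + M ^ K * k ^ (a ^ K)

/-- bound for the size of the levels -/
def bdl (a K k M R : ℕ) : ℕ → ℕ
  | 0 => M
  | j + 1 => bdl a K k M R j + chb a K k (bdl a K k M R j) R * a ^ k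

theorem PB.chb {a K k : ℕ} {M R : ℕ → ℕ} (hM : PB M) (hR : PB R) :
    PB fun n => Fnl.chb a K k (M n) (R n) :=
  (hM.mul ((hR.add (PB.const 1)).pow _)).add ((hM.pow K).mul (PB.const _))

theorem PB.bdl {a K k : ℕ} {M R : ℕ → ℕ} (hM : PB M) (hR : PB R) (j : ℕ) :
    PB fun n => Fnl.bdl a K k (M n) (R n) j := by
  induction j with
  | zero => exact hM
  | succ j ih => exact ih.add ((PB.chb ih hR).mul (PB.const _))

theorem chb_mono {a K k M M' R R' : ℕ} (hM : M ≤ M') (hR : R ≤ R') :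
    chb a K k M R ≤ chb a K k M' R' := by
  unfold chb
  gcongr

/-! ### Counting charts -/

/-- thresholds of a chart -/
theorem exists_thr {r k : ℕ} (x : Fin r → A) (τ : Fin r → Fin k) (h : LS.IsChart x τ) :
    ∃ T : A × Fin k → Fin (r + 1), ∀ (i : Fin r) (s : Fin k),
      (T (x i, s)).1 ≤ i.1 ↔ s ≤ τ i := by
  classical
  have key : ∀ (a : A) (s : Fin k), ∃ t : Fin (r + 1), ∀ i : Fin r, x i = a →
      (t.1 ≤ i.1 ↔ s ≤ τ i) := by
    intro a s
    by_cases hex : ∃ m, ∃ hm : m < r, x ⟨m, hm⟩ = a ∧ s ≤ τ ⟨m, hm⟩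
    · obtain ⟨hm, h1, h2⟩ := Nat.find_spec hex
      refine ⟨⟨Nat.find hex, by omega⟩, fun i hi => ⟨fun hle => ?_, fun hs => ?_⟩⟩
      · refine h2.trans (h ⟨Nat.find hex, hm⟩ i hle ?_)
        rw [h1, hi]
      · exact Nat.find_min' hex ⟨i.2, hi, hs⟩
    · refine ⟨⟨r, by omega⟩, fun i hi => ⟨fun hle => ?_, fun hs => ?_⟩⟩
      · have h1 : r ≤ i.1 := hle
        have h2 := i.2
        omega
      · exact absurd ⟨i.1, i.2, hi, hs⟩ hex
  choose T hT using key
  exact ⟨fun p => T p.1 p.2, fun i s => hT _ _ i rfl⟩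

/-- the map with given thresholds -/
noncomputable def dec {r k : ℕ} (x : Fin r → A) (T : A × Fin (k + 1) → Fin (r + 1)) : Fin r → Fin (k + 1) :=
  fun i => Finset.univ.sup fun s : Fin (k + 1) => if (T (x i, s)).1 ≤ i.1 then s else 0

theorem dec_eq {r k : ℕ} (x : Fin r → A) (τ : Fin r → Fin (k + 1)) (h : LS.IsChart x τ) :
    ∃ T, dec x T = τ := by
  obtain ⟨T, hT⟩ := exists_thr x τ h
  refine ⟨T, funext fun i => ?_⟩
  apply le_antisymm
  · refine Finset.sup_le fun s _ => ?_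
    by_cases hs : (T (x i, s)).1 ≤ i.1
    · rw [if_pos hs]
      exact (hT i s).1 hs
    · rw [if_neg hs]
      exact Fin.zero_le _
  · have h1 := Finset.le_sup (f := fun s : Fin (k + 1) => if (T (x i, s)).1 ≤ i.1 then s else 0)
      (Finset.mem_univ (τ i))
    have h2 : (T (x i, τ i)).1 ≤ i.1 := (hT i _).2 le_rfl
    rw [if_pos h2] at h1
    exact h1

theorem ncard_range_le {α β : Type} [Finite α] (f : α → β) :
    (Set.range f).ncard ≤ Nat.card α := by
  rw [← Set.image_univ, ← Set.ncard_univ]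
  exact Set.ncard_image_le (Set.toFinite _)

theorem ncard_charts_le [Finite A] {K k r : ℕ} (hr : 0 < r) (P : Set (Fin r → A)) :
    (Charts K k P).ncard ≤ chb (Nat.card A) K k P.ncard r := by
  classical
  rcases Nat.eq_zero_or_pos k with rfl | hk
  · have : Charts K 0 P = ∅ := by
      ext τ
      exact (τ ⟨0, hr⟩).elim0
    rw [this, Set.ncard_empty]
    exact Nat.zero_le _
  · obtain ⟨k, rfl⟩ : ∃ k', k = k' + 1 := ⟨k - 1, by omega⟩
    let F1 : P × (A × Fin (k + 1) → Fin (r + 1)) → Fin r → Fin (k + 1) := fun p => dec p.1.1 p.2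
    let F2 : (Fin K → P) × ((Fin K → A) → Fin (k + 1)) → Fin r → Fin (k + 1) :=
      fun p i => p.2 fun s => (p.1 s).1 i
    have hsub : Charts K (k + 1) P ⊆ Set.range F1 ∪ Set.range F2 := by
      rintro τ (⟨x, hx, hτ⟩ | ⟨x, ψ, hx, hτ⟩)
      · obtain ⟨T, hT⟩ := dec_eq x τ hτ
        exact Or.inl ⟨(⟨x, hx⟩, T), hT⟩
      · refine Or.inr ⟨(fun s => ⟨x s, hx s⟩, ψ), ?_⟩
        rw [hτ]
    refine (Set.ncard_le_ncard hsub (Set.toFinite _)).trans ((Set.ncard_union_le _ _).trans ?_)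
    unfold chb
    refine Nat.add_le_add ((ncard_range_le F1).trans (le_of_eq ?_))
      ((ncard_range_le F2).trans (le_of_eq ?_))
    · rw [Nat.card_prod, Nat.card_coe_set_eq, Nat.card_fun, Nat.card_prod, Nat.card_fin,
        Nat.card_fin]
    · rw [Nat.card_prod, Nat.card_fun, Nat.card_coe_set_eq, Nat.card_fun, Nat.card_fun,
        Nat.card_fin, Nat.card_fin]

theorem ncard_next_le [Finite A] {K k r : ℕ} (hr : 0 < r) (P : Set (Fin r → A)) :
    (Next K k P).ncard ≤ P.ncard + chb (Nat.card A) K k P.ncard r * Nat.card A ^ k := by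
  classical
  unfold Next
  refine (Set.ncard_union_le _ _).trans (Nat.add_le_add_left ?_ _)
  let F : Charts K k P × (Fin k → A) → Fin r → A := fun p => p.2 ∘ p.1.1
  have hsub : {x : Fin r → A | ∃ τ ∈ Charts K k P, ∃ b : Fin k → A, x = b ∘ τ} ⊆ Set.range F := by
    rintro x ⟨τ, hτ, b, rfl⟩
    exact ⟨(⟨τ, hτ⟩, b), rfl⟩
  refine (Set.ncard_le_ncard hsub (Set.toFinite _)).trans ((ncard_range_le F).trans ?_)
  rw [Nat.card_prod, Nat.card_coe_set_eq, Nat.card_fun, Nat.card_fin]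
  exact Nat.mul_le_mul_right _ (ncard_charts_le hr P)

theorem ncard_lev_le [Finite A] {K k r M R : ℕ} (hr : 0 < r) (hR : r ≤ R) (P : Set (Fin r → A))
    (hP : P.ncard ≤ M) (j : ℕ) :
    (Lev K k P j).ncard ≤ bdl (Nat.card A) K k M R j := by
  induction j with
  | zero => exact hP
  | succ j ih =>
    refine (ncard_next_le hr _).trans ?_
    exact Nat.add_le_add ih (Nat.mul_le_mul_right _ (chb_mono ih hR))

theorem lev_mono {K k r : ℕ} (P : Set (Fin r → A)) {i j : ℕ} (h : i ≤ j) :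
    Lev K k P i ⊆ Lev K k P j := by
  induction j, h using Nat.le_induction with
  | base => exact subset_rfl
  | succ j _ ih => exact ih.trans Set.subset_union_left

theorem bdl_mono {a K k M R i j : ℕ} (h : i ≤ j) : bdl a K k M R i ≤ bdl a K k M R j := by
  induction j, h using Nat.le_induction with
  | base => exact le_rfl
  | succ j _ ih => exact ih.trans (Nat.le_add_right _ _)

/-! ### The definition -/

theorem inv_pol (X : Type) : Inv Γ {g : (X → A) → A | IsPol Γ g} := by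
  intro m f hf M hM
  exact hf.comp hM

theorem add_gen {n r : ℕ} {R : Set (Fin n → A)} (hR : Inv Γ R) {u : Fin r → Fin n → A}
    (hu : R = GenRel Γ u) {x0 : Fin n → A} (hx0 : x0 ∈ R) :
    R = GenRel Γ (Fin.cons x0 u : Fin (r + 1) → Fin n → A) := by
  apply Set.Subset.antisymm
  · rw [hu]
    rintro x ⟨w, hw, rfl⟩
    refine ⟨fun v => w fun j => v j.succ, hw.reindex Fin.succ, ?_⟩
    funext i
    simp only [Fin.cons_succ]
  · rintro x ⟨w, hw, rfl⟩
    refine hR.fin hw _ fun j => ?_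
    refine Fin.cases ?_ (fun j => ?_) j
    · rw [Fin.cons_zero]
      exact hx0
    · rw [Fin.cons_succ, hu]
      exact ⟨fun v => v j, isPol_proj j, rfl⟩

theorem mem_next {K k r : ℕ} {P : Set (Fin r → A)} {τ : Fin r → Fin k} (hτ : τ ∈ Charts K k P)
    (b : Fin k → A) : b ∘ τ ∈ Next K k P := Or.inr ⟨τ, hτ, b, rfl⟩

/-- the total length -/
def total (a K k L n R : ℕ) : ℕ :=
  a * chb a K k (bdl a K k n R a) R * L + n * 4 + 2 * bdl a K k n R a

theorem hasDef_gen [Finite A] {K k : ℕ}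
    (hGH : ∀ r : ℕ, 0 < r → ∀ (P : Set (Fin r → A)) (y : (Fin r → A) → A),
      (∀ j < Nat.card A, ∀ τ ∈ Charts K k (Lev K k P j), IsPol Γ fun b : Fin k → A => y (b ∘ τ)) →
      ∃ w : (Fin r → A) → A, IsPol Γ w ∧ ∀ x ∈ P, w x = y x)
    {L : ℕ} (hL : HasDef Γ {g : (Fin k → A) → A | IsPol Γ g} L)
    {n r R : ℕ} (hr : 0 < r) (hrR : r ≤ R) [Nonempty A] (u : Fin r → Fin n → A) :
    HasDef Γ (GenRel Γ u) (total (Nat.card A) K k L n R) := by
  classical
  set a := Nat.card A with ha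
  let p : Fin n → Fin r → A := fun i j => u j i
  let P : Set (Fin r → A) := Set.range p
  have hPc : P.ncard ≤ n := by
    have := ncard_range_le p
    rwa [Nat.card_fin] at this
  let Z : Type := Lev K k P a
  have : Fintype Z := Fintype.ofFinite _
  have hPZ : ∀ i, p i ∈ Lev K k P a := fun i => lev_mono P (Nat.zero_le a) ⟨i, rfl⟩
  let I : Type := Σ j : Fin a, Charts K k (Lev K k P j)
  have : Fintype I := Fintype.ofFinite _
  have hIZ : ∀ (c : I) (b : Fin k → A), b ∘ c.2.1 ∈ Lev K k P a := by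
    intro c b
    have h1 : b ∘ c.2.1 ∈ Lev K k P (c.1.1 + 1) := mem_next c.2.2 b
    exact lev_mono P c.1.2 h1
  -- the relation
  have hd1 : HasDef Γ {v : Fin n ⊕ Z → A | ∀ c : I, v ∈
      {v : Fin n ⊕ Z → A | (fun b : Fin k → A => v (Sum.inr ⟨b ∘ c.2.1, hIZ c b⟩)) ∈
        {g : (Fin k → A) → A | IsPol Γ g}}} (Fintype.card I * L) :=
    HasDef.iInter fun c => hL.preimage fun b : Fin k → A =>
      (Sum.inr ⟨b ∘ c.2.1, hIZ c b⟩ : Fin n ⊕ Z)
  have hd2 : HasDef Γ {v : Fin n ⊕ Z → A | ∀ i : Fin n, v ∈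
      {v : Fin n ⊕ Z → A | v (Sum.inl i) = v (Sum.inr ⟨p i, hPZ i⟩)}} (Fintype.card (Fin n) * 4) :=
    HasDef.iInter fun i => hasDef_eq _ _
  have hd3 := (hd1.inter hd2).exists
  have hEq : GenRel Γ u = {x : Fin n → A | ∃ z : Z → A, Sum.elim x z ∈
      {v : Fin n ⊕ Z → A | ∀ c : I, v ∈
      {v : Fin n ⊕ Z → A | (fun b : Fin k → A => v (Sum.inr ⟨b ∘ c.2.1, hIZ c b⟩)) ∈
        {g : (Fin k → A) → A | IsPol Γ g}}} ∩
      {v : Fin n ⊕ Z → A | ∀ i : Fin n, v ∈
      {v : Fin n ⊕ Z → A | v (Sum.inl i) = v (Sum.inr ⟨p i, hPZ i⟩)}}} := by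
    ext x
    constructor
    · rintro ⟨w, hw, rfl⟩
      refine ⟨fun z => w z.1, ?_, ?_⟩
      · intro c
        exact hw.reindex c.2.1
      · intro i
        rfl
    · rintro ⟨z, hz1, hz2⟩
      let y : (Fin r → A) → A := fun x =>
        if h : x ∈ Lev K k P a then z ⟨x, h⟩ else Classical.arbitrary A
      have hy : ∀ (j : ℕ), j < a → ∀ τ ∈ Charts K k (Lev K k P j),
          IsPol Γ fun b : Fin k → A => y (b ∘ τ) := by
        intro j hj τ hτ
        have h1 := hz1 ⟨⟨j, hj⟩, ⟨τ, hτ⟩⟩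
        have h2 : (fun b : Fin k → A => y (b ∘ τ)) = fun b : Fin k → A =>
            z ⟨b ∘ τ, hIZ ⟨⟨j, hj⟩, ⟨τ, hτ⟩⟩ b⟩ := by
          funext b
          exact dif_pos (hIZ ⟨⟨j, hj⟩, ⟨τ, hτ⟩⟩ b)
        rw [h2]
        exact h1
      obtain ⟨w, hw, hwP⟩ := hGH r hr P y hy
      refine ⟨w, hw, funext fun i => ?_⟩
      have h3 : x i = z ⟨p i, hPZ i⟩ := hz2 i
      have h4 : w (p i) = y (p i) := hwP _ ⟨i, rfl⟩
      have h5 : y (p i) = z ⟨p i, hPZ i⟩ := dif_pos (hPZ i)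
      show x i = w (p i)
      rw [h3, h4, h5]
  rw [hEq]
  refine hd3.mono ?_
  unfold total
  have hZ : Fintype.card Z ≤ bdl a K k n R a := by
    rw [← Nat.card_eq_fintype_card]
    show Nat.card (Lev K k P a) ≤ _
    rw [Nat.card_coe_set_eq]
    exact ncard_lev_le hr hrR P hPc a
  have hI : Fintype.card I ≤ a * chb a K k (bdl a K k n R a) R := by
    have h1 : ∀ j : Fin a, Nat.card (Charts K k (Lev K k P j)) ≤ chb a K k (bdl a K k n R a) R := by
      intro j
      rw [Nat.card_coe_set_eq]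
      refine (ncard_charts_le hr _).trans (chb_mono ?_ hrR)
      exact (ncard_lev_le hr hrR P hPc j).trans (bdl_mono j.2.le)
    rw [← Nat.card_eq_fintype_card, Nat.card_sigma]
    calc ∑ j : Fin a, Nat.card (Charts K k (Lev K k P j))
        ≤ ∑ _j : Fin a, chb a K k (bdl a K k n R a) R := Finset.sum_le_sum fun j _ => h1 j
      _ = a * chb a K k (bdl a K k n R a) R := by simp
  rw [Fintype.card_fin]
  have := Nat.mul_le_mul_right L hI
  omega

end Fnl

open Fnl in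
/-- Module FINAL. -/
theorem finalStmt [Finite A] (hΓ : Γ.Finite) : FinalStmt Γ := by
  classical
  rintro ⟨K, k, hGH⟩ ⟨p, hp⟩
  obtain ⟨L0, hL0⟩ := exists_bound hΓ (Nat.card ((Fin k → A)))
  have hpol : HasDef Γ {g : (Fin k → A) → A | IsPol Γ g} L0 := hL0 _ _ le_rfl (inv_pol _)
  have hPB : PB fun n => L0 + total (Nat.card A) K k L0 n (p.eval n + 1) := by
    have hM : PB fun n => n := PB.id
    have hR : PB fun n => p.eval n + 1 := (PB.eval p).add (PB.const 1)
    have hb : PB fun n => bdl (Nat.card A) K k n (p.eval n + 1) (Nat.card A) := PB.bdl hM hR _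
    exact (PB.const L0).add ((((PB.const _).mul (PB.chb hb hR)).mul (PB.const _)).add
      (hM.mul (PB.const 4)) |>.add ((PB.const 2).mul hb))
  obtain ⟨P, hP⟩ := hPB
  refine ⟨P, fun n hn R hR => ?_⟩
  obtain ⟨φ, hφ⟩ := hR
  have h1 : HasDef Γ R φ.length := ⟨φ.k, φ.atoms, hφ, le_rfl⟩
  have hinv := h1.inv
  have key : HasDef Γ R (L0 + total (Nat.card A) K k L0 n (p.eval n + 1)) := by
    rcases Set.eq_empty_or_nonempty R with rfl | ⟨x0, hx0⟩
    · have h1 : Inv Γ (∅ : Set (Fin 0 → A)) := by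
        intro k f hf M hM
        rcases Nat.eq_zero_or_pos k with rfl | hk
        · exact absurd (hinv 0 f hf (fun j => j.elim0) fun j => j.elim0) (Set.notMem_empty _)
        · exact absurd (hM ⟨0, hk⟩) (Set.notMem_empty _)
      have h2 := (hL0 (Fin 0) _ (by simp) h1).preimage (Fin.elim0 : Fin 0 → Fin n)
      have h3 : {x : Fin n → A | (fun i => x ((Fin.elim0 : Fin 0 → Fin n) i)) ∈
          (∅ : Set (Fin 0 → A))} = ∅ := by
        ext x
        simp
      rw [h3] at h2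
      exact h2.mono (Nat.le_add_right _ _)
    · have hne : Nonempty A := ⟨x0 ⟨0, hn⟩⟩
      obtain ⟨r, hr, u, hu⟩ := hp n hn R hinv
      have hu' := add_gen hinv hu hx0
      rw [hu']
      exact (hasDef_gen hGH hpol (Nat.succ_pos r) (Nat.succ_le_succ hr) _).mono
        (Nat.le_add_left _ _)
  obtain ⟨k', atoms, h2, h3⟩ := key
  exact ⟨⟨k', atoms⟩, h2, h3.trans (hP n)⟩

end Pool.Agent.Lib.MP2ea600
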