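import Pool.Agent.Lib.MP_2ea600_lc.UADefs

/-!
# Module GROUP: the groups on the blocks of an abelian congruence (MP_2ea600_lc)
-/

namespace Pool.Agent.Lib.MP2ea600

open Function

namespace Grp

variable {A : Type} {Γ : Set (FinRel A)}

theorem pol3 {t : A → A → A → A} (ht : IsPol Γ fun v : Fin 3 → A => t (v 0) (v 1) (v 2))
    {κ : Type} {f g h : (κ → A) → A} (hf : IsPol Γ f) (hg : IsPol Γ g) (hh : IsPol Γ h) :
    IsPol Γ fun v => t (f v) (g v) (h v) := by
  have := ht.comp (g := ![f, g, h]) (by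
    intro i
    fin_cases i
    · exact hf
    · exact hg
    · exact hh)
  exact this

section
variable {m : ℕ} {G : ℕ → A → A → A → A} {q : A → A → A → A} (hG : IsGumm Γ m G q)
  {S : Set A} {θ μ : A → A → Prop} (hA : IsAb Γ S θ μ)
include hG hA

theorem rfl_of_left {x y : A} (h : μ x y) : θ x x := hA.congθ.refl x (hA.congμ.mem x y h).1

theorem rfl_of_right {x y : A} (h : μ x y) : θ y y := hA.congθ.refl y (hA.congμ.mem x y h).2

theorem mu_left {x y : A} (h : μ x y) : μ x x := hA.congμ.refl x (hA.congμ.mem x y h).1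

theorem mu_right {x y : A} (h : μ x y) : μ y y := hA.congμ.refl y (hA.congμ.mem x y h).2

theorem gstep (i : ℕ) {x y : A} (h : μ x y) : θ (G i x x y) (G i x y y) := by
  have hpol : IsPol Γ (fun v : Fin 2 ⊕ Fin 1 → A => G i (v (.inl 0)) (v (.inr 0)) (v (.inl 1))) :=
    pol3 (hG.polG i) (isPol_proj _) (isPol_proj _) (isPol_proj _)
  have := hA.centr 2 1 _ hpol ![x, x] ![x, y] ![x] ![y] (by
      intro i
      fin_cases i
      · exact mu_left hG hA h
      · exact h) (by
      intro j
      fin_cases j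
      exact h) (by
      simp only [Sum.elim_inl, Sum.elim_inr, Matrix.cons_val_zero, Matrix.cons_val_one]
      rw [hG.mid, hG.mid]
      exact rfl_of_left hG hA h)
  simpa using this

theorem gchain {x y : A} (h : μ x y) (i : ℕ) (hi : i ≤ m) : θ x (G i x y y) := by
  induction i with
  | zero =>
    have h1 := gstep hG hA 0 h
    rw [hG.first] at h1
    exact h1
  | succ i ih =>
    have h1 := ih (by omega)
    rw [hG.step i (by omega)] at h1
    exact hA.congθ.trans _ _ _ h1 (gstep hG hA (i + 1) h)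

/-- `q(x,y,y) θ x` on `μ`-blocks -/
theorem qright {x y : A} (h : μ x y) : θ (q x y y) x := by
  have h1 := gchain hG hA h m le_rfl
  rw [hG.last] at h1
  exact hA.congθ.symm _ _ h1

theorem qcong {θ' : A → A → Prop} (hθ : IsCong Γ S θ') {x y z x' y' z' : A} (h1 : θ' x x')
    (h2 : θ' y y') (h3 : θ' z z') : θ' (q x y z) (q x' y' z') := by
  have := hθ.comp 3 _ hG.polq ![x, y, z] ![x', y', z'] (by
    intro i
    fin_cases i
    · exact h1
    · exact h2
    · exact h3)
  simpa using this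

/-- cancellation on the left -/
theorem cancel {T U e : A} (hT : μ T e) (hU : μ U e) (h : θ (q T U e) e) : θ T U := by
  have hpol : IsPol Γ (fun v : Fin 2 ⊕ Fin 1 → A => q (v (.inr 0)) (v (.inl 0)) (v (.inl 1))) :=
    pol3 hG.polq (isPol_proj _) (isPol_proj _) (isPol_proj _)
  have hTU : μ T U := hA.congμ.trans _ _ _ hT (hA.congμ.symm _ _ hU)
  have h1 := hA.centr 2 1 _ hpol ![U, e] ![U, U] ![T] ![U] (by
      intro i
      fin_cases i
      · exact mu_left hG hA hU
      · exact hA.congμ.symm _ _ hU) (by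
      intro j
      fin_cases j
      exact hTU) (by
      simp only [Sum.elim_inl, Sum.elim_inr, Matrix.cons_val_zero, Matrix.cons_val_one]
      rw [hG.qleft]
      exact h)
  have h2 : θ (q T U U) (q U U U) := by simpa using h1
  rw [hG.qleft] at h2
  exact hA.congθ.trans _ _ _ (hA.congθ.symm _ _ (qright hG hA hTU)) h2

/-- every polymorphism commutes with `q` on `μ`-blocks modulo `θ` -/
theorem qcomm {ι : Type} [Finite ι] {f : (ι → A) → A} (hf : IsPol Γ f) (x y z : ι → A)
    (hxy : ∀ i, μ (x i) (y i)) (hyz : ∀ i, μ (y i) (z i)) :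
    θ (q (f x) (f y) (f z)) (f fun i => q (x i) (y i) (z i)) := by
  have hμ := hA.congμ
  have hθ := hA.congθ
  have hfxy : μ (f x) (f y) := hμ.fin hf x y hxy
  have hfyz : μ (f y) (f z) := hμ.fin hf y z hyz
  have hyy : ∀ i, μ (y i) (y i) := fun i => mu_right hG hA (hxy i)
  have hfyy : μ (f y) (f y) := mu_right hG hA hfxy
  -- the term `W`; arguments: z (inl inl), y (inl inr), x (inr)
  have hpol : IsPol Γ (fun v : (ι ⊕ ι) ⊕ ι → A =>
      q (q (f fun i => v (.inr i)) (f fun i => v (.inl (.inr i))) (f fun i => v (.inl (.inl i))))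
        (f fun i => q (v (.inr i)) (v (.inl (.inr i))) (v (.inl (.inl i))))
        (f fun i => v (.inl (.inr i)))) := by
    refine pol3 hG.polq (pol3 hG.polq (hf.comp fun i => isPol_proj _)
      (hf.comp fun i => isPol_proj _) (hf.comp fun i => isPol_proj _))
      (hf.comp fun i => pol3 hG.polq (isPol_proj _) (isPol_proj _) (isPol_proj _))
      (hf.comp fun i => isPol_proj _)
  have key := hA.centr.fin hpol (Sum.elim y y) (Sum.elim z y) y x (by
      rintro (i | i)
      · exact hyz i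
      · exact hyy i) (fun i => hμ.symm _ _ (hxy i)) (by
      simp only [Sum.elim_inl, Sum.elim_inr]
      have e1 : (fun i => q (y i) (y i) (y i)) = y := funext fun i => hG.qleft _ _
      rw [e1, hG.qleft, hG.qleft]
      -- goal: θ (f y) (q (q (f x) (f y) (f y)) (f fun i => q (x i) (y i) (y i)) (f y))
      have h1 : θ (q (f x) (f y) (f y)) (f x) := qright hG hA hfxy
      have h2 : θ (f fun i => q (x i) (y i) (y i)) (f x) :=
        hθ.fin hf _ _ fun i => qright hG hA (hxy i)
      have h3 := qcong hG hA hθ h1 h2 (rfl_of_right hG hA hfxy)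
      rw [hG.qleft] at h3
      exact hθ.symm _ _ h3)
  simp only [Sum.elim_inl, Sum.elim_inr] at key
  have e2 : (fun i => q (y i) (y i) (z i)) = z := funext fun i => hG.qleft _ _
  rw [e2, hG.qleft, hG.qleft] at key
  -- key : θ (f y) (q (q (f x) (f y) (f z)) (f fun i => q (x i) (y i) (z i)) (f y))
  refine cancel hG hA (e := f y) ?_ ?_ (hθ.symm _ _ key)
  · have := qcong hG hA hμ hfxy hfyy (hμ.symm _ _ hfyz)
    rwa [hG.qleft] at this
  · refine hμ.fin hf _ _ fun i => ?_
    have := qcong hG hA hμ (hxy i) (hyy i) (hμ.symm _ _ (hyz i))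
    rwa [hG.qleft] at this

/-- `q` commutes with itself -/
theorem qq {x1 x2 x3 y1 y2 y3 z1 z2 z3 : A} (h1 : μ x1 y1) (h2 : μ x2 y2) (h3 : μ x3 y3)
    (k1 : μ y1 z1) (k2 : μ y2 z2) (k3 : μ y3 z3) :
    θ (q (q x1 x2 x3) (q y1 y2 y3) (q z1 z2 z3))
      (q (q x1 y1 z1) (q x2 y2 z2) (q x3 y3 z3)) := by
  have := qcomm hG hA hG.polq ![x1, x2, x3] ![y1, y2, y3] ![z1, z2, z3] (by
    intro i
    fin_cases i
    · exact h1
    · exact h2
    · exact h3) (by
    intro i
    fin_cases i
    · exact k1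
    · exact k2
    · exact k3)
  simpa using this

theorem block {a x y : A} (hx : μ x a) (hy : μ y a) : μ (q x a y) a := by
  have := qcong hG hA hA.congμ hx (mu_right hG hA hx) hy
  rwa [hG.qleft] at this

theorem assoc {a x y z : A} (hx : μ x a) (hy : μ y a) (hz : μ z a) :
    θ (q (q x a y) a z) (q x a (q y a z)) := by
  have haa := mu_right hG hA hx
  have h1 := qq hG hA (x1 := x) (x2 := a) (x3 := y) (y1 := a) (y2 := a) (y3 := a) (z1 := a)
    (z2 := a) (z3 := z) hx haa hy haa haa (hA.congμ.symm _ _ hz)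
  simp only [hG.qleft] at h1
  refine hA.congθ.trans _ _ _ h1 ?_
  exact qcong hG hA hA.congθ (qright hG hA hx) (rfl_of_right hG hA hx)
    (rfl_of_left hG hA (block hG hA hy hz))

theorem comm {a x y : A} (hx : μ x a) (hy : μ y a) : θ (q x a y) (q y a x) := by
  have haa := mu_right hG hA hx
  have h1 := qq hG hA (x1 := a) (x2 := a) (x3 := y) (y1 := a) (y2 := a) (y3 := a) (z1 := x)
    (z2 := a) (z3 := a) haa haa hy (hA.congμ.symm _ _ hx) haa haa
  simp only [hG.qleft] at h1
  -- θ (q y a (q x a a)) (q x a (q y a a))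
  have h2 := qcong hG hA hA.congθ (rfl_of_left hG hA hy) (rfl_of_right hG hA hx)
    (qright hG hA hx)
  have h3 := qcong hG hA hA.congθ (rfl_of_left hG hA hx) (rfl_of_right hG hA hx)
    (qright hG hA hy)
  exact hA.congθ.symm _ _ (hA.congθ.trans _ _ _ (hA.congθ.symm _ _ h2)
    (hA.congθ.trans _ _ _ h1 h3))

theorem negblock {a x : A} (hx : μ x a) : μ (q a x a) a := by
  have haa := mu_right hG hA hx
  have := qcong hG hA hA.congμ haa hx haa
  rwa [hG.qleft] at this

theorem addneg {a x : A} (hx : μ x a) : θ (q x a (q a x a)) a := by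
  have haa := mu_right hG hA hx
  have h1 := qq hG hA (x1 := x) (x2 := a) (x3 := a) (y1 := a) (y2 := a) (y3 := a) (z1 := a)
    (z2 := x) (z3 := a) hx haa haa haa (hA.congμ.symm _ _ hx) haa
  simp only [hG.qleft] at h1
  -- θ (q (q x a a) a (q a x a)) (q (q x a a) x a)
  have h2 := qcong hG hA hA.congθ (qright hG hA hx) (rfl_of_right hG hA hx)
    (rfl_of_left hG hA (negblock hG hA hx))
  have h3 := qcong hG hA hA.congθ (qright hG hA hx) (rfl_of_left hG hA hx)
    (rfl_of_right hG hA hx)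
  rw [hG.qleft] at h3
  exact hA.congθ.trans _ _ _ (hA.congθ.symm _ _ h2) (hA.congθ.trans _ _ _ h1 h3)

/-! ### iterates -/

theorem iter_cong {θ' : A → A → Prop} (hθ : IsCong Γ S θ') {x y x' y' z z' : A} (h1 : θ' x x')
    (h2 : θ' y y') (h3 : θ' z z') (n : ℕ) : θ' ((q x y)^[n] z) ((q x' y')^[n] z') := by
  induction n with
  | zero => exact h3
  | succ n ih =>
    rw [iterate_succ_apply', iterate_succ_apply']
    exact qcong hG hA hθ h1 h2 ih

theorem iter_block {a x u : A} (hx : μ x a) (hu : μ u a) (n : ℕ) : μ ((q x a)^[n] u) a := by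
  induction n with
  | zero => exact hu
  | succ n ih =>
    rw [iterate_succ_apply']
    exact block hG hA hx ih

theorem iter_self (a : A) (n : ℕ) : (q a a)^[n] a = a := by
  induction n with
  | zero => rfl
  | succ n ih => rw [iterate_succ_apply', ih, hG.qleft]

theorem cancel_add {a x u v : A} (hx : μ x a) (hu : μ u a) (hv : μ v a)
    (h : θ (q x a u) (q x a v)) : θ u v := by
  have hpol : IsPol Γ (fun v : Fin 2 ⊕ Fin 1 → A => q (v (.inl 0)) (v (.inl 1)) (v (.inr 0))) :=
    pol3 hG.polq (isPol_proj _) (isPol_proj _) (isPol_proj _)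
  have h1 := hA.centr 2 1 _ hpol ![x, a] ![a, a] ![u] ![v] (by
      intro i
      fin_cases i
      · exact hx
      · exact mu_right hG hA hx) (by
      intro j
      fin_cases j
      exact hA.congμ.trans _ _ _ hu (hA.congμ.symm _ _ hv)) (by
      simpa using h)
  have h2 : θ (q a a u) (q a a v) := by simpa using h1
  rwa [hG.qleft, hG.qleft] at h2

theorem cancel_iter {a x u v : A} (hx : μ x a) (hu : μ u a) (hv : μ v a) (n : ℕ)
    (h : θ ((q x a)^[n] u) ((q x a)^[n] v)) : θ u v := by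
  induction n with
  | zero => exact h
  | succ n ih =>
    rw [iterate_succ_apply', iterate_succ_apply'] at h
    exact ih (cancel_add hG hA hx (iter_block hG hA hx hu n) (iter_block hG hA hx hv n) h)

/-- `(t x) + u = x + (x + ... + u)` -/
theorem iter_add {a x u : A} (hx : μ x a) (hu : μ u a) (t : ℕ) :
    θ (q ((q x a)^[t] a) a u) ((q x a)^[t] u) := by
  have haa := mu_right hG hA hx
  induction t with
  | zero =>
    show θ (q a a u) u
    rw [hG.qleft]
    exact rfl_of_left hG hA hu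
  | succ t ih =>
    rw [iterate_succ_apply', iterate_succ_apply']
    have h1 := assoc hG hA hx (iter_block hG hA hx haa t) hu
    refine hA.congθ.trans _ _ _ h1 ?_
    exact qcong hG hA hA.congθ (rfl_of_left hG hA hx) (rfl_of_right hG hA hx) ih

theorem iter_mul {a x : A} (hx : μ x a) (t n : ℕ) :
    θ ((q ((q x a)^[t] a) a)^[n] a) ((q x a)^[t * n] a) := by
  have haa := mu_right hG hA hx
  induction n with
  | zero => exact rfl_of_right hG hA hx
  | succ n ih =>
    rw [iterate_succ_apply', Nat.mul_succ, Nat.add_comm, iterate_add_apply]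
    have h1 := iter_add hG hA hx (iter_block hG hA hx haa (t * n)) t
    refine hA.congθ.trans _ _ _ ?_ h1
    exact qcong hG hA hA.congθ (rfl_of_left hG hA (iter_block hG hA hx haa t))
      (rfl_of_right hG hA hx) ih

/-- iterates commute with polymorphisms -/
theorem iter_comm {ι : Type} [Finite ι] {f : (ι → A) → A} (hf : IsPol Γ f) (v w : ι → A)
    (h : ∀ i, μ (v i) (w i)) (n : ℕ) :
    θ ((q (f v) (f w))^[n] (f w)) (f fun i => (q (v i) (w i))^[n] (w i)) := by
  have hfvw : μ (f v) (f w) := hA.congμ.fin hf v w h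
  induction n with
  | zero => exact rfl_of_right hG hA hfvw
  | succ n ih =>
    rw [iterate_succ_apply']
    have h1 := qcomm hG hA hf v w (fun i => (q (v i) (w i))^[n] (w i)) h (fun i =>
      hA.congμ.symm _ _ (iter_block hG hA (h i) (mu_right hG hA (h i)) n))
    have h2 : (fun i => (q (v i) (w i))^[n + 1] (w i))
        = fun i => q (v i) (w i) ((q (v i) (w i))^[n] (w i)) :=
      funext fun i => iterate_succ_apply' _ _ _
    rw [h2]
    refine hA.congθ.trans _ _ _ ?_ h1
    exact qcong hG hA hA.congθ (rfl_of_left hG hA hfvw) (rfl_of_right hG hA hfvw) ih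

/-- the relation `n (x - y) = 0` is a congruence -/
theorem cong_alpha (n : ℕ) : IsCong Γ S fun x y => μ x y ∧ θ ((q x y)^[n] y) y := by
  have hμ := hA.congμ
  have hθ := hA.congθ
  -- compatibility
  have hcomp : ∀ {ι : Type} [Finite ι] {f : (ι → A) → A}, IsPol Γ f → ∀ v w : ι → A,
      (∀ i, μ (v i) (w i) ∧ θ ((q (v i) (w i))^[n] (w i)) (w i)) →
      μ (f v) (f w) ∧ θ ((q (f v) (f w))^[n] (f w)) (f w) := by
    intro ι _ f hf v w h
    refine ⟨hμ.fin hf v w fun i => (h i).1, ?_⟩
    exact hθ.trans _ _ _ (iter_comm hG hA hf v w (fun i => (h i).1) n)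
      (hθ.fin hf _ _ fun i => (h i).2)
  -- saturation
  have hsat : ∀ {x y x' y' : A}, (μ x y ∧ θ ((q x y)^[n] y) y) → θ x x' → θ y y' →
      (μ x' y' ∧ θ ((q x' y')^[n] y') y') := by
    rintro x y x' y' ⟨h1, h2⟩ hx hy
    refine ⟨hμ.trans _ _ _ (hμ.symm _ _ (hA.le _ _ hx)) (hμ.trans _ _ _ h1 (hA.le _ _ hy)), ?_⟩
    have h3 := iter_cong hG hA hθ hx hy hy n
    exact hθ.trans _ _ _ (hθ.symm _ _ h3) (hθ.trans _ _ _ h2 hy)
  have hrefl : ∀ {a b : A}, μ a b → (μ a a ∧ θ ((q a a)^[n] a) a) := by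
    intro a b h
    refine ⟨mu_left hG hA h, ?_⟩
    rw [iter_self hG hA]
    exact rfl_of_left hG hA h
  have h3 : ∀ {x y z x' y' z' : A}, (μ x x' ∧ θ ((q x x')^[n] x') x') →
      (μ y y' ∧ θ ((q y y')^[n] y') y') → (μ z z' ∧ θ ((q z z')^[n] z') z') →
      (μ (q x y z) (q x' y' z') ∧ θ ((q (q x y z) (q x' y' z'))^[n] (q x' y' z')) (q x' y' z')) := by
    intro x y z x' y' z' h1 h2 h3
    have := hcomp hG.polq ![x, y, z] ![x', y', z'] (by
      intro i
      fin_cases i
      · exact h1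
      · exact h2
      · exact h3)
    simpa using this
  refine ⟨fun a b h => hμ.mem a b h.1, fun a ha => hrefl (hμ.refl a ha), ?_, ?_, ?_⟩
  · rintro x y h
    have h4 := h3 (hrefl h.1) h (hrefl (hμ.symm _ _ h.1))
    rw [hG.qleft] at h4
    exact hsat h4 (rfl_of_right hG hA h.1) (qright hG hA h.1)
  · rintro x y z h h'
    have h4 := h3 h (hrefl h'.1) h'
    rw [hG.qleft] at h4
    exact hsat h4 (qright hG hA h.1) (rfl_of_right hG hA h'.1)
  · intro k f hf v w h
    exact hcomp hf v w h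

theorem exists_order [Finite A] {x a : A} (hx : μ x a) :
    ∃ k, 0 < k ∧ k ≤ Nat.card A ∧ θ ((q x a)^[k] a) a := by
  have haa := mu_right hG hA hx
  have := Fintype.ofFinite A
  have hcard : Fintype.card A < Fintype.card (Fin (Nat.card A + 1)) := by
    rw [Fintype.card_fin, Nat.card_eq_fintype_card]
    omega
  obtain ⟨i, j, hij, he⟩ := Fintype.exists_ne_map_eq_of_card_lt
    (fun i : Fin (Nat.card A + 1) => (q x a)^[i.1] a) hcard
  have key : ∀ i j : Fin (Nat.card A + 1), i.1 < j.1 → (q x a)^[i.1] a = (q x a)^[j.1] a →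
      ∃ k, 0 < k ∧ k ≤ Nat.card A ∧ θ ((q x a)^[k] a) a := by
    intro i j hlt he
    refine ⟨j.1 - i.1, by omega, by have := j.2; omega, ?_⟩
    apply cancel_iter hG hA hx (iter_block hG hA hx haa _) haa i.1
    rw [← iterate_add_apply, Nat.add_sub_cancel' hlt.le, ← he]
    exact rfl_of_left hG hA (iter_block hG hA hx haa _)
  rcases lt_or_gt_of_ne (fun h => hij (Fin.ext h)) with h | h
  · exact key i j h he
  · exact key j i h he.symm

theorem exists_prime [Finite A] (hM : IsMonolith Γ S θ μ) :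
    ∃ p, p.Prime ∧ p ≤ Nat.card A ∧ IsExp S q θ μ p := by
  classical
  obtain ⟨x, a, hx, hne⟩ := hM.ne
  have haa := mu_right hG hA hx
  have hex := exists_order hG hA hx
  have hk := Nat.find_spec hex
  have hmin : ∀ l, l < Nat.find hex → 0 < l → ¬ θ ((q x a)^[l] a) a := by
    intro l hl h0 hθ
    exact Nat.find_min hex hl ⟨h0, hl.le.trans hk.2.1, hθ⟩
  set k := Nat.find hex with hkdef
  have hk1 : k ≠ 1 := by
    intro h1
    apply hne
    have := hk.2.2
    rw [h1, iterate_one] at this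
    exact hA.congθ.trans _ _ _ (hA.congθ.symm _ _ (qright hG hA hx)) this
  have hp := Nat.minFac_prime hk1
  have hdvd := Nat.minFac_dvd k
  refine ⟨k.minFac, hp, (Nat.minFac_le hk.1).trans hk.2.1, ?_⟩
  obtain ⟨t, ht⟩ := hdvd
  have htk : t < k := by
    have := hp.two_le
    rcases Nat.eq_zero_or_pos t with h | h
    · rw [h]; exact hk.1
    · nlinarith
  have ht0 : 0 < t := by
    rcases Nat.eq_zero_or_pos t with h | h
    · rw [h, mul_zero] at ht
      omega
    · exact h
  set x' := (q x a)^[t] a with hx'def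
  have hx' : μ x' a := iter_block hG hA hx haa t
  have h1 : ¬ θ x' a := hmin t htk ht0
  have h2 : θ ((q x' a)^[k.minFac] a) a := by
    have h3 := iter_mul hG hA hx t k.minFac
    rw [Nat.mul_comm, ← ht] at h3
    exact hA.congθ.trans _ _ _ h3 hk.2.2
  have h4 := hM.min _ (cong_alpha hG hA k.minFac) (by
    intro u v huv
    refine ⟨hA.le _ _ huv, ?_⟩
    have hvv : θ v v := hA.congθ.refl v (hA.congθ.mem _ _ huv).2
    have h5 := iter_cong hG hA hA.congθ huv hvv hvv k.minFac
    rwa [iter_self hG hA] at h5) ⟨x', a, ⟨hx', h2⟩, h1⟩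
  intro b _ y hy
  exact (h4 y b hy).2

end

/-! ### the group on a block -/

theorem exists_dual_mod (B : Type) [AddCommGroup B] [Finite B] {p : ℕ} [Fact p.Prime]
    [Module (ZMod p) B] : ∃ (X : Type) (_ : Finite X) (χ : X → B → ZMod p),
      (∀ i x y, χ i (x + y) = χ i x + χ i y) ∧ ∀ x y, (∀ i, χ i x = χ i y) → x = y := by
  have hfin2 : Finite (Module.Dual (ZMod p) B) := by
    haveI : Finite (B → ZMod p) := Pi.finite
    exact Finite.of_injective (fun (φ : Module.Dual (ZMod p) B) (x : B) => φ x)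
      (fun φ ψ h => LinearMap.ext fun x => congrFun h x)
  refine ⟨Module.Dual (ZMod p) B, hfin2, fun φ x => φ x, fun φ x y => map_add φ x y, ?_⟩
  intro x y h
  rw [← sub_eq_zero, ← Module.forall_dual_apply_eq_zero_iff (ZMod p)]
  intro φ
  have h1 : φ x = φ y := h φ
  rw [map_sub, h1, sub_self]

theorem exists_dual (B : Type) [AddCommGroup B] [Finite B] {p : ℕ} (hp : p.Prime)
    (hp0 : ∀ g : B, p • g = 0) : ∃ (X : Type) (_ : Finite X) (χ : X → B → ZMod p),
      (∀ i x y, χ i (x + y) = χ i x + χ i y) ∧ ∀ x y, (∀ i, χ i x = χ i y) → x = y :=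
  have : Fact p.Prime := ⟨hp⟩
  @exists_dual_mod B _ _ p _ (AddCommGroup.zmodModule hp0)

section
variable {m : ℕ} {G : ℕ → A → A → A → A} {q : A → A → A → A} (hG : IsGumm Γ m G q)
  {S : Set A} {θ μ : A → A → Prop} (hA : IsAb Γ S θ μ)

/-- `θ` on the block of `a` -/
def blockSetoid (a : A) : Setoid {x // μ x a} where
  r x y := θ x.1 y.1
  iseqv := ⟨fun x => rfl_of_left hG hA x.2, fun h => hA.congθ.symm _ _ h,
    fun h h' => hA.congθ.trans _ _ _ h h'⟩

/-- the block of `a` modulo `θ` -/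
def Blk (a : A) : Type := Quotient (blockSetoid hG hA a)

theorem blk_mk_eq {a : A} {x y : {x // μ x a}} :
    (Quotient.mk (blockSetoid hG hA a) x = Quotient.mk (blockSetoid hG hA a) y) ↔ θ x.1 y.1 :=
  Quotient.eq (r := blockSetoid hG hA a)

/-- the class of an element of the block -/
def bmk (a : A) (x : {x // μ x a}) : Blk hG hA a := Quotient.mk (blockSetoid hG hA a) x

theorem bmk_eq {a : A} {x y : {x // μ x a}} :
    bmk hG hA a x = bmk hG hA a y ↔ θ x.1 y.1 := blk_mk_eq hG hA

/-- the group structure -/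
noncomputable abbrev blkGroup (a : A) (ha : a ∈ S) : AddCommGroup (Blk hG hA a) :=
  have haa : μ a a := hA.congμ.refl a ha
  letI : Add (Blk hG hA a) := ⟨Quotient.map₂ (sa := blockSetoid hG hA a)
      (sb := blockSetoid hG hA a)
      (sc := blockSetoid hG hA a) (fun x y => ⟨q x.1 a y.1, block hG hA x.2 y.2⟩)
      (fun x x' hx y y' hy => qcong hG hA hA.congθ hx (hA.congθ.refl a ha) hy)⟩
  letI : Zero (Blk hG hA a) := ⟨Quotient.mk (blockSetoid hG hA a) ⟨a, haa⟩⟩
  letI : Neg (Blk hG hA a) := ⟨Quotient.map (sa := blockSetoid hG hA a)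
      (sb := blockSetoid hG hA a)
      (fun x => ⟨q a x.1 a, negblock hG hA x.2⟩)
      (fun x x' hx => qcong hG hA hA.congθ (hA.congθ.refl a ha) hx (hA.congθ.refl a ha))⟩
  { AddGroup.ofLeftAxioms (G := Blk hG hA a) (by
      rintro ⟨x⟩ ⟨y⟩ ⟨z⟩
      exact (blk_mk_eq hG hA).2 (assoc hG hA x.2 y.2 z.2)) (by
      rintro ⟨x⟩
      refine (blk_mk_eq hG hA).2 ?_
      show θ (q a a x.1) x.1
      rw [hG.qleft]
      exact rfl_of_left hG hA x.2) (by
      rintro ⟨x⟩
      refine (blk_mk_eq hG hA).2 ?_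
      show θ (q (q a x.1 a) a x.1) a
      exact hA.congθ.trans _ _ _ (comm hG hA (negblock hG hA x.2) x.2)
        (addneg hG hA x.2)) with
    add_comm := by
      rintro ⟨x⟩ ⟨y⟩
      exact (blk_mk_eq hG hA).2 (comm hG hA x.2 y.2) }

include hG hA in
theorem exists_char [Finite A] {a : A} (ha : a ∈ S) {p : ℕ} (hp : p.Prime)
    (hE : ∀ x, μ x a → θ ((q x a)^[p] a) a) :
    ∃ (X : Type) (_ : Finite X) (χ : X → A → ZMod p),
      (∀ i x y, μ x a → μ y a → χ i (q x a y) = χ i x + χ i y) ∧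
      ∀ x y, μ x a → μ y a → ((∀ i, χ i x = χ i y) ↔ θ x y) := by
  classical
  letI := blkGroup hG hA a ha
  haveI : Fact p.Prime := ⟨hp⟩
  have haa : μ a a := hA.congμ.refl a ha
  have hfin : Finite (Blk hG hA a) := by
    unfold Blk
    infer_instance
  have hn : ∀ (x : {x // μ x a}) (n : ℕ), n • bmk hG hA a x =
      bmk hG hA a ⟨(q x.1 a)^[n] a, iter_block hG hA x.2 haa n⟩ := by
    intro x n
    induction n with
    | zero => rw [zero_smul]; rfl
    | succ n ih =>
      rw [succ_nsmul', ih]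
      refine (bmk_eq hG hA).2 ?_
      show θ (q x.1 a ((q x.1 a)^[n] a)) ((q x.1 a)^[n + 1] a)
      rw [iterate_succ_apply']
      exact rfl_of_left hG hA (block hG hA x.2 (iter_block hG hA x.2 haa n))
  have hp0 : ∀ g : Blk hG hA a, p • g = 0 := by
    rintro ⟨x⟩
    have h1 := hn x p
    have h2 : bmk hG hA a ⟨(q x.1 a)^[p] a, iter_block hG hA x.2 haa p⟩ = 0 :=
      (bmk_eq hG hA).2 (hE x.1 x.2)
    exact h1.trans h2
  obtain ⟨X, hX, χ, h1, h2⟩ := exists_dual (Blk hG hA a) hp hp0
  refine ⟨X, hX, fun i x => if h : μ x a then χ i (bmk hG hA a ⟨x, h⟩) else 0, ?_, ?_⟩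
  · intro i x y hx hy
    simp only [dif_pos hx, dif_pos hy, dif_pos (block hG hA hx hy)]
    rw [← h1]
    rfl
  · intro x y hx hy
    simp only [dif_pos hx, dif_pos hy]
    constructor
    · intro h
      exact (bmk_eq hG hA).1 (h2 _ _ h)
    · intro h i
      exact congrArg (χ i) ((bmk_eq hG hA (a := a) (x := ⟨x, hx⟩) (y := ⟨y, hy⟩)).2 h)

end

end Grp

theorem groupStmt3 {A : Type} [Finite A] (Γ : Set (FinRel A)) : GroupStmt3 Γ := by
  classical
  intro m G q hG S θ μ hA p hp hE
  have h1 : ∀ a : S, ∃ (X : Type) (_ : Finite X) (χ : X → A → ZMod p),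
      (∀ i x y, μ x a → μ y a → χ i (q x a y) = χ i x + χ i y) ∧
      ∀ x y, μ x a → μ y a → ((∀ i, χ i x = χ i y) ↔ θ x y) :=
    fun a => Grp.exists_char hG hA a.2 hp (hE a.1 a.2)
  choose X hX χ h2 h3 using h1
  refine ⟨Σ a : S, X a, inferInstance, fun i a x => if a = i.1.1 then χ i.1 i.2 x else 0, ?_, ?_⟩
  · rintro ⟨b, i⟩ a ha x y hx hy
    by_cases hab : a = b.1
    · simp only [if_pos hab]
      subst hab
      exact h2 b i x y hx hy
    · simp [hab]
  · intro a ha x y hx hy
    rw [← h3 ⟨a, ha⟩ x y hx hy]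
    constructor
    · intro h i
      have := h ⟨⟨a, ha⟩, i⟩
      simpa using this
    · rintro h ⟨b, i⟩
      by_cases hab : a = b.1
      · subst hab
        simp only [if_true]
        exact h i
      · simp [hab]

theorem groupStmt1 {A : Type} (Γ : Set (FinRel A)) : GroupStmt1 Γ := by
  intro m G q hG S θ μ hA
  refine ⟨fun x y h => Grp.qright hG hA h, ?_⟩
  intro ι _ f hf x y z h1 h2
  exact Grp.qcomm hG hA hf x y z h1 h2

theorem groupStmt2 {A : Type} [Finite A] (Γ : Set (FinRel A)) : GroupStmt2 Γ :=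
  fun _ _ _ hG _ _ _ hA hM => Grp.exists_prime hG hA hM

theorem groupStmt4 {A : Type} (Γ : Set (FinRel A)) : GroupStmt4 Γ := by
  intro m G q hG S θ μ hA p hp a ha x hx n
  have haa := Grp.mu_right hG hA hx
  have h0 : ∀ k : ℕ, θ ((q x a)^[p * k] a) a := by
    intro k
    induction k with
    | zero => exact Grp.rfl_of_right hG hA hx
    | succ k ih =>
      rw [Nat.mul_succ, iterate_add_apply]
      have h1 := Grp.iter_cong hG hA hA.congθ (Grp.rfl_of_left hG hA hx)
        (Grp.rfl_of_right hG hA hx) (hp a ha x hx) (p * k)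
      exact hA.congθ.trans _ _ _ h1 ih
  constructor
  · intro hn
    have h1 := Nat.div_add_mod n p
    rw [hn, add_zero] at h1
    rw [← h1]
    exact h0 _
  · intro hn
    have h1 := Nat.div_add_mod n p
    rw [hn] at h1
    rw [← h1, Nat.add_comm, iterate_add_apply, iterate_one]
    have h2 := Grp.qcong hG hA hA.congθ (Grp.rfl_of_left hG hA hx)
      (Grp.rfl_of_right hG hA hx) (h0 (n / p))
    exact hA.congθ.trans _ _ _ h2 (Grp.qright hG hA hx)

end Pool.Agent.Lib.MP2ea600
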