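import Pool.Agent.Lib.MP_2ea600_lc.LSDefs

/-!
# Module OMEGA (MP_2ea600_lc)
-/

namespace Pool.Agent.Lib.MP2ea600.LS

open Function

namespace Om

/-- shift of the positions in `T` one step down -/
def sh {n : ℕ} (T : Finset (Fin n)) (j : Fin (n + 1)) : Fin (n + 1) :=
  Fin.cases 0 (fun i => if i ∈ T then i.castSucc else i.succ) j

@[simp] theorem sh_zero {n : ℕ} (T : Finset (Fin n)) : sh T 0 = 0 := rfl

@[simp] theorem sh_succ {n : ℕ} (T : Finset (Fin n)) (i : Fin n) :
    sh T i.succ = if i ∈ T then i.castSucc else i.succ := rfl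

theorem sh_empty {n : ℕ} : sh (∅ : Finset (Fin n)) = id := by
  funext j
  refine Fin.cases rfl (fun i => ?_) j
  simp

theorem sh_mono {n : ℕ} (T : Finset (Fin n)) : Monotone (sh T) := by
  intro a b hab
  rcases hab.eq_or_lt with rfl | hab
  · exact le_rfl
  · rw [Fin.le_def]
    rw [Fin.lt_def] at hab
    have h1 : ∀ a : Fin (n + 1), (sh T a : ℕ) ≤ a := by
      intro a
      refine Fin.cases ?_ (fun i => ?_) a
      · simp
      · rw [sh_succ]
        split_ifs
        · simp
        · exact le_rfl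
    have h2 : (b : ℕ) ≤ sh T b + 1 := by
      refine Fin.cases ?_ (fun i => ?_) b
      · simp
      · rw [sh_succ]
        split_ifs <;> simp
    have := h1 a
    omega

/-- the alternating sum over all shifts vanishes if two neighbouring letters are equal -/
theorem sum_sh {n : ℕ} {B : Type} (w : Fin (n + 1) → B) (i₀ : Fin n)
    (hw : w i₀.succ = w i₀.castSucc) {G : Type} [AddCommGroup G] (F : (Fin (n + 1) → B) → G) :
    ∑ T : Finset (Fin n), ((-1 : ℤ) ^ T.card) • F (w ∘ sh T) = 0 := by
  classical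
  have hsym : ∀ T : Finset (Fin n), i₀ ∉ T → w ∘ sh (insert i₀ T) = w ∘ sh T := by
    intro T hT
    funext j
    refine Fin.cases rfl (fun i => ?_) j
    simp only [comp_apply, sh_succ, Finset.mem_insert]
    by_cases hi : i = i₀
    · subst hi
      simp [hT, hw]
    · simp [hi]
  have huniv : (Finset.univ : Finset (Finset (Fin n)))
      = (Finset.univ : Finset (Fin n)).powerset := by
    ext T; simp
  rw [huniv, ← Finset.insert_erase (Finset.mem_univ i₀),
    Finset.sum_powerset_insert (Finset.notMem_erase i₀ _), ← Finset.sum_add_distrib]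
  refine Finset.sum_eq_zero fun T hT => ?_
  have hT' : i₀ ∉ T := fun h => Finset.notMem_erase i₀ _ (Finset.mem_powerset.1 hT h)
  rw [hsym T hT', Finset.card_insert_of_notMem hT', pow_succ, mul_neg_one, neg_smul,
    add_neg_cancel]

theorem fact {n : ℕ} (T : Finset (Fin n)) (hT : T.Nonempty) :
    ∃ (β : Fin (n + 1) → Fin n) (α : Fin n → Fin (n + 1)), Monotone β ∧ Monotone α ∧
      sh T = α ∘ β := by
  classical
  set i := T.min' hT with hi
  have hiT : i ∈ T := T.min'_mem hT
  have hmin : ∀ j ∈ T, i ≤ j := fun j hj => T.min'_le j hj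
  have h1 : sh T i.castSucc = sh T i.succ := by
    rw [sh_succ, if_pos hiT]
    obtain ⟨m, hm⟩ := i
    cases m with
    | zero => rfl
    | succ m =>
      have e : (⟨m + 1, hm⟩ : Fin n).castSucc = (⟨m, by omega⟩ : Fin n).succ := rfl
      rw [e, sh_succ, if_neg]
      intro hmem
      have := hmin _ hmem
      rw [Fin.le_def] at this
      simp at this
  refine ⟨Fin.predAbove i, sh T ∘ Fin.succAbove i.succ, Fin.predAbove_right_monotone i,
    (sh_mono T).comp (Fin.strictMono_succAbove _).monotone, ?_⟩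
  funext x
  simp only [comp_apply]
  by_cases hx : x = i.succ
  · subst hx
    rw [Fin.predAbove_succ_self, Fin.succAbove_of_castSucc_lt _ _ (Fin.castSucc_lt_succ), h1]
  · rw [Fin.succ_succAbove_predAbove hx]

theorem base (k : ℕ) (hk : 0 < k) (n : ℕ) (hn : 0 < n) : ∃ (ι : Type) (_ : Fintype ι) (c : ι → ℤ)
    (σ : ι → Fin k → Fin n) (τ : ι → Fin n → Fin k), (∀ j, Monotone (τ j)) ∧
    ∀ (B : Type) (w : Fin n → B),
      (∃ (τ' : Fin n → Fin k) (b : Fin k → B), Monotone τ' ∧ w = b ∘ τ') →
      ∀ (G : Type) (_ : AddCommGroup G) (F : (Fin n → B) → G),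
        F w = ∑ j, c j • F (w ∘ σ j ∘ τ j) := by
  classical
  induction n with
  | zero => omega
  | succ n ih =>
    rcases Nat.lt_or_ge k (n + 1) with hkn | hkn
    · have hn' : 0 < n := by omega
      obtain ⟨ι, hι, c, σ, τ, hτ, H⟩ := ih hn'
      have hf : ∀ T : {T : Finset (Fin n) // T.Nonempty}, ∃ (β : Fin (n + 1) → Fin n)
          (α : Fin n → Fin (n + 1)), Monotone β ∧ Monotone α ∧ sh T.1 = α ∘ β := fun T =>
        fact T.1 T.2
      choose β α hβ hα hsh using hf
      refine ⟨{T : Finset (Fin n) // T.Nonempty} × ι, inferInstance,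
        fun p => (-((-1 : ℤ) ^ p.1.1.card)) * c p.2, fun p => α p.1 ∘ σ p.2,
        fun p => τ p.2 ∘ β p.1, fun p => (hτ p.2).comp (hβ p.1), ?_⟩
      intro B w hw G hG F
      obtain ⟨τ', b, hτ', rfl⟩ := hw
      -- two neighbouring positions with the same value of `τ'`
      obtain ⟨i₀, hi₀⟩ : ∃ i₀ : Fin n, τ' i₀.succ = τ' i₀.castSucc := by
        by_contra hcon
        push Not at hcon
        have hs : StrictMono τ' := by
          rw [Fin.strictMono_iff_lt_succ]
          intro i
          exact lt_of_le_of_ne (hτ' (Fin.castSucc_lt_succ).le) (hcon i).symm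
        have := Fintype.card_le_of_injective τ' hs.injective
        simp at this
        omega
      have hsum := sum_sh (b ∘ τ') i₀ (by simp [hi₀]) F
      rw [← Finset.add_sum_erase _ _ (Finset.mem_univ (∅ : Finset (Fin n)))] at hsum
      rw [sh_empty, Finset.card_empty, pow_zero, one_smul, comp_id] at hsum
      have h1 : F (b ∘ τ') = ∑ T ∈ Finset.univ.erase (∅ : Finset (Fin n)),
          (-((-1 : ℤ) ^ T.card)) • F ((b ∘ τ') ∘ sh T) := by
        rw [eq_neg_of_add_eq_zero_left hsum, ← Finset.sum_neg_distrib]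
        refine Finset.sum_congr rfl fun T _ => ?_
        rw [neg_smul]
      have h2 : ∑ T ∈ Finset.univ.erase (∅ : Finset (Fin n)),
          (-((-1 : ℤ) ^ T.card)) • F ((b ∘ τ') ∘ sh T)
          = ∑ T : {T : Finset (Fin n) // T.Nonempty},
            (-((-1 : ℤ) ^ T.1.card)) • F ((b ∘ τ') ∘ sh T.1) := by
        rw [← Finset.sum_subtype (Finset.univ.erase (∅ : Finset (Fin n)))
          (p := fun T : Finset (Fin n) => T.Nonempty)
          (f := fun T => (-((-1 : ℤ) ^ T.card)) • F ((b ∘ τ') ∘ sh T))]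
        intro T
        simp [Finset.nonempty_iff_ne_empty]
      rw [h1, h2, Fintype.sum_prod_type]
      refine Finset.sum_congr rfl fun T _ => ?_
      have h3 := H B ((b ∘ τ') ∘ α T) ⟨τ' ∘ α T, b, hτ'.comp (hα T), rfl⟩ G hG
        (fun x => F (x ∘ β T))
      have h4 : (b ∘ τ') ∘ sh T.1 = ((b ∘ τ') ∘ α T) ∘ β T := by
        rw [hsh T]; rfl
      rw [h4, h3, Finset.smul_sum]
      refine Finset.sum_congr rfl fun j _ => ?_
      rw [smul_smul]
      rfl
    · refine ⟨Unit, inferInstance, fun _ => 1,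
        fun _ i => if h : (i : ℕ) < n + 1 then ⟨i, h⟩ else 0,
        fun _ => Fin.castLE hkn, fun _ => (Fin.strictMono_castLE hkn).monotone, ?_⟩
      intro B w _ G _ F
      simp only [Finset.univ_unique, Finset.sum_singleton, one_smul]
      congr 1
      funext i
      simp only [comp_apply]
      congr 1
      have : ((Fin.castLE hkn i : Fin k) : ℕ) < n + 1 := i.2
      rw [dif_pos this]
      rfl

end Om

open Om in
/-- Module OMEGA, first statement (for words of positive length). -/
theorem omegaStmt' (B : Type) [Fintype B] (C r : ℕ) (hr : 0 < r) (v : Fin r → B) :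
    ∃ (ι : Type) (_ : Fintype ι) (c : ι → ℤ)
      (σ : ι → Fin (Fintype.card B * C) → Fin r) (τ : ι → Fin r → Fin (Fintype.card B * C)),
      (∀ j, IsChart v (τ j)) ∧ ∀ w : Fin r → B, Cx C v w →
        ∀ (G : Type) (_ : AddCommGroup G) (F : (Fin r → B) → G),
          F w = ∑ j, c j • F (w ∘ σ j ∘ τ j) := by
  classical
  rcases Nat.eq_zero_or_pos C with rfl | hC
  · refine ⟨Empty, inferInstance, fun j => j.elim, fun j => j.elim, fun j => j.elim,
      fun j => j.elim, ?_⟩
    rintro w ⟨κ, g, _, hκ, _⟩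
    exact absurd (hκ ⟨0, hr⟩) (Nat.not_lt_zero _)
  have hB : 0 < Fintype.card B := Fintype.card_pos_iff.2 ⟨v ⟨0, hr⟩⟩
  set k := Fintype.card B * C with hk
  have hkpos : 0 < k := Nat.mul_pos hB hC
  let e : B ≃ Fin (Fintype.card B) := Fintype.equivFin B
  let f : Fin r → Lex (Fin (Fintype.card B) × Fin r) := fun i => toLex (e (v i), i)
  let π : Equiv.Perm (Fin r) := Tuple.sort f
  have hπ : Monotone (f ∘ π) := Tuple.monotone_sort f
  have hfinj : Injective f := by
    intro i j hij
    have : (e (v i), i) = (e (v j), j) := toLex.injective hij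
    exact (Prod.ext_iff.1 this).2
  have hπ' : ∀ i i', i ≤ i' → v i = v i' → π.symm i ≤ π.symm i' := by
    intro i i' hii hv
    by_contra hcon
    push Not at hcon
    have h1 := hπ hcon.le
    simp only [comp_apply, Equiv.apply_symm_apply] at h1
    have h2 : f i ≤ f i' := by
      change toLex (e (v i), i) ≤ toLex (e (v i'), i')
      rw [Prod.Lex.toLex_le_toLex]
      right
      exact ⟨by rw [hv], hii⟩
    have h3 : i = i' := hfinj (le_antisymm h2 h1)
    rw [h3] at hcon
    exact lt_irrefl _ hcon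
  obtain ⟨ι, hι, c, σ, τ, hτ, H⟩ := base k hkpos r hr
  refine ⟨ι, hι, c, fun j => π ∘ σ j, fun j => τ j ∘ π.symm, ?_, ?_⟩
  · intro j i i' hii hv
    exact hτ j (hπ' i i' hii hv)
  · rintro w ⟨κ, g, hκm, hκC, hw⟩ G hG F
    let τ' : Fin r → Fin k := fun i => finProdFinEquiv (e (v (π i)), ⟨κ (π i), hκC _⟩)
    let b : Fin k → B := fun x =>
      g ((finProdFinEquiv.symm x : Fin (Fintype.card B) × Fin C).2 : ℕ)
        (e.symm (finProdFinEquiv.symm x : Fin (Fintype.card B) × Fin C).1)
    have hτ' : Monotone τ' := by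
      intro i i' hii
      have h1 := hπ hii
      simp only [comp_apply] at h1
      change toLex (e (v (π i)), π i) ≤ toLex (e (v (π i')), π i') at h1
      rw [Prod.Lex.toLex_le_toLex] at h1
      rw [Fin.le_def]
      simp only [τ', finProdFinEquiv_apply_val]
      rcases h1 with h1 | ⟨h1, h2⟩
      · have h3 : (e (v (π i)) : ℕ) + 1 ≤ e (v (π i')) := h1
        have h4 := hκC (π i)
        calc κ (π i) + C * (e (v (π i)) : ℕ) ≤ C * ((e (v (π i)) : ℕ) + 1) := by
              rw [mul_add, mul_one]; omega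
          _ ≤ C * (e (v (π i')) : ℕ) := Nat.mul_le_mul_left _ h3
          _ ≤ κ (π i') + C * (e (v (π i')) : ℕ) := Nat.le_add_left _ _
      · have h3 : e (v (π i)) = e (v (π i')) := h1
        rw [h3]
        have h4 : κ (π i) ≤ κ (π i') := hκm h2
        omega
    have hwb : w ∘ π = b ∘ τ' := by
      funext i
      simp only [comp_apply, b, τ', Equiv.symm_apply_apply]
      exact hw (π i)
    have h1 := H B (w ∘ π) ⟨τ', b, hτ', hwb⟩ G hG (fun x => F (x ∘ π.symm))
    have h2 : (w ∘ π) ∘ π.symm = w := by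
      funext i; simp
    rw [h2] at h1
    rw [h1]
    rfl

theorem omegaStmt (B : Type) [Fintype B] : OmegaStmt B :=
  fun C r v hr => omegaStmt' B C r hr v

theorem chartStmt (B : Type) [Fintype B] : ChartStmt B := by
  classical
  intro k r v τ hτ b
  let s : B → Fin r → ℕ := fun a i =>
    (Finset.univ.filter fun i' => i' ≤ i ∧ v i' = a).sup fun i' => (τ i' : ℕ) + 1
  have hsm : ∀ a, Monotone (s a) := by
    intro a i j hij
    refine Finset.sup_mono fun x hx => ?_
    simp only [Finset.mem_filter, Finset.mem_univ, true_and] at hx ⊢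
    exact ⟨hx.1.trans hij, hx.2⟩
  have hsk : ∀ a i, s a i ≤ k := by
    intro a i
    exact Finset.sup_le fun x _ => (τ x).2
  have hsv : ∀ i, s (v i) i = (τ i : ℕ) + 1 := by
    intro i
    apply le_antisymm
    · refine Finset.sup_le fun x hx => ?_
      simp only [Finset.mem_filter, Finset.mem_univ, true_and] at hx
      have := hτ x i hx.1 hx.2
      rw [Fin.le_def] at this
      omega
    · exact Finset.le_sup (f := fun i' => (τ i' : ℕ) + 1) (by simp)
  let κ : Fin r → ℕ := fun i => ∑ a, s a i
  have hκm : Monotone κ := fun i j hij => Finset.sum_le_sum fun a _ => hsm a hij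
  have hκ : ∀ i, κ i < Fintype.card B * k + 1 := by
    intro i
    have : κ i ≤ ∑ _a : B, k := Finset.sum_le_sum fun a _ => hsk a i
    simp only [Finset.sum_const, Finset.card_univ, smul_eq_mul] at this
    omega
  have key : ∀ i j, κ i = κ j → v i = v j → τ i = τ j := by
    have key' : ∀ i j, i ≤ j → κ i = κ j → v i = v j → τ i = τ j := by
      intro i j hij hk hv
      have h1 : ∀ a ∈ (Finset.univ : Finset B), s a i = s a j :=
        (Finset.sum_eq_sum_iff_of_le fun a _ => hsm a hij).1 hk
      have h2 := h1 (v i) (Finset.mem_univ _)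
      rw [hsv i] at h2
      rw [hv, hsv j] at h2
      exact Fin.ext (by omega)
    intro i j hk hv
    rcases le_total i j with h | h
    · exact key' i j h hk hv
    · exact (key' j i h hk.symm hv.symm).symm
  refine ⟨κ, fun m a => if h : ∃ i, κ i = m ∧ v i = a then b (τ h.choose) else a, hκm, hκ, ?_⟩
  intro i
  have h : ∃ j, κ j = κ i ∧ v j = v i := ⟨i, rfl, rfl⟩
  simp only [comp_apply]
  rw [dif_pos h]
  rw [key _ _ h.choose_spec.1 h.choose_spec.2]

end Pool.Agent.Lib.MP2ea600.LS
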