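import Pool.Agent.Lib.MP_2ea600_lc.LSBasic
import Pool.Agent.Lib.MP_2ea600_lc.Omega

/-!
# Module LIFT (MP_2ea600_lc)
-/

namespace Pool.Agent.Lib.MP2ea600.LS

open Function

namespace Li

/-- A linear map that vanishes on the kernel of another one factors through it. -/
theorem factor {K X Y Z : Type} [Field K] [AddCommGroup X] [Module K X] [AddCommGroup Y]
    [Module K Y] [AddCommGroup Z] [Module K Z] (R : X →ₗ[K] Y) (T : X →ₗ[K] Z)
    (h : ∀ x, R x = 0 → T x = 0) : ∃ L : Y →ₗ[K] Z, ∀ x, L (R x) = T x := by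
  obtain ⟨g, hg⟩ := R.rangeRestrict.exists_rightInverse_of_surjective R.range_rangeRestrict
  obtain ⟨L, hL⟩ := (T ∘ₗ g).exists_extend
  refine ⟨L, fun x => ?_⟩
  have h1 : L (R x) = T (g (R.rangeRestrict x)) := by
    have := LinearMap.congr_fun hL (R.rangeRestrict x)
    simpa using this
  have h2 : R (g (R.rangeRestrict x)) = R x := by
    have := LinearMap.congr_fun hg (R.rangeRestrict x)
    have := congrArg Subtype.val this
    simpa using this
  have h3 : T (g (R.rangeRestrict x) - x) = 0 := h _ (by rw [map_sub, h2, sub_self])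
  rw [map_sub, sub_eq_zero] at h3
  rw [h1, h3]

variable {K U U₂ B : Type} [Field K]

/-- The average of a function over a family of substitutions. -/
def om {r : ℕ} {ι : Type} [Fintype ι] (c : ι → ℤ) (s : ι → Fin r → Fin r)
    (f : U → (Fin r → B) → K) : U → (Fin r → B) → K :=
  ∑ j, c j • (fun u v => f u (v ∘ s j))

theorem om_apply {r : ℕ} {ι : Type} [Fintype ι] (c : ι → ℤ) (s : ι → Fin r → Fin r)
    (f : U → (Fin r → B) → K) (u : U) (v : Fin r → B) :
    om c s f u v = ∑ j, c j • f u (v ∘ s j) := by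
  simp [om, Finset.sum_apply]

theorem om_mem {V : Fam K U B} {r : ℕ} {ι : Type} [Fintype ι] (c : ι → ℤ) (s : ι → Fin r → Fin r)
    (f : U → (Fin r → B) → K) (hf : ∀ j, (fun u v => f u (v ∘ s j)) ∈ V r) : om c s f ∈ V r :=
  Submodule.sum_mem _ fun j _ => (V r).toAddSubgroup.zsmul_mem (hf j) (c j)

theorem key [Fintype B] {V : Fam K U B} (hV : SubstClosed V) (a : (U → K) →ₗ[K] (U₂ → K)) {C₀ : ℕ}
    (hC₀ : 0 < C₀) {r : ℕ} (P₀ : (U → (Fin r → B) → K) →ₗ[K] (U → (Fin r → B) → K))
    (hP1 : ∀ f ∈ kerF a V r, P₀ f = f) (hP2 : Loc C₀ P₀) (v : Fin r → B)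
    (f : U → (Fin r → B) → K) (hf : f ∈ V r)
    (hz : ∀ w, Cx (Fintype.card B * (Fintype.card B * C₀) + 1) v w →
      ∀ u₂, a (fun u => f u w) u₂ = 0) (u : U) : P₀ f u v = f u v := by
  rcases Nat.eq_zero_or_pos r with rfl | hr
  · have hker : f ∈ kerF a V 0 := by
      refine ⟨hf, ?_⟩
      rw [SetLike.mem_coe, LinearMap.mem_ker]
      funext u₂ w
      rw [app_apply]
      have : Cx (Fintype.card B * (Fintype.card B * C₀) + 1) v w :=
        ⟨fun _ => 0, fun _ => id, monotone_const, fun i => i.elim0, fun i => i.elim0⟩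
      exact hz w this u₂
    rw [hP1 f hker]
  · obtain ⟨ι, hι, c, σ, τ, hτ, H⟩ := omegaStmt B C₀ r v hr
    let s : ι → Fin r → Fin r := fun j => σ j ∘ τ j
    have h1 : om c s f ∈ V r := om_mem c s f fun j => hV r r (s j) f hf
    have h2 : ∀ w, Cx C₀ v w → ∀ u, om c s f u w = f u w := by
      intro w hw u
      rw [om_apply]
      exact (H w hw K inferInstance (f u)).symm
    have h3 : om c s f ∈ kerF a V r := by
      refine ⟨h1, ?_⟩
      rw [SetLike.mem_coe, LinearMap.mem_ker]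
      funext u₂ w
      rw [app_apply]
      have e : (fun u => om c s f u w) = ∑ j, c j • (fun u => f u (w ∘ s j)) := by
        funext u
        rw [om_apply]
        simp [Finset.sum_apply]
      rw [e, map_sum, Finset.sum_apply]
      refine Finset.sum_eq_zero fun j _ => ?_
      rw [map_zsmul, Pi.smul_apply]
      have := hz (w ∘ s j) (chartStmt B _ r v (τ j) (hτ j) (w ∘ σ j)) u₂
      rw [this, smul_zero]
    have h4 := hP2 (f - om c s f) v (fun w hw u => by
      simp only [Pi.sub_apply]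
      rw [h2 w hw u, sub_self]) u
    rw [map_sub, hP1 _ h3] at h4
    simp only [Pi.sub_apply] at h4
    rw [h2 v (Cx.refl hC₀ v) u] at h4
    exact sub_eq_zero.1 h4

end Li

open Li

variable {K U U₂ B : Type} [Field K]

/-- Module LIFT. -/
theorem liftStmt [Fintype B] : LiftStmt K U U₂ B := by
  classical
  intro V hV a hker
  obtain ⟨C₀, hC₀, hP⟩ := hker.exists_pos
  refine ⟨Fintype.card B * (Fintype.card B * C₀) + 1, fun r => ?_⟩
  set C₁ := Fintype.card B * (Fintype.card B * C₀) + 1 with hC₁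
  obtain ⟨P₀, hP0, hP1, hP2⟩ := hP r
  -- restriction to the words near `v`
  let R : ∀ v : Fin r → B, (U₂ → (Fin r → B) → K) →ₗ[K] (U₂ → {w : Fin r → B // Cx C₁ v w} → K) :=
    fun v =>
    { toFun := fun g u₂ w => g u₂ w.1
      map_add' := fun _ _ => rfl
      map_smul' := fun _ _ => rfl }
  let E : ∀ v : Fin r → B, (U → (Fin r → B) → K) →ₗ[K] (U → K) := fun v =>
    { toFun := fun f u => f u v
      map_add' := fun _ _ => rfl
      map_smul' := fun _ _ => rfl }
  have hfac : ∀ v : Fin r → B, ∃ L : (U₂ → {w : Fin r → B // Cx C₁ v w} → K) →ₗ[K] (U → K),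
      ∀ f : V r, L ((R v ∘ₗ app a r ∘ₗ (V r).subtype) f)
        = (E v ∘ₗ (LinearMap.id - P₀) ∘ₗ (V r).subtype) f := by
    intro v
    refine factor _ _ fun f hf => ?_
    funext u
    have h := key hV a hC₀ P₀ hP1 hP2 v f.1 f.2 (fun w hw u₂ => ?_) u
    · simp only [LinearMap.comp_apply, LinearMap.sub_apply, LinearMap.id_apply,
        Submodule.subtype_apply, Pi.zero_apply]
      change f.1 u v - P₀ f.1 u v = 0
      rw [h, sub_self]
    · exact congrFun (congrFun hf u₂) ⟨w, hw⟩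
  choose L hL using hfac
  let S : (U₂ → (Fin r → B) → K) →ₗ[K] (U → (Fin r → B) → K) :=
    { toFun := fun g u v => L v (R v g) u
      map_add' := fun g g' => by
        funext u v
        rw [map_add, map_add]
        rfl
      map_smul' := fun t g => by
        funext u v
        rw [map_smul, map_smul]
        rfl }
  have hS : ∀ f ∈ V r, S (app a r f) = f - P₀ f := by
    intro f hf
    funext u v
    exact congrFun (hL v ⟨f, hf⟩) u
  refine ⟨S, ?_, ?_⟩
  · intro g v hg u
    change L v (R v g) u = 0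
    have : R v g = 0 := by
      funext u₂ w
      exact hg w.1 w.2 u₂
    rw [this, map_zero]
    rfl
  · intro f hf
    rw [hS f hf]
    have h0 := hP0 f
    exact ⟨(V r).sub_mem hf (kerF_le a V r h0), by simpa using h0⟩

/-- Module EXT. -/
theorem extStmt [Fintype B] : ExtStmt K U U₂ B := by
  intro V hV a hker him
  obtain ⟨C₁, hS⟩ := liftStmt V hV a hker
  obtain ⟨C₀, hP⟩ := hker
  obtain ⟨C₂, hQ⟩ := him
  refine ⟨max (C₁ * (C₂ * 1)) (C₀ * max 1 (C₁ * (C₂ * 1))), fun r => ?_⟩
  obtain ⟨S, hS1, hS2⟩ := hS r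
  obtain ⟨P₀, hP0, hP1, hP2⟩ := hP r
  obtain ⟨Q, hQ0, hQ1, hQ2⟩ := hQ r
  let T : (U → (Fin r → B) → K) →ₗ[K] (U → (Fin r → B) → K) := S ∘ₗ (Q ∘ₗ app a r)
  have hT : Loc (C₁ * (C₂ * 1)) T := ((loc_app a r).comp hQ2).comp hS1
  refine ⟨T + P₀ ∘ₗ (LinearMap.id - T), ?_, ?_, ?_⟩
  · intro f
    have h1 : T f ∈ V r := by
      change S (Q (app a r f)) ∈ V r
      obtain ⟨h, hh, he⟩ := hQ0 (app a r f)
      rw [← he]
      exact (hS2 h hh).1
    exact (V r).add_mem h1 (kerF_le a V r (hP0 _))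
  · intro f hf
    have h1 : T f = S (app a r f) := by
      change S (Q (app a r f)) = _
      rw [hQ1 _ ⟨f, hf, rfl⟩]
    have h2 := (hS2 f hf).2
    rw [← h1] at h2
    change T f + P₀ (f - T f) = f
    rw [hP1 _ h2]
    abel
  · exact hT.add ((loc_id.sub hT).comp hP2)

/-- Module QUOT. -/
theorem quotStmt [Fintype B] : QuotStmt K U U₂ B := by
  intro V hV a hker hLS
  obtain ⟨C₁, hS⟩ := liftStmt V hV a hker
  obtain ⟨C₂, hQ⟩ := hLS
  refine ⟨1 * (C₂ * C₁), fun r => ?_⟩
  obtain ⟨S, hS1, hS2⟩ := hS r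
  obtain ⟨Q, hQ0, hQ1, hQ2⟩ := hQ r
  refine ⟨app a r ∘ₗ (Q ∘ₗ S), ?_, ?_, ?_⟩
  · intro g
    exact ⟨_, hQ0 (S g), rfl⟩
  · rintro _ ⟨f, hf, rfl⟩
    have h1 := (hS2 f hf).1
    have h2 := (hS2 f hf).2.2
    rw [SetLike.mem_coe, LinearMap.mem_ker, map_sub, sub_eq_zero] at h2
    rw [LinearMap.comp_apply, LinearMap.comp_apply, hQ1 _ h1]
    exact h2.symm
  · exact (hS1.comp hQ2).comp (loc_app a r)

/-- Local extension, for a family that has local projections. -/
theorem localExt [Fintype B] (V : Fam K U B) (hV : SubstClosed V) (hLS : IsLS V) :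
    ∃ k₀, ∀ k, k₀ ≤ k → ∀ (r : ℕ), 0 < r → ∀ y : U → (Fin r → B) → K, ∃ f ∈ V r,
      ∀ v : Fin r → B, (∀ τ : Fin r → Fin k, IsChart v τ → (fun u b => y u (b ∘ τ)) ∈ V k) →
        ∀ u, f u v = y u v := by
  classical
  obtain ⟨C, hC, hP⟩ := hLS.exists_pos
  refine ⟨Fintype.card B * C, fun k hk r hr y => ?_⟩
  obtain ⟨P, hP0, hP1, hP2⟩ := hP r
  refine ⟨P y, hP0 y, fun v hv u => ?_⟩
  -- the same hypothesis for the smaller value of `k`
  have hv' : ∀ τ : Fin r → Fin (Fintype.card B * C), IsChart v τ →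
      (fun u b => y u (b ∘ τ)) ∈ V (Fintype.card B * C) := by
    intro τ hτ
    have h1 : IsChart v (Fin.castLE hk ∘ τ) := fun i j hij hvv => hτ i j hij hvv
    have h2 := hV k (Fintype.card B * C)
      (fun i => if h : (i : ℕ) < Fintype.card B * C then ⟨i, h⟩ else τ ⟨0, hr⟩) _ (hv _ h1)
    have h3 : (fun i : Fin k => if h : (i : ℕ) < Fintype.card B * C then
        (⟨i, h⟩ : Fin (Fintype.card B * C)) else τ ⟨0, hr⟩) ∘ Fin.castLE hk ∘ τ = τ := by
      funext i
      have : ((Fin.castLE hk (τ i) : Fin k) : ℕ) < Fintype.card B * C := (τ i).2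
      simp only [comp_apply]
      rw [dif_pos this]
      rfl
    have h4 : (fun u (b : Fin (Fintype.card B * C) → B) => y u (b ∘ τ)) = fun u b => y u
        ((b ∘ fun i : Fin k => if h : (i : ℕ) < Fintype.card B * C then
          (⟨i, h⟩ : Fin (Fintype.card B * C)) else τ ⟨0, hr⟩) ∘ Fin.castLE hk ∘ τ) := by
      funext u b
      rw [comp_assoc, h3]
    rw [h4]
    exact h2
  obtain ⟨ι, hι, c, σ, τ, hτ, H⟩ := omegaStmt B C r v hr
  let s : ι → Fin r → Fin r := fun j => σ j ∘ τ j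
  have h1 : om c s y ∈ V r := om_mem c s y fun j => hV _ r (σ j) _ (hv' (τ j) (hτ j))
  have h2 : ∀ w, Cx C v w → ∀ u, om c s y u w = y u w := by
    intro w hw u
    rw [om_apply]
    exact (H w hw K inferInstance (y u)).symm
  have h4 := hP2 (y - om c s y) v (fun w hw u => by
    simp only [Pi.sub_apply]
    rw [h2 w hw u, sub_self]) u
  rw [map_sub, hP1 _ h1] at h4
  simp only [Pi.sub_apply] at h4
  rw [h2 v (Cx.refl hC v) u] at h4
  exact sub_eq_zero.1 h4

/-- A family closed under substitution of variables is a system without constants and with one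
colour. -/
theorem SubstClosed.isSys {V : Fam K U B} (hV : SubstClosed V) :
    IsSys (∅ : Set B) (fun _ => 0) V := by
  constructor
  · intro r r' σ hσ f hf
    have h1 : ∀ i, ∃ j, σ i = Sum.inl j := by
      intro i
      rcases h : σ i with j | b
      · exact ⟨j, rfl⟩
      · exact (hσ i b h).elim
    choose s hs using h1
    have h2 := hV r r' s f hf
    have h3 : (fun u v => f u (sb σ v)) = fun u (v : Fin r' → B) => f u (v ∘ s) := by
      funext u v
      congr 1
      funext i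
      simp [sb, hs i]
    rw [h3]
    exact h2
  · intro r θ f hf
    have : (fun u v => θ ((fun _ => 0) ∘ v) * f u v) = (θ fun _ => 0) • f := by
      funext u v
      rfl
    rw [this]
    exact (V r).smul_mem _ hf

/-- Module LOCALEXT. -/
theorem localExtStmt [Fintype B] (h : AllLSStmt K U B) : LocalExtStmt K U B :=
  fun V hV => localExt V hV (h ∅ (fun _ => 0) V hV.isSys)

end Pool.Agent.Lib.MP2ea600.LS
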