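import Pool.Agent.Lib.MP_2ea600_lc.Rules2

/-!
# Linear systems: all systems have local projections (MP_2ea600_lc)
-/

namespace Pool.Agent.Lib.MP2ea600.LS

open Function

variable {K U U₂ B : Type} [Field K] {L : Set B} {c : B → ℕ} {V W : Fam K U B}

/-- The facts about families used in the proof of the main theorem. -/
structure Tools (K : Type) [Field K] : Prop where
  ext : ∀ (U U₂ B : Type) [Finite U] [Finite U₂] [Finite B], ExtStmt K U U₂ B
  quot : ∀ (U U₂ B : Type) [Finite U] [Finite U₂] [Finite B], QuotStmt K U U₂ B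
  dcc : ∀ (U B : Type) [Finite U] [Finite B], DccStmt K U B

/-- All subsystems have local projections. -/
def Good (L : Set B) (c : B → ℕ) (V : Fam K U B) : Prop :=
  IsSys L c V ∧ ∀ W ≤ V, IsSys L c W → IsLS W

theorem Good.isLS (h : Good L c V) : IsLS V := h.2 V le_rfl h.1

theorem Good.mono (h : Good L c V) (hW : IsSys L c W) (hle : W ≤ V) : Good L c W :=
  ⟨hW, fun W' h1 h2 => h.2 W' (h1.trans hle) h2⟩

theorem Good.ext (T : Tools K) [Finite U] [Finite U₂] [Finite B] (hV : IsSys L c V)
    (a : (U → K) →ₗ[K] (U₂ → K)) (h1 : Good L c (kerF a V)) (h2 : Good L c (mapF a V)) :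
    Good L c V :=
  ⟨hV, fun W hW hW' => T.ext U U₂ B W hW'.substClosed a
    (h1.2 _ (kerF_mono a hW) (hW'.kerF a)) (h2.2 _ (mapF_mono a hW) (hW'.mapF a))⟩

theorem Good.map (T : Tools K) [Finite U] [Finite U₂] [Finite B] (h : Good L c V)
    (a : (U → K) →ₗ[K] (U₂ → K)) : Good L c (mapF a V) := by
  refine ⟨h.1.mapF a, fun W hW hW' => ?_⟩
  let V' : Fam K U B := fun r => V r ⊓ (W r).comap (app a r)
  have hV' : IsSys L c V' := by
    constructor
    · rintro r r' σ hσ f ⟨hf, hf'⟩
      exact ⟨h.1.subst r r' σ hσ f hf, hW'.subst r r' σ hσ _ hf'⟩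
    · rintro r θ f ⟨hf, hf'⟩
      refine ⟨h.1.mul r θ f hf, ?_⟩
      have := hW'.mul r θ _ hf'
      show app a r _ ∈ W r
      convert this using 1
      funext u v
      exact congrFun (a.map_smul (θ (c ∘ v)) fun u => f u v) u
  have hle : V' ≤ V := fun r => inf_le_left
  have hmap : mapF a V' = W := by
    funext r
    ext g
    constructor
    · rintro ⟨f, hf, rfl⟩
      exact hf.2
    · intro hg
      obtain ⟨f, hf, rfl⟩ := hW r hg
      exact ⟨f, ⟨hf, hg⟩, rfl⟩
  rw [← hmap]
  exact T.quot U U₂ B V' hV'.substClosed a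
    (h.2 _ ((kerF_le a V').trans hle) (hV'.kerF a)) (h.2 _ hle hV')

theorem isSys_bot : IsSys L c (⊥ : Fam K U B) := by
  constructor
  · intro r r' σ _ f hf
    have : f = 0 := by simpa using hf
    subst this
    exact Submodule.zero_mem _
  · intro r θ f hf
    have : f = 0 := by simpa using hf
    subst this
    have h0 : (fun (u : U) (v : Fin r → B) => θ (c ∘ v) * (0 : U → (Fin r → B) → K) u v) = 0 := by
      funext u v
      simp
    rw [h0]
    exact Submodule.zero_mem _

theorem good_bot : Good L c (⊥ : Fam K U B) := by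
  refine ⟨isSys_bot, fun W hW _ => ?_⟩
  have : W = ⊥ := le_bot_iff.1 hW
  rw [this]
  exact isLS_bot

theorem isSys_inf {W : Fam K U B} (h : IsSys L c V) (h' : IsSys L c W) :
    IsSys L c (fun r => V r ⊓ W r) :=
  ⟨fun r r' σ hσ f hf => ⟨h.subst r r' σ hσ f hf.1, h'.subst r r' σ hσ f hf.2⟩,
    fun r θ f hf => ⟨h.mul r θ f hf.1, h'.mul r θ f hf.2⟩⟩

/-- Functions of colour-free systems: the base case. -/
theorem isLS_of_injective [Finite B] (h : IsSys L c V) (hc : Injective c) : IsLS V := by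
  classical
  refine ⟨1, fun r => ?_⟩
  let evw : (v : Fin r → B) → (U → (Fin r → B) → K) →ₗ[K] (U → K) := fun v =>
    { toFun := fun f u => f u v
      map_add' := fun _ _ => rfl
      map_smul' := fun _ _ => rfl }
  have h1 : ∀ v : Fin r → B, ∃ π : (U → K) →ₗ[K] (U → K),
      (∀ f, π f ∈ (V r).map (evw v)) ∧ ∀ f ∈ (V r).map (evw v), π f = f := by
    intro v
    obtain ⟨g, hg⟩ := LinearMap.exists_leftInverse_of_injective ((V r).map (evw v)).subtype
      (Submodule.ker_subtype _)
    refine ⟨((V r).map (evw v)).subtype ∘ₗ g, fun f => (g f).2, fun f hf => ?_⟩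
    have := congrArg (fun l => l ⟨f, hf⟩) hg
    simp only [LinearMap.comp_apply, Submodule.subtype_apply, LinearMap.id_apply] at this ⊢
    rw [this]
  choose π hπ1 hπ2 using h1
  let P : (U → (Fin r → B) → K) →ₗ[K] (U → (Fin r → B) → K) :=
    { toFun := fun f u v => π v (evw v f) u
      map_add' := by
        intro f g
        funext u v
        simp
      map_smul' := by
        intro t f
        funext u v
        simp }
  have hP : ∀ f u v, P f u v = π v (evw v f) u := fun _ _ _ => rfl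
  refine ⟨P, ?_, ?_, ?_⟩
  · intro f
    have h2 : ∀ v, ∃ g ∈ V r, evw v g = π v (evw v f) := fun v => hπ1 v (evw v f)
    choose g hg hg' using h2
    have h3 := h.piecewise (fun χ => if hχ : ∃ v : Fin r → B, c ∘ v = χ then g hχ.choose else 0)
      (fun χ => by
        split_ifs with hχ
        · exact hg _
        · exact Submodule.zero_mem _)
    convert h3 using 3
    rename_i u v
    have hχ : ∃ v' : Fin r → B, c ∘ v' = c ∘ v := ⟨v, rfl⟩
    have h4 : hχ.choose = v := by
      funext i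
      exact hc (congrFun hχ.choose_spec i)
    rw [dif_pos hχ, h4, hP, ← hg']
    rfl
  · intro f hf
    funext u v
    rw [hP, hπ2 v _ ⟨f, hf, rfl⟩]
    rfl
  · intro f v hf u
    have : evw v f = 0 := funext fun u => hf v (Cx.refl one_pos v) u
    rw [hP, this, map_zero]
    rfl

section trick

variable [Finite U] [Finite B]

omit [Finite U] [Finite B] in
theorem RS_diff_mem (h : IsSys L c V) {S : Set B} {a a' : B} (ha' : a' ∈ L)
    (honto : mapF (ev K U a) (RS V S) = V) {r : ℕ} {F : U × B → (Fin r → B) → K}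
    (hF : F ∈ RS V S r) :
    app (ev K U a - ev K U a') r F ∈ mapF (ev K U a) (RS V (S \ {a'})) r := by
  have h1 : (fun u (w : Fin (r + 1) → B) =>
      F (u, w (Fin.last r)) (Fin.init (α := fun _ => B) w)) ∈ V (r + 1) := hF.1
  rw [← honto] at h1
  obtain ⟨G, hG, hGF⟩ := h1
  have e1 : (fun p v => G p (Fin.snoc (α := fun _ => B) v p.2)) ∈ RS V S r :=
    RS_subst h hG (fun x v => Fin.snoc (α := fun _ => B) v x) fun i => by
      refine Fin.lastCases ?_ (fun j => ?_) i
      · exact Or.inr (Or.inl fun x v => by simp)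
      · exact Or.inl ⟨j, fun x v => by simp⟩
  have e2 : (fun p v => G p (Fin.snoc (α := fun _ => B) v a')) ∈ RS V S r :=
    RS_subst h hG (fun x v => Fin.snoc (α := fun _ => B) v a') fun i => by
      refine Fin.lastCases ?_ (fun j => ?_) i
      · exact Or.inr (Or.inr ⟨a', ha', fun x v => by simp⟩)
      · exact Or.inl ⟨j, fun x v => by simp⟩
  have e3 := (RS V S r).sub_mem e1 e2
  refine ⟨_, ⟨e3.1, fun u x hx v => ?_⟩, ?_⟩
  · by_cases hxa : x = a'
    · subst hxa
      simp
    · exact e3.2 u x (fun hxS => hx ⟨hxS, hxa⟩) v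
  · funext u v
    have h2 : ∀ (x : B), G (u, a) (Fin.snoc (α := fun _ => B) v x) = F (u, x) v := by
      intro x
      have h3 : G (u, a) (Fin.snoc (α := fun _ => B) v x) =
          F (u, (Fin.snoc (α := fun _ => B) v x : Fin (r + 1) → B) (Fin.last r))
            (Fin.init (α := fun _ => B) (Fin.snoc (α := fun _ => B) v x)) :=
        congrFun (congrFun hGF u) (Fin.snoc (α := fun _ => B) v x)
      simpa using h3
    show G (u, a) (Fin.snoc (α := fun _ => B) v a) - G (u, a) (Fin.snoc (α := fun _ => B) v a')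
      = F (u, a) v - F (u, a') v
    rw [h2, h2]

theorem trick (T' : Tools K) (h : IsSys L c V) {S : Set B} (hSL : S ⊆ L)
    (hbad : ¬ Good L c (RS V S)) (hsmall : ∀ a ∈ S, Good L c (RS V (S \ {a})))
    (hproper : ∀ W ≤ V, IsSys L c W → W ≠ V → Good L c W) {r : ℕ} {g : U → (Fin r → B) → K}
    (hg : g ∈ V r) : ∃ F ∈ RS V S r, ∀ u, ∀ x ∈ S, ∀ v, F (u, x) v = g u v := by
  classical
  have honto : ∀ a ∈ S, mapF (ev K U a) (RS V S) = V := by
    intro a ha
    by_contra hne
    refine hbad (Good.ext T' (RS_isSys h S) (ev K U a) ?_ ?_)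
    · rw [ker_ev_RS]
      exact hsmall a ha
    · exact hproper _ (map_ev_RS_le h S (hSL ha)) ((RS_isSys h S).mapF _) hne
  rcases S.eq_empty_or_nonempty with hS | ⟨a, ha⟩
  · exfalso
    apply hbad
    rw [hS, RS_empty]
    exact good_bot
  let RC : Finset B → Fam K (U × B) B := fun T r =>
    RS V S r ⊓ ⨅ a' ∈ T, LinearMap.ker (app (B := B) (ev K U a - ev K U a') r)
  have hRC : ∀ (T : Finset B) (r : ℕ) (F : U × B → (Fin r → B) → K), F ∈ RC T r ↔
      F ∈ RS V S r ∧ ∀ a' ∈ T, app (ev K U a - ev K U a') r F = 0 := by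
    intro T r F
    simp only [RC, Submodule.mem_inf, Submodule.mem_iInf, LinearMap.mem_ker]
  have hsys : ∀ T : Finset B, IsSys L c (RC T) := by
    intro T
    constructor
    · intro r r' σ hσ F hF
      rw [hRC] at hF ⊢
      refine ⟨(RS_isSys h S).subst r r' σ hσ F hF.1, fun a' ha' => ?_⟩
      funext u v
      exact congrFun (congrFun (hF.2 a' ha') u) (sb σ v)
    · intro r θ F hF
      rw [hRC] at hF ⊢
      refine ⟨(RS_isSys h S).mul r θ F hF.1, fun a' ha' => ?_⟩
      funext u v
      have h1 := congrFun (congrFun (hF.2 a' ha') u) v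
      have h2 : F (u, a) v - F (u, a') v = 0 := h1
      show θ (c ∘ v) * F (u, a) v - θ (c ∘ v) * F (u, a') v = 0
      rw [← mul_sub, h2, mul_zero]
  have hnot : ∀ T : Finset B, (∀ a' ∈ T, a' ∈ S) → ¬ Good L c (RC T) := by
    intro T
    induction T using Finset.induction_on with
    | empty =>
      intro _
      have : RC ∅ = RS V S := by
        funext r
        ext F
        rw [hRC]
        simp
      rwa [this]
    | insert a' T _ ih =>
      intro hT hgood
      refine ih (fun b hb => hT b (Finset.mem_insert_of_mem hb))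
        (Good.ext T' (hsys T) (ev K U a - ev K U a') ?_ ?_)
      · have : kerF (ev K U a - ev K U a') (RC T) = RC (insert a' T) := by
          funext r
          ext F
          rw [hRC]
          constructor
          · rintro ⟨h1, h2⟩
            have h1' := (hRC T r F).1 h1
            refine ⟨h1'.1, fun b hb => ?_⟩
            rcases Finset.mem_insert.1 hb with rfl | hb
            · exact h2
            · exact h1'.2 b hb
          · rintro ⟨h1, h2⟩
            exact ⟨(hRC T r F).2 ⟨h1, fun b hb => h2 b (Finset.mem_insert_of_mem hb)⟩,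
              h2 a' (Finset.mem_insert_self _ _)⟩
        rw [this]
        exact hgood
      · have ha'S := hT a' (Finset.mem_insert_self _ _)
        refine ((hsmall a' ha'S).map T' (ev K U a)).mono ((hsys T).mapF _) ?_
        rintro r _ ⟨F, hF, rfl⟩
        exact RS_diff_mem h (hSL ha'S) (honto a ha) ((hRC T r F).1 hF).1
  have := Fintype.ofFinite B
  let T₀ : Finset B := Finset.univ.filter fun b => b ∈ S
  have hT₀ : ∀ b, b ∈ T₀ ↔ b ∈ S := fun b => by simp [T₀]
  have h1 : ∀ (r : ℕ) (F : U × B → (Fin r → B) → K), F ∈ RC T₀ r → ∀ u, ∀ x ∈ S, ∀ v,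
      F (u, x) v = F (u, a) v := by
    intro r F hF u x hx v
    have h2 := ((hRC T₀ r F).1 hF).2 x ((hT₀ x).2 hx)
    have h3 : F (u, a) v - F (u, x) v = 0 := congrFun (congrFun h2 u) v
    exact (sub_eq_zero.1 h3).symm
  have h2 : mapF (ev K U a) (RC T₀) = V := by
    by_contra hne
    refine hnot T₀ (fun b hb => (hT₀ b).1 hb) (Good.ext T' (hsys T₀) (ev K U a) ?_ ?_)
    · have : kerF (ev K U a) (RC T₀) = ⊥ := by
        funext r
        refine (eq_bot_iff (α := Submodule K (U × B → (Fin r → B) → K))).2 ?_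
        rintro F ⟨hF, hF'⟩
        have h0 : F = 0 := by
          funext ⟨u, x⟩ v
          by_cases hx : x ∈ S
          · rw [h1 r F hF u x hx v]
            exact congrFun (congrFun hF' u) v
          · exact ((hRC T₀ r F).1 hF).1.2 u x hx v
        simp [h0]
      rw [this]
      exact good_bot
    · refine hproper _ ?_ ((hsys T₀).mapF _) hne
      refine le_trans (mapF_mono _ ?_) (map_ev_RS_le h S (hSL ha))
      exact fun r => inf_le_left
  rw [← h2] at hg
  obtain ⟨F, hF, hFg⟩ := hg
  refine ⟨F, ((hRC T₀ r F).1 hF).1, fun u x hx v => ?_⟩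
  rw [h1 r F hF u x hx v]
  exact congrFun (congrFun hFg u) v

omit [Finite U] in
theorem refine_colours (h : IsSys L c V) {S : Set B}
    (hS : ∀ (r : ℕ), ∀ g ∈ V r, ∃ F ∈ RS V S r, ∀ u, ∀ x ∈ S, ∀ v, F (u, x) v = g u v)
    (c' : B → ℕ) (hc' : ∀ b b', c' b = c' b' ↔ (c b = c b' ∧ (b ∈ S ↔ b' ∈ S))) :
    IsSys L c' V := by
  classical
  have h1 : ∀ (r : ℕ) (i : Fin r), ∀ f ∈ V r, (fun u v => if v i ∈ S then f u v else 0) ∈ V r := by
    intro r i f hf
    obtain ⟨F, hF, hFf⟩ := hS r f hf
    have := RS_eval h hF (fun v => v) (fun j => Or.inl ⟨j, fun _ => rfl⟩) (fun v => v i)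
      (Or.inl ⟨i, fun _ => rfl⟩)
    convert this using 3
    split_ifs with hv
    · exact (hFf _ _ hv _).symm
    · exact (hF.2 _ _ hv _).symm
  have h2 : ∀ (r : ℕ) (i : Fin r) (b : B), ∀ f ∈ V r,
      (fun u v => if (v i ∈ S ↔ b ∈ S) then f u v else 0) ∈ V r := by
    intro r i b f hf
    by_cases hb : b ∈ S
    · simpa [hb] using h1 r i f hf
    · have := (V r).sub_mem hf (h1 r i f hf)
      convert this using 3
      simp only [hb, iff_false, Pi.sub_apply]
      split_ifs <;> simp_all
  have h3 : ∀ (r : ℕ) (v₀ : Fin r → B) (T : Finset (Fin r)), ∀ f ∈ V r,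
      (fun u v => if (∀ i ∈ T, (v i ∈ S ↔ v₀ i ∈ S)) then f u v else 0) ∈ V r := by
    intro r v₀ T
    induction T using Finset.induction_on with
    | empty => intro f hf; simpa using hf
    | insert i T _ ih =>
      intro f hf
      have := h2 r i (v₀ i) _ (ih f hf)
      convert this using 3
      simp only [Finset.forall_mem_insert]
      split_ifs <;> simp_all
  refine ⟨h.subst, fun r θ f hf => ?_⟩
  have := Fintype.ofFinite B
  have h4 : (fun u v => θ (c' ∘ v) * f u v) =
      ∑ χ ∈ (Finset.univ.image fun v : Fin r → B => c' ∘ v),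
        fun u v => if c' ∘ v = χ then θ χ * f u v else 0 := by
    funext u v
    rw [Finset.sum_apply, Finset.sum_apply, Finset.sum_eq_single (c' ∘ v)]
    · simp
    · intro χ _ hχ
      rw [if_neg (Ne.symm hχ)]
    · intro hv
      exact absurd (Finset.mem_image_of_mem _ (Finset.mem_univ v)) hv
  rw [h4]
  refine Submodule.sum_mem _ fun χ hχ => ?_
  obtain ⟨v₀, -, rfl⟩ := Finset.mem_image.1 hχ
  have h5 := h3 r v₀ Finset.univ _ (h.mul' hf fun χ => χ = c ∘ v₀)
  have h6 := (V r).smul_mem (θ (c' ∘ v₀)) h5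
  convert h6 using 1
  funext u v
  have h7 : (c' ∘ v = c' ∘ v₀) ↔ ((∀ i, (v i ∈ S ↔ v₀ i ∈ S)) ∧ c ∘ v = c ∘ v₀) := by
    constructor
    · intro hv
      exact ⟨fun i => ((hc' _ _).1 (congrFun hv i)).2, funext fun i => ((hc' _ _).1 (congrFun hv i)).1⟩
    · rintro ⟨hv, hv'⟩
      exact funext fun i => (hc' _ _).2 ⟨congrFun hv' i, hv i⟩
  simp only [Pi.smul_apply, smul_eq_mul, Finset.mem_univ, true_imp_iff]
  by_cases h8 : c' ∘ v = c' ∘ v₀
  · rw [if_pos h8, if_pos (h7.1 h8).1, if_pos (h7.1 h8).2]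
  · rw [if_neg h8]
    by_cases h9 : ∀ i, (v i ∈ S ↔ v₀ i ∈ S)
    · rw [if_pos h9, if_neg fun h10 => h8 (h7.2 ⟨h9, h10⟩), mul_zero]
    · rw [if_neg h9, mul_zero]

end trick

/-- The number of pairs of distinct letters of the same colour. -/
noncomputable def nP (c : B → ℕ) : ℕ := {p : B × B | p.1 ≠ p.2 ∧ c p.1 = c p.2}.ncard

theorem nP_sub_lt [Finite B] (c : B → ℕ) (Q : B → Prop) {x y : B} (hxy : x ≠ y)
    (hc : c x = c y) (hnot : ¬ Q x ∨ ¬ Q y) :
    nP (c ∘ (Subtype.val : {b // Q b} → B)) < nP c := by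
  unfold nP
  rw [← Set.ncard_image_of_injective _ (Injective.prodMap (Subtype.val_injective (p := Q))
    (Subtype.val_injective (p := Q)))]
  refine Set.ncard_lt_ncard ⟨?_, ?_⟩ (Set.toFinite _)
  · rintro _ ⟨⟨a, b⟩, ⟨h1, h2⟩, rfl⟩
    exact ⟨fun h => h1 (Subtype.ext h), h2⟩
  · intro hsub
    obtain ⟨⟨a, b⟩, -, h2⟩ := hsub (show (x, y) ∈ _ from ⟨hxy, hc⟩)
    simp only [Prod.map_apply, Prod.mk.injEq] at h2
    rcases hnot with h | h
    · exact h (h2.1 ▸ a.2)
    · exact h (h2.2 ▸ b.2)

theorem nP_refine_lt [Finite B] {c c' : B → ℕ} (hc : ∀ b b', c' b = c' b' → c b = c b') {x y : B}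
    (hxy : x ≠ y) (h1 : c x = c y) (h2 : c' x ≠ c' y) : nP c' < nP c := by
  refine Set.ncard_lt_ncard ⟨?_, ?_⟩ (Set.toFinite _)
  · rintro ⟨a, b⟩ ⟨h3, h4⟩
    exact ⟨h3, hc _ _ h4⟩
  · intro hsub
    exact h2 (hsub (show (x, y) ∈ _ from ⟨hxy, h1⟩)).2

theorem all_aux (T : Tools K) (N : ℕ) : ∀ (m : ℕ) (U B : Type) [Finite U] [Finite B] (L : Set B)
    (c : B → ℕ) (V : Fam K U B), nP c = N → (Lᶜ).ncard = m → IsSys L c V → IsLS V := by
  induction N using Nat.strong_induction_on with
  | _ N ihN =>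
  intro m
  induction m using Nat.strong_induction_on with
  | _ m ihm =>
  intro U B _ _ L c V₁ hN hm hV₁
  classical
  by_cases hinj : Injective c
  · exact isLS_of_injective hV₁ hinj
  obtain ⟨x, y, hc, hxy⟩ : ∃ x y, c x = c y ∧ x ≠ y := by
    by_contra hcon
    push Not at hcon
    exact hinj fun x y h => hcon x y h
  by_contra hbad₁
  obtain ⟨V, ⟨hV, hbad⟩, hmin⟩ := T.dcc U B {W : Fam K U B | IsSys L c W ∧ ¬ IsLS W}
    (fun W hW => hW.1.substClosed) ⟨V₁, hV₁, hbad₁⟩
  have hproper : ∀ W ≤ V, IsSys L c W → W ≠ V → Good L c W := by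
    intro W hW hW' hne
    refine ⟨hW', fun W' h1 h2 => ?_⟩
    by_contra h3
    have h4 := hmin W' ⟨h2, h3⟩ (h1.trans hW)
    exact hne (le_antisymm hW (h4 ▸ h1))
  set γ := c x with hγ
  -- a bad set of constants
  have key : ∃ S₀ : Set B, S₀ ⊆ L ∧ (∀ b ∈ S₀, c b = γ) ∧ (∃ z, c z = γ ∧ z ∉ S₀) ∧
      ¬ IsLS (RS V S₀) := by
    by_cases hcase : ∀ b, c b = γ → b ∈ L
    · refine ⟨{b | c b = γ ∧ b ≠ x}, fun b hb => hcase b hb.1, fun b hb => hb.1,
        ⟨x, rfl, fun h => h.2 rfl⟩, fun hls => hbad (rule_one hV (hcase x rfl) hls ?_)⟩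
      refine ihN _ ?_ _ U _ _ _ _ rfl rfl (resF_isSys hV _)
      rw [← hN]
      exact nP_sub_lt c _ hxy hc (Or.inr (by
        rintro (h | h)
        · exact h hc.symm
        · exact hxy h.symm))
    · push Not at hcase
      obtain ⟨z, hz, hzL⟩ := hcase
      refine ⟨{b | c b = γ ∧ b ∈ L}, fun b hb => hb.2, fun b hb => hb.1,
        ⟨z, hz, fun h => hzL h.2⟩, fun hls => hbad (rule_two (γ := γ) hV ?_ ?_)⟩
      · have := Fintype.ofFinite B
        have h1 : ∀ Q : Finset B, (∀ b ∈ Q, c b = γ ∧ b ∉ L) →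
            IsLS (RS V ({b | c b = γ ∧ b ∈ L} ∪ Q)) := by
          intro Q
          induction Q using Finset.induction_on with
          | empty => intro _; simpa using hls
          | insert s Q hs ih =>
            intro hQ
            have hs' := hQ s (Finset.mem_insert_self _ _)
            refine T.ext (U × B) U B _ (RS_isSys hV _).substClosed (ev K U s) ?_ ?_
            · rw [ker_ev_RS]
              have h2 : (({b | c b = γ ∧ b ∈ L} ∪ ((insert s Q : Finset B) : Set B)) \ {s}) =
                  {b | c b = γ ∧ b ∈ L} ∪ (Q : Set B) := by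
                ext b
                simp only [Finset.coe_insert, Set.mem_sdiff, Set.mem_union, Set.mem_ofPred_eq,
                  Set.mem_insert_iff, Finset.mem_coe, Set.mem_singleton_iff]
                constructor
                · rintro ⟨h | h | h, h'⟩
                  · exact Or.inl h
                  · exact absurd h h'
                  · exact Or.inr h
                · rintro (h | h)
                  · exact ⟨Or.inl h, fun h' => hs'.2 (h' ▸ h.2)⟩
                  · exact ⟨Or.inr (Or.inr h), fun h' => hs (h' ▸ h)⟩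
              rw [h2]
              exact ih fun b hb => hQ b (Finset.mem_insert_of_mem hb)
            · refine ihm _ ?_ U B (insert s L) c _ hN rfl (map_ev_isSys hV _ s)
              rw [← hm]
              refine Set.ncard_lt_ncard ⟨?_, ?_⟩ (Set.toFinite _)
              · exact Set.compl_subset_compl.2 (Set.subset_insert _ _)
              · intro hsub
                exact hsub (show s ∈ Lᶜ from hs'.2) (Set.mem_insert _ _)
        have h2 := h1 (Finset.univ.filter fun b => c b = γ ∧ b ∉ L) (by simp)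
        have h3 : ({b | c b = γ ∧ b ∈ L} ∪
            ((Finset.univ.filter fun b => c b = γ ∧ b ∉ L : Finset B) : Set B)) =
            {b | c b = γ} := by
          ext b
          simp only [Finset.coe_filter, Finset.mem_univ, true_and, Set.mem_union,
            Set.mem_ofPred_eq]
          tauto
        rwa [h3] at h2
      · refine ihN _ ?_ _ U _ _ _ _ rfl rfl (resF_isSys hV _)
        rw [← hN]
        exact nP_sub_lt c _ hxy hc (Or.inl fun h => h rfl)
  obtain ⟨S₀, hS₀L, hS₀γ, ⟨z, hz, hzS₀⟩, hS₀⟩ := key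
  obtain ⟨S, hS⟩ := (Set.toFinite {S : Set B | S ⊆ S₀ ∧ ¬ Good L c (RS V S)}).exists_minimal
    ⟨S₀, subset_rfl, fun h => hS₀ h.isLS⟩
  obtain ⟨⟨hSS₀, hSbad⟩, hSmin⟩ := hS
  have hsmall : ∀ a ∈ S, Good L c (RS V (S \ {a})) := by
    intro a ha
    by_contra hcon
    have := hSmin (y := S \ {a}) ⟨Set.sdiff_subset.trans hSS₀, hcon⟩ Set.sdiff_subset
    exact (this ha).2 rfl
  have hSne : S.Nonempty := by
    rw [Set.nonempty_iff_ne_empty]
    intro h
    apply hSbad
    rw [h, RS_empty]
    exact good_bot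
  obtain ⟨a, ha⟩ := hSne
  have htrick := fun (r : ℕ) (g : U → (Fin r → B) → K) (hg : g ∈ V r) =>
    trick T hV (hSS₀.trans hS₀L) hSbad hsmall hproper hg
  have hc' : ∀ b b', 2 * c b + (if b ∈ S then 1 else 0) = 2 * c b' + (if b' ∈ S then 1 else 0) ↔
      (c b = c b' ∧ (b ∈ S ↔ b' ∈ S)) := by
    intro b b'
    constructor
    · intro h
      by_cases h1 : b ∈ S <;> by_cases h2 : b' ∈ S <;> simp only [h1, h2, if_true, if_false] at h ⊢
      · exact ⟨by omega, trivial⟩
      · omega
      · omega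
      · exact ⟨by omega, trivial⟩
    · rintro ⟨h1, h2⟩
      simp only [h1, h2]
  have hV' : IsSys L (fun b => 2 * c b + (if b ∈ S then 1 else 0)) V :=
    refine_colours hV htrick _ hc'
  refine hbad (ihN _ ?_ _ U B L _ V rfl rfl hV')
  rw [← hN]
  refine nP_refine_lt (fun b b' h => ((hc' b b').1 h).1) (x := a) (y := z)
    (fun h => hzS₀ (h ▸ hSS₀ ha)) ((hS₀γ a (hSS₀ ha)).trans hz.symm) fun h => ?_
  exact hzS₀ (hSS₀ ((((hc' a z).1 h).2).1 ha))

/-- All systems have local projections. -/
theorem all_isLS (T : Tools K) (U B : Type) [Finite U] [Finite B] : AllLSStmt K U B :=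
  fun L c V hV => all_aux T _ _ U B L c V rfl rfl hV

end Pool.Agent.Lib.MP2ea600.LS
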