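import Pool.Agent.Lib.MP_2ea600_lc.GHDefs
import Pool.Agent.Lib.MP_2ea600_lc.Group
import Pool.Agent.Lib.MP_2ea600_lc.MainLS
import Pool.Agent.Lib.MP_2ea600_lc.Lift
import Pool.Agent.Lib.MP_2ea600_lc.Dcc

/-!
# Module VSYS: correction of a polymorphism inside the classes of all types (MP_2ea600_lc)
-/

namespace Pool.Agent.Lib.MP2ea600

open Function

/-- All families closed under substitution of variables have local extension. -/
theorem localExt_all (K U B : Type) [Field K] [Finite U] [Finite B] : LS.LocalExtStmt K U B := by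
  have := Fintype.ofFinite B
  refine LS.localExtStmt (LS.all_isLS ⟨?_, ?_, ?_⟩ U B)
  · intro U U₂ B _ _ _
    have := Fintype.ofFinite B
    exact LS.extStmt
  · intro U U₂ B _ _ _
    have := Fintype.ofFinite B
    exact LS.quotStmt
  · intro U B _ _
    exact LS.dccStmt K U B

namespace VS

variable {A : Type} {Γ : Set (FinRel A)}

/-- The types. -/
abbrev Ty (Γ : Set (FinRel A)) (q : A → A → A → A) (p h : ℕ) : Type :=
  {t : Set A × (A → A → Prop) × (A → A → Prop) // IsTyp Γ q p h t.1 t.2.1 t.2.2}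

/-- Letters outside `S` are replaced by `a`. -/
noncomputable def rho (S : Set A) (a : A) {r : ℕ} (v : Fin r → A) : Fin r → A := by
  classical
  exact fun j => if v j ∈ S then v j else a

theorem rho_mem {S : Set A} {a : A} (ha : a ∈ S) {r : ℕ} (v : Fin r → A) (j : Fin r) :
    rho S a v j ∈ S := by
  unfold rho
  split_ifs with h
  · exact h
  · exact ha

theorem rho_eq {S : Set A} {a : A} {r : ℕ} {v : Fin r → A} (hv : ∀ j, v j ∈ S) :
    rho S a v = v := by
  funext j
  unfold rho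
  rw [if_pos (hv j)]

theorem rho_comp {S : Set A} {a : A} {r k : ℕ} (v : Fin k → A) (τ : Fin r → Fin k) :
    rho S a (v ∘ τ) = rho S a v ∘ τ := rfl

/-- The argument list `a; v`. -/
def cns {r : ℕ} (a : A) (v : Fin r → A) : Option (Fin r) → A := fun o => o.elim a v

@[simp] theorem cns_none {r : ℕ} (a : A) (v : Fin r → A) : cns a v none = a := rfl

@[simp] theorem cns_some {r : ℕ} (a : A) (v : Fin r → A) (i : Fin r) : cns a v (some i) = v i := rfl

theorem cns_eta {r : ℕ} (v : Option (Fin r) → A) : cns (v none) (fun i => v (some i)) = v := by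
  funext o
  cases o <;> rfl

/-- `f` is a polymorphism which is in the block of its first argument, for all types. -/
structure Ok (q : A → A → A → A) (p h : ℕ) (Γ : Set (FinRel A)) {r : ℕ}
    (f : (Option (Fin r) → A) → A) : Prop where
  pol : IsPol Γ f
  blk : ∀ t : Ty Γ q p h, ∀ a ∈ t.1.1, ∀ v : Fin r → A, (∀ j, v j ∈ t.1.1) →
    t.1.2.2 (f (cns a v)) a

section
variable {m : ℕ} {G : ℕ → A → A → A → A} {q : A → A → A → A} (hG : IsGumm Γ m G q) {p h : ℕ}
  {X : Ty Γ q p h → Type} (χ : ∀ t, X t → A → A → ZMod p)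

/-- The function given by `f`. -/
noncomputable def fn {r : ℕ} (f : (Option (Fin r) → A) → A) :
    (Σ t : Ty Γ q p h, A × X t) → (Fin r → A) → ZMod p := by
  classical
  exact fun u v => if u.2.1 ∈ u.1.1.1 then
    χ u.1 u.2.2 u.2.1 (f (cns u.2.1 (rho u.1.1.1 u.2.1 v))) else 0

theorem fn_pos {r : ℕ} (f : (Option (Fin r) → A) → A) (t : Ty Γ q p h) (i : X t) {a : A}
    (ha : a ∈ t.1.1) (v : Fin r → A) :
    fn χ f ⟨t, a, i⟩ v = χ t i a (f (cns a (rho t.1.1 a v))) := by
  unfold fn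
  rw [if_pos ha]

theorem fn_neg {r : ℕ} (f : (Option (Fin r) → A) → A) (t : Ty Γ q p h) (i : X t) {a : A}
    (ha : a ∉ t.1.1) (v : Fin r → A) : fn χ f ⟨t, a, i⟩ v = 0 := by
  unfold fn
  rw [if_neg ha]

variable (hχ : ∀ t : Ty Γ q p h, ∀ i : X t, ∀ a ∈ t.1.1, ∀ x y, t.1.2.2 x a → t.1.2.2 y a →
  χ t i a (q x a y) = χ t i a x + χ t i a y)

theorem ok_zero (r : ℕ) : Ok q p h Γ (fun v : Option (Fin r) → A => v none) :=
  ⟨isPol_proj _, fun t a ha _ _ => t.2.ab.congμ.refl a ha⟩

include hG in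
theorem ok_add {r : ℕ} {f g : (Option (Fin r) → A) → A} (hf : Ok q p h Γ f) (hg : Ok q p h Γ g) :
    Ok q p h Γ (fun v => q (f v) (v none) (g v)) := by
  refine ⟨Grp.pol3 hG.polq hf.pol (isPol_proj _) hg.pol, fun t a ha v hv => ?_⟩
  exact Grp.block hG t.2.ab (hf.blk t a ha v hv) (hg.blk t a ha v hv)

include hG hχ in
theorem fn_zero (r : ℕ) : fn χ (fun v : Option (Fin r) → A => v none) = 0 := by
  funext ⟨t, a, i⟩ v
  by_cases ha : a ∈ t.1.1
  · rw [fn_pos χ _ t i ha]
    have haa := t.2.ab.congμ.refl a ha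
    have h1 := hχ t i a ha a a haa haa
    rw [hG.qleft] at h1
    have h2 : χ t i a a = 0 := by
      have := h1
      rwa [left_eq_add] at this
    exact h2
  · rw [fn_neg χ _ t i ha]
    rfl

include hχ in
theorem fn_add {r : ℕ} {f g : (Option (Fin r) → A) → A} (hf : Ok q p h Γ f)
    (hg : Ok q p h Γ g) :
    fn χ (fun v => q (f v) (v none) (g v)) = fn χ f + fn χ g := by
  funext ⟨t, a, i⟩ v
  simp only [Pi.add_apply]
  by_cases ha : a ∈ t.1.1
  · rw [fn_pos χ _ t i ha, fn_pos χ _ t i ha, fn_pos χ _ t i ha]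
    exact hχ t i a ha _ _ (hf.blk t a ha _ (rho_mem ha v)) (hg.blk t a ha _ (rho_mem ha v))
  · rw [fn_neg χ _ t i ha, fn_neg χ _ t i ha, fn_neg χ _ t i ha, add_zero]

/-- The family. -/
noncomputable def fam [Fact p.Prime] : LS.Fam (ZMod p) (Σ t : Ty Γ q p h, A × X t) A := fun r =>
  { carrier := {F | ∃ f, Ok q p h Γ f ∧ fn χ f = F}
    add_mem' := by
      rintro _ _ ⟨f, hf, rfl⟩ ⟨g, hg, rfl⟩
      exact ⟨_, ok_add hG hf hg, fn_add χ hχ hf hg⟩
    zero_mem' := ⟨_, ok_zero r, fn_zero hG χ hχ r⟩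
    smul_mem' := by
      rintro c _ ⟨f, hf, rfl⟩
      have h1 : ∀ n : ℕ, ∃ g, Ok q p h Γ g ∧ fn χ g = (n : ZMod p) • fn χ f := by
        intro n
        induction n with
        | zero => exact ⟨_, ok_zero r, by rw [fn_zero hG χ hχ, Nat.cast_zero, zero_smul]⟩
        | succ n ih =>
          obtain ⟨g, hg, hg'⟩ := ih
          exact ⟨_, ok_add hG hg hf, by
            rw [fn_add χ hχ hg hf, hg', Nat.cast_succ, add_smul, one_smul]⟩
      obtain ⟨g, hg, hg'⟩ := h1 c.val
      refine ⟨g, hg, ?_⟩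
      rw [hg', ZMod.natCast_zmod_val] }

theorem mem_fam [Fact p.Prime] {r : ℕ} {F : (Σ t : Ty Γ q p h, A × X t) → (Fin r → A) → ZMod p} :
    F ∈ fam hG χ hχ r ↔ ∃ f, Ok q p h Γ f ∧ fn χ f = F := Iff.rfl

theorem fam_subst [Fact p.Prime] : LS.SubstClosed (fam hG χ hχ) := by
  rintro r r' σ _ ⟨f, hf, rfl⟩
  refine ⟨fun v => f (cns (v none) fun i => v (some (σ i))), ⟨?_, ?_⟩, ?_⟩
  · have := hf.pol.reindex (Option.map σ)
    convert this using 2
    rename_i v
    congr 1
    funext o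
    cases o <;> rfl
  · intro t a ha v hv
    exact hf.blk t a ha (v ∘ σ) fun j => hv _
  · funext ⟨t, a, i⟩ v
    by_cases ha : a ∈ t.1.1
    · rw [fn_pos χ _ t i ha, fn_pos χ _ t i ha]
      rfl
    · rw [fn_neg χ _ t i ha, fn_neg χ _ t i ha]

end

end VS

/-- Module VSYS. -/
theorem vsysStmt {A : Type} [Finite A] (Γ : Set (FinRel A)) : VSysStmt Γ := by
  classical
  intro m G q hG p h hp
  have hpF : Fact p.Prime := ⟨hp⟩
  have h1 : ∀ t : VS.Ty Γ q p h, _ := fun t =>
    groupStmt3 Γ m G q hG t.1.1 t.1.2.1 t.1.2.2 t.2.ab p hp t.2.exp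
  choose X hX χ hχ hχ' using h1
  have hfin : Finite (VS.Ty Γ q p h) := inferInstance
  have hfinU : Finite (Σ t : VS.Ty Γ q p h, A × X t) := inferInstance
  obtain ⟨k₀, hk₀⟩ := localExt_all (ZMod p) (Σ t : VS.Ty Γ q p h, A × X t) A
    (VS.fam hG χ hχ) (VS.fam_subst hG χ hχ)
  refine ⟨max k₀ (Nat.card A), fun k hk r hr y w hw Q hQ => ?_⟩
  have hkA : Nat.card A ≤ k := (le_max_right _ _).trans hk
  -- the correction
  let g : (Option (Fin r) → A) → A := fun v =>
    q (y fun j => v (some j)) (w fun j => v (some j)) (v none)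
  obtain ⟨F, ⟨f, hf, rfl⟩, hF⟩ := hk₀ k ((le_max_left _ _).trans hk) r hr (VS.fn χ g)
  refine ⟨fun v => f (VS.cns (w v) v), ?_, ?_⟩
  · have := hf.pol.comp (g := fun (o : Option (Fin r)) (v : Fin r → A) => VS.cns (w v) v o) (by
      rintro (_ | i)
      · exact hw
      · exact isPol_proj i)
    exact this
  intro x hx S θ μ ht hxS
  let t : VS.Ty Γ q p h := ⟨(S, θ, μ), ht⟩
  -- `x` is a point of a chart
  have hμ : μ (y x) (w x) := by
    have := Fintype.ofFinite A
    have hkA' : Fintype.card A ≤ k := by rwa [← Nat.card_eq_fintype_card]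
    let e : A → Fin k := fun a => Fin.castLE hkA' (Fintype.equivFin A a)
    have he : Injective e := (Fin.castLE_injective hkA').comp (Fintype.equivFin A).injective
    have : Nonempty A := ⟨x ⟨0, hr⟩⟩
    have h2 : (invFun e) ∘ (e ∘ x) = x := by
      funext i
      exact leftInverse_invFun he (x i)
    have h3 := (hQ x hx (e ∘ x) (fun i j _ hij => by
      simp only [comp_apply]
      rw [hij])).2 (invFun e) S θ μ ht (fun i => by
        have := congrFun h2 i
        simp only [comp_apply] at this ⊢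
        rw [this]
        exact hxS i)
    rwa [h2] at h3
  have hwS : w x ∈ S := ht.sub.fin hw x hxS
  -- the functions agree at `x`
  have h4 := hF x (fun τ hτ => by
    have h5 := hQ x hx τ hτ
    refine ⟨fun v => q (y fun j => v (some (τ j))) (w fun j => v (some (τ j))) (v none),
      ⟨?_, ?_⟩, ?_⟩
    · refine Grp.pol3 hG.polq ?_ ?_ (isPol_proj _)
      · exact h5.1.reindex (fun j : Fin k => (some j : Option (Fin k)))
      · exact hw.reindex (fun j : Fin r => (some (τ j) : Option (Fin k)))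
    · intro t a ha v hv
      have h6 := h5.2 v t.1.1 t.1.2.1 t.1.2.2 t.2 (fun i => hv _)
      have h7 := Grp.qcong hG t.2.ab t.2.ab.congμ h6 (Grp.mu_right hG t.2.ab h6)
        (t.2.ab.congμ.refl a ha)
      rw [hG.qleft] at h7
      exact h7
    · funext ⟨t, a, i⟩ v
      by_cases ha : a ∈ t.1.1
      · rw [VS.fn_pos χ _ t i ha, VS.fn_pos χ _ t i ha]
        rfl
      · rw [VS.fn_neg χ _ t i ha, VS.fn_neg χ _ t i ha])
  have h5 : μ (f (VS.cns (w x) x)) (w x) := hf.blk t (w x) hwS x hxS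
  have h6 : μ (q (y x) (w x) (w x)) (w x) := by
    have h7 := Grp.qcong hG ht.ab ht.ab.congμ hμ (Grp.mu_right hG ht.ab hμ)
      (ht.ab.congμ.refl _ hwS)
    rwa [hG.qleft] at h7
  have h8 : θ (f (VS.cns (w x) x)) (q (y x) (w x) (w x)) := by
    refine (hχ' t (w x) hwS _ _ h5 h6).1 fun i => ?_
    have h9 := h4 ⟨t, w x, i⟩
    rw [VS.fn_pos χ _ t i hwS, VS.fn_pos χ _ t i hwS, VS.rho_eq hxS] at h9
    exact h9
  exact ht.ab.congθ.trans _ _ _ h8 (Grp.qright hG ht.ab hμ)

end Pool.Agent.Lib.MP2ea600
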