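import Pool.Agent.Lib.MP_2ea600_lc.GH
import Pool.Agent.Lib.MP_2ea600_lc.Cube
import Pool.Agent.Lib.MP_2ea600_lc.VSys
import Pool.Agent.Lib.MP_2ea600_lc.Final

/-!
# Few subpowers imply short pp-definitions: assembly (MP_2ea600_lc)
-/

namespace Pool.Agent.Lib.MP2ea600

variable {A : Type} {Γ : Set (FinRel A)}

/-- Assembly from the modules. -/
theorem full_aux [Finite A] (hΓ : Γ.Finite) (hV : VSysStmt Γ) (hF : FinalStmt Γ)
    (h : HasFewSubpowers Γ) : HasShortPPDefinitions Γ := by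
  obtain ⟨k, hk, hc⟩ := cubeStmt hΓ h
  obtain ⟨e, he⟩ := edgeStmt Γ k hk hc
  exact hF (ghStmt hV hk he) (genStmt hΓ h)

/-- A finite constraint language on a finite set with few subpowers has short pp-definitions. -/
theorem full [Finite A] (hΓ : Γ.Finite) (h : HasFewSubpowers Γ) : HasShortPPDefinitions Γ :=
  full_aux hΓ (vsysStmt Γ) (finalStmt hΓ) h

end Pool.Agent.Lib.MP2ea600
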