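import Pool.Agent.Lib.MP_2ea600_lc.UADefs

/-!
# Module STRUCT: the structure of maximal relations omitting a tuple (MP_2ea600_lc)
-/

namespace Pool.Agent.Lib.MP2ea600

open Function

variable {A : Type} {Γ : Set (FinRel A)}

namespace Struct

/-! ### Tolerances and their transitive closures -/

/-- `L` is a tolerance of the subalgebra `S`. -/
structure IsTol (Γ : Set (FinRel A)) (S : Set A) (L : A → A → Prop) : Prop where
  mem : ∀ a b, L a b → a ∈ S ∧ b ∈ S
  refl : ∀ a ∈ S, L a a
  symm : ∀ a b, L a b → L b a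
  comp : ∀ (m : ℕ) (f : (Fin m → A) → A), IsPol Γ f → ∀ v w : Fin m → A,
    (∀ i, L (v i) (w i)) → L (f v) (f w)

/-- Compositions of `n + 1` copies of `L`. -/
def It (L : A → A → Prop) : ℕ → A → A → Prop
  | 0 => L
  | n + 1 => fun a c => ∃ b, It L n a b ∧ L b c

/-- The transitive closure. -/
def Cl (L : A → A → Prop) (a b : A) : Prop := ∃ n, It L n a b

variable {S : Set A} {L : A → A → Prop}

theorem IsTol.it_mem (hL : IsTol Γ S L) (n : ℕ) : ∀ a b, It L n a b → a ∈ S ∧ b ∈ S := by
  induction n with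
  | zero => exact hL.mem
  | succ n ih =>
    rintro a c ⟨b, h1, h2⟩
    exact ⟨(ih _ _ h1).1, (hL.mem _ _ h2).2⟩

theorem IsTol.it_mono (hL : IsTol Γ S L) {n N : ℕ} (h : n ≤ N) : ∀ a b, It L n a b → It L N a b := by
  induction h with
  | refl => exact fun _ _ h => h
  | step _ ih =>
    intro a b hab
    exact ⟨b, ih a b hab, hL.refl b (hL.it_mem _ _ _ hab).2⟩

theorem IsTol.it_comp (hL : IsTol Γ S L) (n : ℕ) : ∀ (m : ℕ) (f : (Fin m → A) → A), IsPol Γ f →
    ∀ v w : Fin m → A, (∀ i, It L n (v i) (w i)) → It L n (f v) (f w) := by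
  induction n with
  | zero => exact hL.comp
  | succ n ih =>
    intro m f hf v w h
    choose u h1 h2 using h
    exact ⟨f u, ih m f hf v u h1, hL.comp m f hf u w h2⟩

theorem it_cons (n : ℕ) : ∀ a b c, L a b → It L n b c → It L (n + 1) a c := by
  induction n with
  | zero => exact fun a b c h1 h2 => ⟨b, h1, h2⟩
  | succ n ih =>
    rintro a b c h1 ⟨d, h2, h3⟩
    exact ⟨d, ih a b d h1 h2, h3⟩

theorem IsTol.it_symm (hL : IsTol Γ S L) (n : ℕ) : ∀ a b, It L n a b → It L n b a := by
  induction n with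
  | zero => exact hL.symm
  | succ n ih =>
    rintro a c ⟨b, h1, h2⟩
    exact it_cons n c b a (hL.symm _ _ h2) (ih _ _ h1)

theorem cl_trans (n n' : ℕ) : ∀ a b c, It L n a b → It L n' b c → Cl L a c := by
  induction n' with
  | zero => exact fun a b c h1 h2 => ⟨n + 1, b, h1, h2⟩
  | succ n' ih =>
    rintro a b c h1 ⟨d, h2, h3⟩
    obtain ⟨N, hN⟩ := ih a b d h1 h2
    exact ⟨N + 1, d, hN, h3⟩

theorem IsTol.common (hL : IsTol Γ S L) {m : ℕ} {v w : Fin m → A} (h : ∀ i, Cl L (v i) (w i)) :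
    ∃ N, ∀ i, It L N (v i) (w i) := by
  choose n hn using h
  exact ⟨Finset.univ.sup n, fun i => hL.it_mono (Finset.le_sup (Finset.mem_univ i)) _ _ (hn i)⟩

theorem IsTol.isCong (hL : IsTol Γ S L) : IsCong Γ S (Cl L) where
  mem := fun a b ⟨n, h⟩ => hL.it_mem n a b h
  refl := fun a ha => ⟨0, hL.refl a ha⟩
  symm := fun a b ⟨n, h⟩ => ⟨n, hL.it_symm n a b h⟩
  trans := fun a b c ⟨n, h⟩ ⟨n', h'⟩ => cl_trans n n' a b c h h'
  comp := by
    intro m f hf v w h
    obtain ⟨N, hN⟩ := hL.common h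
    exact ⟨N, hL.it_comp N m f hf v w hN⟩

theorem centralizes_it {E θ : A → A → Prop} (h : Centralizes Γ L E θ) (n : ℕ) :
    Centralizes Γ (It L n) E θ := by
  induction n with
  | zero => exact h
  | succ n ih =>
    intro m m' f hf a a' b b' ha hb h0
    choose c h1 h2 using ha
    exact h m m' f hf c a' b b' h2 hb (ih m m' f hf a c b b' h1 hb h0)

theorem IsTol.centralizes_cl (hL : IsTol Γ S L) {E θ : A → A → Prop} (h : Centralizes Γ L E θ) :
    Centralizes Γ (Cl L) E θ := by
  intro m m' f hf a a' b b' ha hb h0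
  obtain ⟨N, hN⟩ := hL.common ha
  exact centralizes_it h N m m' f hf a a' b b' hN hb h0

theorem centralizes_mono {α α' β β' θ : A → A → Prop} (h : Centralizes Γ α β θ)
    (h1 : ∀ a b, α' a b → α a b) (h2 : ∀ a b, β' a b → β a b) : Centralizes Γ α' β' θ :=
  fun m n f hf a a' b b' ha hb h0 =>
    h m n f hf a a' b b' (fun i => h1 _ _ (ha i)) (fun j => h2 _ _ (hb j)) h0

/-! ### Symmetry of the centralizer condition -/

theorem pol3 {g : A → A → A → A} (hg : IsPol Γ fun v : Fin 3 → A => g (v 0) (v 1) (v 2))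
    {κ : Type} {f1 f2 f3 : (κ → A) → A} (h1 : IsPol Γ f1) (h2 : IsPol Γ f2) (h3 : IsPol Γ f3) :
    IsPol Γ fun v => g (f1 v) (f2 v) (f3 v) := by
  have := hg.comp (g := ![f1, f2, f3]) (by
    intro i
    fin_cases i
    · exact h1
    · exact h2
    · exact h3)
  exact this

/-- From `C(μ, T; θ)` to `C(T, μ; θ)` with Gumm terms. -/
theorem centralizes_symm {m : ℕ} {G : ℕ → A → A → A → A} {q : A → A → A → A}
    (hG : IsGumm Γ m G q) {θ μ T : A → A → Prop} (hθ : IsCong Γ S θ) (hμ : IsCong Γ S μ)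
    (hT : IsTol Γ S T) (h : Centralizes Γ μ T θ) : Centralizes Γ T μ θ := by
  intro n n' f hf a a' b b' ha hb h0
  have ha1 : ∀ i, a i ∈ S := fun i => (hT.mem _ _ (ha i)).1
  have ha2 : ∀ i, a' i ∈ S := fun i => (hT.mem _ _ (ha i)).2
  have hb1 : ∀ i, b i ∈ S := fun i => (hμ.mem _ _ (hb i)).1
  have hb2 : ∀ i, b' i ∈ S := fun i => (hμ.mem _ _ (hb i)).2
  set x := f (Sum.elim a b) with hx
  set u := f (Sum.elim a b') with hu
  set y := f (Sum.elim a' b) with hy
  set v := f (Sum.elim a' b') with hv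
  -- membership of the four corners
  have hxS : x ∈ S := (hθ.mem _ _ h0).1
  have huS : u ∈ S := (hθ.mem _ _ h0).2
  have hyS : y ∈ S := by
    have := hθ.fin hf (Sum.elim a' b) (Sum.elim a' b) (by
      rintro (i | i)
      · exact hθ.refl _ (ha2 i)
      · exact hθ.refl _ (hb1 i))
    exact (hθ.mem _ _ this).1
  have hvS : v ∈ S := by
    have := hθ.fin hf (Sum.elim a' b') (Sum.elim a' b') (by
      rintro (i | i)
      · exact hθ.refl _ (ha2 i)
      · exact hθ.refl _ (hb2 i))
    exact (hθ.mem _ _ this).1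
  -- compatibility of ternary polymorphisms with the congruence
  have comp3 : ∀ g : A → A → A → A, (IsPol Γ fun v : Fin 3 → A => g (v 0) (v 1) (v 2)) →
      ∀ p p' r r' s s', θ p p' → θ r r' → θ s s' → θ (g p r s) (g p' r' s') := by
    intro g hg p p' r r' s s' h1 h2 h3
    have := hθ.comp 3 _ hg ![p, r, s] ![p', r', s'] (by
      intro i
      fin_cases i
      · exact h1
      · exact h2
      · exact h3)
    simpa using this
  have rθ : ∀ z ∈ S, θ z z := hθ.refl
  -- the index type of the constants and the two kinds of variables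
  -- constants `(a', b, b')`, the variable of kind `μ`, the variable of kind `T`
  let I := (Fin n ⊕ (Fin n' ⊕ Fin n')) ⊕ Fin n'
  let cst : Fin n ⊕ (Fin n' ⊕ Fin n') → A := Sum.elim a' (Sum.elim b b')
  let mk : (Fin n' → A) → (Fin n → A) → I ⊕ Fin n → A := fun B A' =>
    Sum.elim (Sum.elim cst B) A'
  -- the index maps
  let eab : Fin n ⊕ Fin n' → I ⊕ Fin n :=
    Sum.elim (fun i => Sum.inl (Sum.inl (Sum.inl i))) fun j => Sum.inl (Sum.inl (Sum.inr (Sum.inl j)))
  let eab' : Fin n ⊕ Fin n' → I ⊕ Fin n :=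
    Sum.elim (fun i => Sum.inl (Sum.inl (Sum.inl i))) fun j => Sum.inl (Sum.inl (Sum.inr (Sum.inr j)))
  let eaB : Fin n ⊕ Fin n' → I ⊕ Fin n :=
    Sum.elim (fun i => Sum.inl (Sum.inl (Sum.inl i))) fun j => Sum.inl (Sum.inr j)
  let eAb : Fin n ⊕ Fin n' → I ⊕ Fin n :=
    Sum.elim (fun i => Sum.inr i) fun j => Sum.inl (Sum.inl (Sum.inr (Sum.inl j)))
  let eAb' : Fin n ⊕ Fin n' → I ⊕ Fin n :=
    Sum.elim (fun i => Sum.inr i) fun j => Sum.inl (Sum.inl (Sum.inr (Sum.inr j)))
  let eAB : Fin n ⊕ Fin n' → I ⊕ Fin n :=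
    Sum.elim (fun i => Sum.inr i) fun j => Sum.inl (Sum.inr j)
  have kab : ∀ B A', (fun s => mk B A' (eab s)) = Sum.elim a' b := by
    intro B A'; funext s; cases s <;> rfl
  have kab' : ∀ B A', (fun s => mk B A' (eab' s)) = Sum.elim a' b' := by
    intro B A'; funext s; cases s <;> rfl
  have kaB : ∀ B A', (fun s => mk B A' (eaB s)) = Sum.elim a' B := by
    intro B A'; funext s; cases s <;> rfl
  have kAb : ∀ B A', (fun s => mk B A' (eAb s)) = Sum.elim A' b := by
    intro B A'; funext s; cases s <;> rfl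
  have kAb' : ∀ B A', (fun s => mk B A' (eAb' s)) = Sum.elim A' b' := by
    intro B A'; funext s; cases s <;> rfl
  have kAB : ∀ B A', (fun s => mk B A' (eAB s)) = Sum.elim A' B := by
    intro B A'; funext s; cases s <;> rfl
  have hcst : ∀ s, μ (cst s) (cst s) := by
    rintro (i | i | i)
    · exact hμ.refl _ (ha2 i)
    · exact hμ.refl _ (hb1 i)
    · exact hμ.refl _ (hb2 i)
  -- the transfer principle
  have tr : ∀ (F : (I ⊕ Fin n → A) → A), IsPol Γ F → ∀ (B B' : Fin n' → A) (A₁ A₂ : Fin n → A),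
      (∀ i, μ (B i) (B' i)) → (∀ i, T (A₁ i) (A₂ i)) →
      θ (F (mk B A₁)) (F (mk B A₂)) → θ (F (mk B' A₁)) (F (mk B' A₂)) := by
    intro F hF B B' A₁ A₂ hB hA hh
    refine h.fin hF (Sum.elim cst B) (Sum.elim cst B') A₁ A₂ ?_ hA hh
    rintro (i | i)
    · exact hcst i
    · exact hB i
  have ha' : ∀ i, T (a' i) (a i) := fun i => hT.symm _ _ (ha i)
  have hb' : ∀ i, μ (b' i) (b i) := fun i => hμ.symm _ _ (hb i)
  -- the steps with `G i`
  have stepG : ∀ i, θ (G i y y v) (G i y v v) := by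
    intro i
    have s1 : θ (G i y y v) (G i y x v) := by
      have hF := pol3 (hG.polG i) (hf.reindex eab) (hf.reindex eAb) (hf.reindex eaB)
      have := tr _ hF b b' a' a hb ha' (by
        simp only [kab, kAb, kaB]
        rw [hG.mid, hG.mid]
        exact rθ _ hyS)
      simp only [kab, kAb, kaB] at this
      exact this
    have s2 : θ (G i y x v) (G i y u v) :=
      comp3 _ (hG.polG i) _ _ _ _ _ _ (rθ _ hyS) h0 (rθ _ hvS)
    have s3 : θ (G i y u v) (G i y v v) := by
      have hF := pol3 (hG.polG i) (hf.reindex eaB) (hf.reindex eAb') (hf.reindex eab')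
      have := tr _ hF b' b a a' hb' ha (by
        simp only [kab', kAb', kaB]
        rw [hG.mid, hG.mid]
        exact rθ _ hvS)
      simp only [kab', kAb', kaB] at this
      exact this
    exact hθ.trans _ _ _ s1 (hθ.trans _ _ _ s2 s3)
  have chain : ∀ i ≤ m, θ y (G i y v v) := by
    intro i
    induction i with
    | zero =>
      intro _
      have := stepG 0
      rwa [hG.first] at this
    | succ i ih =>
      intro hi
      have h1 := ih (by omega)
      rw [hG.step i (by omega)] at h1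
      exact hθ.trans _ _ _ h1 (stepG (i + 1))
  have c1 : θ y (q y v v) := by
    have := chain m le_rfl
    rwa [hG.last] at this
  have c2 : θ (q y v v) (q x u v) := by
    have hF := pol3 hG.polq (hf.reindex eAB) (hf.reindex eAb') (hf.reindex eab')
    have := tr _ hF b' b a' a hb' ha' (by
      simp only [kab', kAb', kAB]
      rw [hG.qleft, hG.qleft]
      exact rθ _ hvS)
    simp only [kab', kAb', kAB] at this
    exact this
  have c3 : θ (q x u v) v := by
    have := comp3 _ hG.polq x x u x v v (rθ _ hxS) (hθ.symm _ _ h0) (rθ _ hvS)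
    rwa [hG.qleft] at this
  exact hθ.trans _ _ _ c1 (hθ.trans _ _ _ c2 c3)

/-! ### The critical relation -/

section Crit

variable {J : Type} [DecidableEq J] {B : J → Set A} {M : Set (J → A)} {y : J → A}

theorem update_pol {m : ℕ} (f : (Fin m → A) → A) (X : Fin m → J → A) (j : J) (b : Fin m → A) :
    update (fun i => f fun l => X l i) j (f b) = fun i => f fun l => update (X l) j (b l) i := by
  funext i
  by_cases h : i = j
  · subst h
    simp
  · simp [h]

/-- rectangularity -/
theorem rect (h : CritAt Γ B M y)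
    (para : ∀ (j : J) (b : A) (c : J → A), update y j b ∈ M → update c j (y j) ∈ M →
      update c j b ∈ M → y ∈ M)
    (j : J) (x c : J → A) (b : A) (h1 : update x j b ∈ M) (h2 : update c j (x j) ∈ M)
    (h3 : update c j b ∈ M) : x ∈ M := by
  refine h.max {x | ∃ b c, update x j b ∈ M ∧ update c j (x j) ∈ M ∧ update c j b ∈ M}
    ?_ ?_ ?_ ?_ ⟨b, c, h1, h2, h3⟩
  · intro m f hf X hX
    choose b c h1 h2 h3 using hX
    refine ⟨f b, fun i => f fun l => c l i, ?_, ?_, ?_⟩
    · rw [update_pol]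
      exact h.inv m f hf _ h1
    · have := update_pol f c j fun l => X l j
      rw [this]
      exact h.inv m f hf _ h2
    · rw [update_pol]
      exact h.inv m f hf _ h3
  · intro x hx
    exact ⟨x j, x, by simpa using hx, by simpa using hx, by simpa using hx⟩
  · rintro x ⟨b, c, h1, h2, h3⟩ i
    by_cases hi : i = j
    · subst hi
      have := h.sub _ h2 i
      simpa using this
    · have := h.sub _ h1 i
      simpa [hi] using this
  · rintro ⟨b, c, h1, h2, h3⟩
    exact h.notMem (para j b c h1 h2 h3)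

/-- saturation -/
theorem sat (h : CritAt Γ B M y)
    (para : ∀ (j : J) (b : A) (c : J → A), update y j b ∈ M → update c j (y j) ∈ M →
      update c j b ∈ M → y ∈ M)
    (j : J) {x : J → A} (hx : x ∈ M) {b : A} (hb : Ker M j (x j) b) : update x j b ∈ M := by
  obtain ⟨c, hc, hcx, hcb⟩ := hb
  refine rect h para j (update x j b) c (x j) ?_ ?_ ?_
  · simpa using hx
  · simpa using hcb
  · rw [← hcx]
    simpa using hc

theorem ker_isCong (h : CritAt Γ B M y)
    (para : ∀ (j : J) (b : A) (c : J → A), update y j b ∈ M → update c j (y j) ∈ M →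
      update c j b ∈ M → y ∈ M) (j : J) : IsCong Γ (B j) (Ker M j) where
  mem := by
    rintro a b ⟨x, hx, rfl, hb⟩
    refine ⟨h.sub x hx j, ?_⟩
    have := h.sub _ hb j
    simpa using this
  refl := by
    intro a ha
    obtain ⟨x, hx, rfl⟩ := h.onto j a ha
    exact ⟨x, hx, rfl, by simpa using hx⟩
  symm := by
    rintro a b ⟨x, hx, rfl, hb⟩
    exact ⟨update x j b, hb, by simp, by simpa using hx⟩
  trans := by
    rintro a b c ⟨x, hx, rfl, hb⟩ hbc
    refine ⟨x, hx, rfl, ?_⟩
    have := sat h para j hb (b := c) (by simpa using hbc)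
    simpa using this
  comp := by
    intro m f hf v w hvw
    choose x hx hxv hxw using hvw
    refine ⟨fun i => f fun l => x l i, h.inv m f hf x hx, ?_, ?_⟩
    · exact congrArg f (funext hxv)
    · rw [update_pol]
      exact h.inv m f hf _ hxw

/-- every congruence properly above the kernel contains the critical pairs -/
theorem crit_pair (h : CritAt Γ B M y)
    (j : J) {α : A → A → Prop} (hα : IsCong Γ (B j) α)
    (hle : ∀ a b, Ker M j a b → α a b) (hne : ∃ a b, α a b ∧ ¬ Ker M j a b) {a : A}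
    (ha : update y j a ∈ M) : α a (y j) := by
  have hy : ∃ b, α b (y j) ∧ update y j b ∈ M := by
    by_contra hc
    obtain ⟨a, b, hab, hnab⟩ := hne
    obtain ⟨x, hx, hxa⟩ := h.onto j a (hα.mem _ _ hab).1
    have := h.max {x | ∃ b, α b (x j) ∧ update x j b ∈ M} ?_ ?_ ?_ hc
    · have h1 : update x j b ∈ M := by
        refine this ⟨a, by simpa using hab, ?_⟩
        rw [← hxa]
        simpa using hx
      exact hnab ⟨x, hx, hxa, h1⟩
    · intro m f hf X hX
      choose b h1 h2 using hX
      refine ⟨f b, hα.comp m f hf _ _ h1, ?_⟩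
      rw [update_pol]
      exact h.inv m f hf _ h2
    · intro x hx
      exact ⟨x j, hα.refl _ (h.sub x hx j), by simpa using hx⟩
    · rintro x ⟨b, h1, h2⟩ i
      by_cases hi : i = j
      · subst hi
        exact (hα.mem _ _ h1).2
      · have := h.sub _ h2 i
        simpa [hi] using this
  obtain ⟨b, hb, hyb⟩ := hy
  refine hα.trans _ _ _ (hle a b ⟨update y j a, ha, by simp, ?_⟩) hb
  simpa using hyb

/-- the relation `L` -/
def LRel (M : Set (J → A)) (j k : J) (a a' : A) : Prop :=
  ∃ x ∈ M, ∃ x' ∈ M, x j = a ∧ x' j = a' ∧ x k = x' k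

/-- the relation `E` -/
def ERel (M : Set (J → A)) (j k : J) (b b' : A) : Prop :=
  ∃ z ∈ M, ∃ z' ∈ M, z j = b ∧ z' j = b' ∧ ∀ i, i ≠ j → i ≠ k → z i = z' i

theorem lrel_isTol (h : CritAt Γ B M y) (j k : J) : IsTol Γ (B j) (LRel M j k) where
  mem := by
    rintro a b ⟨x, hx, x', hx', rfl, rfl, -⟩
    exact ⟨h.sub _ hx j, h.sub _ hx' j⟩
  refl := by
    intro a ha
    obtain ⟨x, hx, rfl⟩ := h.onto j a ha
    exact ⟨x, hx, x, hx, rfl, rfl, rfl⟩
  symm := by
    rintro a b ⟨x, hx, x', hx', h1, h2, h3⟩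
    exact ⟨x', hx', x, hx, h2, h1, h3.symm⟩
  comp := by
    intro m f hf v w hvw
    choose x hx x' hx' h1 h2 h3 using hvw
    exact ⟨_, h.inv m f hf x hx, _, h.inv m f hf x' hx', congrArg f (funext h1),
      congrArg f (funext h2), congrArg f (funext h3)⟩

theorem erel_isTol (h : CritAt Γ B M y) (j k : J) : IsTol Γ (B j) (ERel M j k) where
  mem := by
    rintro a b ⟨x, hx, x', hx', rfl, rfl, -⟩
    exact ⟨h.sub _ hx j, h.sub _ hx' j⟩
  refl := by
    intro a ha
    obtain ⟨x, hx, rfl⟩ := h.onto j a ha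
    exact ⟨x, hx, x, hx, rfl, rfl, fun _ _ _ => rfl⟩
  symm := by
    rintro a b ⟨x, hx, x', hx', h1, h2, h3⟩
    exact ⟨x', hx', x, hx, h2, h1, fun i hi hi' => (h3 i hi hi').symm⟩
  comp := by
    intro m f hf v w hvw
    choose x hx x' hx' h1 h2 h3 using hvw
    exact ⟨_, h.inv m f hf x hx, _, h.inv m f hf x' hx', congrArg f (funext h1),
      congrArg f (funext h2), fun i hi hi' => congrArg f (funext fun l => h3 l i hi hi')⟩

theorem ker_le_lrel {j k : J} (hjk : k ≠ j) {a b : A} (hab : Ker M j a b) : LRel M j k a b := by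
  obtain ⟨x, hx, rfl, hb⟩ := hab
  exact ⟨x, hx, _, hb, rfl, by simp, by simp [hjk]⟩

theorem ker_le_erel {j k : J} {a b : A} (hab : Ker M j a b) : ERel M j k a b := by
  obtain ⟨x, hx, rfl, hb⟩ := hab
  exact ⟨x, hx, _, hb, rfl, by simp, fun i hi _ => by simp [hi]⟩

/-- the two transfers through `M` -/
theorem lrel_erel (h : CritAt Γ B M y)
    (para : ∀ (j : J) (b : A) (c : J → A), update y j b ∈ M → update c j (y j) ∈ M →
      update c j b ∈ M → y ∈ M) {j k : J} (hjk : k ≠ j) :
    Centralizes Γ (LRel M j k) (ERel M j k) (Ker M j) := by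
  intro m n f hf a a' b b' ha hb h0
  choose x hx x' hx' h1 h2 h3 using ha
  choose z hz z' hz' g1 g2 g3 using hb
  have mem : ∀ (X : Fin m → J → A) (Z : Fin n → J → A), (∀ i, X i ∈ M) → (∀ i, Z i ∈ M) →
      (fun i => f (Sum.elim (fun l => X l i) fun l => Z l i)) ∈ M := by
    intro X Z hX hZ
    have := h.inv.fin hf (Sum.elim X Z) (by
      rintro (l | l)
      · exact hX l
      · exact hZ l)
    convert this using 1
    funext i
    congr 1
    funext s
    cases s <;> rfl
  set p : J → A := fun i => f (Sum.elim (fun l => x l i) fun l => z l i) with hp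
  set p' : J → A := fun i => f (Sum.elim (fun l => x l i) fun l => z' l i) with hp'
  set r : J → A := fun i => f (Sum.elim (fun l => x' l i) fun l => z l i) with hr
  set r' : J → A := fun i => f (Sum.elim (fun l => x' l i) fun l => z' l i) with hr'
  have mp : p ∈ M := mem x z hx hz
  have mp' : p' ∈ M := mem x z' hx hz'
  have mr : r ∈ M := mem x' z hx' hz
  have mr' : r' ∈ M := mem x' z' hx' hz'
  have e1 : p j = f (Sum.elim a b) := by
    simp only [hp]
    rw [funext h1, funext g1]
  have e2 : p' j = f (Sum.elim a b') := by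
    simp only [hp']
    rw [funext h1, funext g2]
  have e3 : r j = f (Sum.elim a' b) := by
    simp only [hr]
    rw [funext h2, funext g1]
  have e4 : r' j = f (Sum.elim a' b') := by
    simp only [hr']
    rw [funext h2, funext g2]
  have k1 : p k = r k := by
    simp only [hp, hr]
    rw [funext h3]
  have k2 : p' k = r' k := by
    simp only [hp', hr']
    rw [funext h3]
  have ag : ∀ i, i ≠ j → i ≠ k → p i = p' i := by
    intro i hi hi'
    simp only [hp, hp']
    rw [funext fun l => g3 l i hi hi']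
  have ag' : ∀ i, i ≠ j → i ≠ k → r i = r' i := by
    intro i hi hi'
    simp only [hr, hr']
    rw [funext fun l => g3 l i hi hi']
  rw [← e1, ← e2] at h0
  rw [← e3, ← e4]
  have s1 : update p j (p' j) ∈ M := sat h para j mp h0
  have s2 : Ker M k (p k) (p' k) := by
    refine ⟨_, s1, by simp [hjk], ?_⟩
    have : update (update p j (p' j)) k (p' k) = p' := by
      funext i
      by_cases hik : i = k
      · subst hik
        simp
      · by_cases hij : i = j
        · subst hij
          simp [hik]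
        · simp [hik, hij, ag i hij hik]
    rw [this]
    exact mp'
  rw [k1, k2] at s2
  have s3 : update r k (r' k) ∈ M := sat h para k mr s2
  refine ⟨_, s3, by simp [hjk.symm], ?_⟩
  have : update (update r k (r' k)) j (r' j) = r' := by
    funext i
    by_cases hij : i = j
    · subst hij
      simp
    · by_cases hik : i = k
      · subst hik
        simp [hij]
      · simp [hik, hij, ag' i hij hik]
  rw [this]
  exact mr'

end Crit

end Struct

open Struct in
/-- Module STRUCT. -/
theorem structStmt (hP : ParaStmt Γ) : StructStmt Γ := by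
  intro k e hk he m G q hG J _ _ B M y hkJ h3 hB hM j
  have para : ∀ (j : J) (b : A) (c : J → A), update y j b ∈ M → update c j (y j) ∈ M →
      update c j b ∈ M → y ∈ M :=
    fun j b c => hP k e hk he J M hM.inv y hM.near hkJ j b c
  have hθ := ker_isCong hM para j
  obtain ⟨a₀, ha₀⟩ := hM.near j
  have hnot : ¬ Ker M j a₀ (y j) := by
    intro hc
    have := sat hM para j ha₀ (b := y j) (by simpa using hc)
    exact hM.notMem (by simpa using this)
  let μ : A → A → Prop := fun a b => a ∈ B j ∧ b ∈ B j ∧ ∀ α : A → A → Prop,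
    IsCong Γ (B j) α → (∀ a b, Ker M j a b → α a b) → (∃ a b, α a b ∧ ¬ Ker M j a b) → α a b
  have hμ : IsCong Γ (B j) μ :=
    { mem := fun a b h => ⟨h.1, h.2.1⟩
      refl := fun a ha => ⟨ha, ha, fun α h1 _ _ => h1.refl a ha⟩
      symm := fun a b h => ⟨h.2.1, h.1, fun α h1 h2 h3 => h1.symm _ _ (h.2.2 α h1 h2 h3)⟩
      trans := fun a b c h h' => ⟨h.1, h'.2.1, fun α h1 h2 h3 =>
        h1.trans _ _ _ (h.2.2 α h1 h2 h3) (h'.2.2 α h1 h2 h3)⟩
      comp := fun n f hf v w h => ⟨hB j n f hf v fun i => (h i).1,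
        hB j n f hf w fun i => (h i).2.1,
        fun α h1 h2 h3 => h1.comp n f hf v w fun i => (h i).2.2 α h1 h2 h3⟩ }
  have hle : ∀ a b, Ker M j a b → μ a b := fun a b h =>
    ⟨(hθ.mem _ _ h).1, (hθ.mem _ _ h).2, fun α _ h2 _ => h2 a b h⟩
  have hcrit : ∀ a, update y j a ∈ M → μ a (y j) := by
    intro a ha
    refine ⟨?_, hM.ymem j, fun α h1 h2 h3 => crit_pair hM j h1 h2 h3 ha⟩
    have := hM.sub _ ha j
    simpa using this
  have hmin : ∀ α : A → A → Prop, IsCong Γ (B j) α → (∀ a b, Ker M j a b → α a b) →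
      (∃ a b, α a b ∧ ¬ Ker M j a b) → ∀ a b, μ a b → α a b :=
    fun α h1 h2 h3 a b h => h.2.2 α h1 h2 h3
  have hmono : IsMonolith Γ (B j) (Ker M j) μ :=
    ⟨hμ, hle, ⟨a₀, y j, hcrit a₀ ha₀, hnot⟩, hmin⟩
  refine ⟨hθ, fun x hx b hb => sat hM para j hx hb, μ, hmono, hcrit, ?_⟩
  -- two further coordinates
  obtain ⟨l, hlj⟩ : ∃ l : J, l ≠ j := by
    by_contra hc
    push Not at hc
    have : Fintype.card J ≤ 1 := Fintype.card_le_one_iff.2 fun a b => by rw [hc a, hc b]
    omega
  obtain ⟨i, hij, hil⟩ : ∃ i : J, i ≠ j ∧ i ≠ l := by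
    by_contra hc
    push Not at hc
    have h1 : (Finset.univ : Finset J) ⊆ {j, l} := by
      intro i _
      by_cases hi : i = j
      · simp [hi]
      · simp [hc i hi]
    have h2 := Finset.card_le_card h1
    have h4 : ({j, l} : Finset J).card ≤ 2 := Finset.card_le_two
    rw [Finset.card_univ] at h2
    omega
  obtain ⟨al, hal⟩ := hM.near l
  obtain ⟨ai, hai⟩ := hM.near i
  have hLc : LRel M j l a₀ (y j) :=
    ⟨_, ha₀, _, hai, by simp, by simp [hij.symm], by simp [hlj, hil.symm]⟩
  have hEc : ERel M j l a₀ (y j) :=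
    ⟨_, ha₀, _, hal, by simp, by simp [hlj.symm], fun s hs hs' => by simp [hs, hs']⟩
  have hLtol := lrel_isTol hM j l
  have hEtol := erel_isTol hM j l
  have hμL : ∀ a b, μ a b → Cl (LRel M j l) a b :=
    hmin _ hLtol.isCong (fun a b h => ⟨0, ker_le_lrel hlj h⟩) ⟨a₀, y j, ⟨0, hLc⟩, hnot⟩
  have c1 : Centralizes Γ μ (ERel M j l) (Ker M j) :=
    centralizes_mono (hLtol.centralizes_cl (lrel_erel hM para hlj)) hμL fun _ _ h => h
  let T : A → A → Prop := fun a b => ERel M j l a b ∧ μ a b
  have hT : IsTol Γ (B j) T :=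
    { mem := fun a b h => hμ.mem _ _ h.2
      refl := fun a ha => ⟨hEtol.refl a ha, hμ.refl a ha⟩
      symm := fun a b h => ⟨hEtol.symm _ _ h.1, hμ.symm _ _ h.2⟩
      comp := fun n f hf v w h => ⟨hEtol.comp n f hf v w fun i => (h i).1,
        hμ.comp n f hf v w fun i => (h i).2⟩ }
  have hμT : ∀ a b, μ a b → Cl T a b :=
    hmin _ hT.isCong (fun a b h => ⟨0, ker_le_erel h, hle a b h⟩)
      ⟨a₀, y j, ⟨0, hEc, hcrit a₀ ha₀⟩, hnot⟩
  have c2 : Centralizes Γ μ T (Ker M j) := centralizes_mono c1 (fun _ _ h => h) fun _ _ h => h.1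
  have c3 : Centralizes Γ T μ (Ker M j) := centralizes_symm hG hθ hμ hT c2
  exact centralizes_mono (hT.centralizes_cl c3) hμT fun _ _ h => h

end Pool.Agent.Lib.MP2ea600
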