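import Pool.Agent.Lib.MP_2ea600_lc.GHDefs
import Pool.Agent.Lib.MP_2ea600_lc.Edge
import Pool.Agent.Lib.MP_2ea600_lc.Struct
import Pool.Agent.Lib.MP_2ea600_lc.Group

/-!
# The induction over the number of classes (MP_2ea600_lc)
-/

namespace Pool.Agent.Lib.MP2ea600

namespace GH

open Function

variable {A : Type} {Γ : Set (FinRel A)}

/-- The subuniverse generated by the letters of `x`. -/
def Sg (Γ : Set (FinRel A)) {r : ℕ} (x : Fin r → A) : Set A :=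
  {a | ∃ w : (Fin r → A) → A, IsPol Γ w ∧ a = w x}

theorem letter_mem {r : ℕ} (x : Fin r → A) (i : Fin r) : x i ∈ Sg Γ x :=
  ⟨fun v => v i, isPol_proj i, rfl⟩

theorem sg_isSub {r : ℕ} (x : Fin r → A) : IsSub Γ (Sg Γ x) := by
  intro m f hf v hv
  choose w hw hwv using hv
  refine ⟨fun z => f fun i => w i z, hf.comp hw, ?_⟩
  exact congrArg f (funext hwv)

theorem sg_subset {S : Set A} (hS : IsSub Γ S) {r : ℕ} {x : Fin r → A} (hx : ∀ i, x i ∈ S) :
    Sg Γ x ⊆ S := by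
  rintro _ ⟨w, hw, rfl⟩
  exact hS r w hw x hx

/-! ### Numbers of classes -/

section ncl

variable [Finite A] {S : Set A} {θ μ : A → A → Prop}

theorem ncl_le_card (S : Set A) (μ : A → A → Prop) : ncl S μ ≤ Nat.card A := by
  refine (Set.ncard_image_le (Set.toFinite S)).trans ?_
  rw [← Set.ncard_univ]
  exact Set.ncard_le_ncard (Set.subset_univ S) (Set.toFinite _)

theorem ncl_pos (hS : S.Nonempty) : 0 < ncl S μ :=
  (Set.ncard_pos (Set.toFinite _)).2 (hS.image _)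

omit [Finite A] in
theorem class_eq (hθ : IsCong Γ S θ) {a b : A} (ha : a ∈ S) :
    {x | θ a x} = {x | θ b x} ↔ θ b a := by
  constructor
  · intro h
    have : a ∈ {x | θ a x} := hθ.refl a ha
    rw [h] at this
    exact this
  · intro h
    ext x
    exact ⟨fun hx => hθ.trans _ _ _ h hx, fun hx => hθ.trans _ _ _ (hθ.symm _ _ h) hx⟩

omit [Finite A] in
theorem image_classes (hθ : IsCong Γ S θ) (hμ : IsCong Γ S μ) (hle : ∀ a b, θ a b → μ a b) :
    (fun a => {x | μ a x}) '' S =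
      (fun X : Set A => {x | ∃ a ∈ X, μ a x}) '' ((fun a => {x | θ a x}) '' S) := by
  rw [← Set.image_comp]
  refine Set.image_congr fun a ha => ?_
  ext x
  constructor
  · intro hx
    exact ⟨a, hθ.refl a ha, hx⟩
  · rintro ⟨b, hb, hx⟩
    exact hμ.trans _ _ _ (hle _ _ hb) hx

theorem ncl_mono (hθ : IsCong Γ S θ) (hμ : IsCong Γ S μ) (hle : ∀ a b, θ a b → μ a b) :
    ncl S μ ≤ ncl S θ := by
  unfold ncl
  rw [image_classes hθ hμ hle]
  exact Set.ncard_image_le (Set.toFinite _)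

theorem ncl_lt (hθ : IsCong Γ S θ) (hμ : IsCong Γ S μ) (hle : ∀ a b, θ a b → μ a b)
    (hne : ∃ a b, μ a b ∧ ¬ θ a b) : ncl S μ < ncl S θ := by
  refine lt_of_le_of_ne (ncl_mono hθ hμ hle) fun heq => ?_
  obtain ⟨a, b, hab, hab'⟩ := hne
  unfold ncl at heq
  rw [image_classes hθ hμ hle] at heq
  have hinj := (Set.ncard_image_iff (Set.toFinite _)).1 heq
  have ha := (hμ.mem a b hab).1
  have hb := (hμ.mem a b hab).2
  have h1 := hinj (Set.mem_image_of_mem _ ha) (Set.mem_image_of_mem _ hb) (by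
    ext x
    constructor
    · rintro ⟨c, hc, hx⟩
      exact ⟨b, hθ.refl b hb, hμ.trans _ _ _ (hμ.trans _ _ _ (hμ.symm _ _ hab) (hle _ _ hc)) hx⟩
    · rintro ⟨c, hc, hx⟩
      exact ⟨a, hθ.refl a ha, hμ.trans _ _ _ (hμ.trans _ _ _ hab (hle _ _ hc)) hx⟩)
  exact hab' (hθ.symm _ _ ((class_eq hθ ha).1 h1))

omit [Finite A] in
theorem restrict_cong (hμ : IsCong Γ S μ) {S' : Set A} (hS' : IsSub Γ S') (hsub : S' ⊆ S) :
    IsCong Γ S' fun a b => μ a b ∧ a ∈ S' ∧ b ∈ S' where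
  mem _ _ h := h.2
  refl a ha := ⟨hμ.refl a (hsub ha), ha, ha⟩
  symm _ _ h := ⟨hμ.symm _ _ h.1, h.2.2, h.2.1⟩
  trans _ _ _ h h' := ⟨hμ.trans _ _ _ h.1 h'.1, h.2.1, h'.2.2⟩
  comp m f hf v w h := ⟨hμ.comp m f hf v w fun i => (h i).1, hS' m f hf v fun i => (h i).2.1,
    hS' m f hf w fun i => (h i).2.2⟩

theorem ncl_restrict (μ : A → A → Prop) {S' : Set A} (hsub : S' ⊆ S) :
    ncl S' (fun a b => μ a b ∧ a ∈ S' ∧ b ∈ S') ≤ ncl S μ := by
  have h1 : (fun a => {x | μ a x ∧ a ∈ S' ∧ x ∈ S'}) '' S' =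
      (fun X : Set A => X ∩ S') '' ((fun a => {x | μ a x}) '' S') := by
    rw [← Set.image_comp]
    refine Set.image_congr fun a ha => ?_
    ext x
    exact ⟨fun h => ⟨h.1, h.2.2⟩, fun h => ⟨h.1, ha, h.2⟩⟩
  unfold ncl
  rw [h1]
  exact (Set.ncard_image_le (Set.toFinite _)).trans
    (Set.ncard_le_ncard (Set.image_mono hsub) (Set.toFinite _))

end ncl

/-! ### Small families -/

theorem exists_small {r K k : ℕ} (hr : 0 < r) (ψ : (Fin K → A) → Fin k) (hψ : Injective ψ)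
    {y : (Fin r → A) → A} (x : Fin K → Fin r → A)
    (hy : IsPol Γ fun b : Fin k → A => y (b ∘ fun i => ψ fun s => x s i)) :
    ∃ w : (Fin r → A) → A, IsPol Γ w ∧ ∀ s, w (x s) = y (x s) := by
  classical
  let τ : Fin r → Fin k := fun i => ψ fun s => x s i
  let σ : Fin k → Fin r := fun t => if h : ∃ i, τ i = t then h.choose else ⟨0, hr⟩
  have hσ : ∀ i, τ (σ (τ i)) = τ i := by
    intro i
    have h : ∃ j, τ j = τ i := ⟨i, rfl⟩
    simp only [σ, dif_pos h]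
    exact h.choose_spec
  refine ⟨fun v => y ((v ∘ σ) ∘ τ), hy.reindex σ, fun s => ?_⟩
  have : (x s ∘ σ) ∘ τ = x s := by
    funext i
    exact congrFun (hψ (hσ i)) s
  show y ((x s ∘ σ) ∘ τ) = y (x s)
  rw [this]

/-- A finite family of points with congruences for which no polymorphism agrees with `y`. -/
structure Failing (Γ : Set (FinRel A)) {r : ℕ} (y : (Fin r → A) → A) (Pt : Set (Fin r → A))
    (h : ℕ) {J : Type} (x : J → Fin r → A) (θ : J → A → A → Prop) : Prop where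
  mem : ∀ j, x j ∈ Pt
  cong : ∀ j, IsCong Γ (Sg Γ (x j)) (θ j)
  le : ∀ j, ncl (Sg Γ (x j)) (θ j) ≤ h
  fail : ¬ ∃ w : (Fin r → A) → A, IsPol Γ w ∧ ∀ j, θ j (w (x j)) (y (x j))

theorem exists_minimal_failing [Finite A] {r : ℕ} {y : (Fin r → A) → A} {Pt : Set (Fin r → A)}
    {h : ℕ} (hfail : ¬ ∃ w : (Fin r → A) → A, IsPol Γ w ∧ ∀ x ∈ Pt, ∀ θ : A → A → Prop,
      IsCong Γ (Sg Γ x) θ → ncl (Sg Γ x) θ ≤ h → θ (w x) (y x)) :
    ∃ (J : Type) (_ : Fintype J) (x : J → Fin r → A) (θ : J → A → A → Prop),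
      Failing Γ y Pt h x θ ∧ ∀ (J' : Type) [Fintype J'] (x' : J' → Fin r → A)
        (θ' : J' → A → A → Prop), Failing Γ y Pt h x' θ' →
        ∑ j, ncl (Sg Γ (x j)) (θ j) ≤ ∑ j, ncl (Sg Γ (x' j)) (θ' j) := by
  classical
  let Pr : ℕ → Prop := fun N => ∃ (J : Type) (_ : Fintype J) (x : J → Fin r → A)
    (θ : J → A → A → Prop), Failing Γ y Pt h x θ ∧ ∑ j, ncl (Sg Γ (x j)) (θ j) = N
  have hPr : ∃ N, Pr N := by
    let J₀ : Type := {p : (Fin r → A) × (A → A → Prop) //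
      p.1 ∈ Pt ∧ IsCong Γ (Sg Γ p.1) p.2 ∧ ncl (Sg Γ p.1) p.2 ≤ h}
    have : Fintype J₀ := Fintype.ofFinite _
    refine ⟨_, J₀, this, fun p => p.1.1, fun p => p.1.2, ⟨fun p => p.2.1, fun p => p.2.2.1,
      fun p => p.2.2.2, ?_⟩, rfl⟩
    rintro ⟨w, hw, hw'⟩
    exact hfail ⟨w, hw, fun x hx θ h1 h2 => hw' ⟨(x, θ), hx, h1, h2⟩⟩
  obtain ⟨J, hJ, x, θ, h1, h2⟩ := Nat.find_spec hPr
  refine ⟨J, hJ, x, θ, h1, fun J' _ x' θ' h3 => ?_⟩
  rw [h2]
  exact Nat.find_min' hPr ⟨J', inferInstance, x', θ', h3, rfl⟩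

/-- Saturation of all coordinates. -/
theorem saturate {J : Type} [Fintype J] [DecidableEq J] {M : Set (J → A)}
    (hsat : ∀ j, ∀ x ∈ M, ∀ b, Ker M j (x j) b → update x j b ∈ M) {z y : J → A} (hz : z ∈ M)
    (h : ∀ j, Ker M j (z j) (y j)) : y ∈ M := by
  have key : ∀ T : Finset J, (fun j => if j ∈ T then y j else z j) ∈ M := by
    intro T
    induction T using Finset.induction_on with
    | empty => simpa using hz
    | insert i T hi ih =>
      have h1 := hsat i _ ih (y i) (by simpa [hi] using h i)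
      convert h1 using 1
      funext j
      by_cases hj : j = i
      · subst hj
        simp
      · rw [update_of_ne hj]
        simp [hj]
  simpa using key Finset.univ

section step

variable [Finite A] {ke : ℕ} {e : (Option (Fin ke) → A) → A} (hke : 2 ≤ ke) (he : IsEdge Γ ke e)
  {m : ℕ} {G : ℕ → A → A → A → A} {q : A → A → A → A} (hG : IsGumm Γ m G q)
include hke he hG

theorem step {K k r : ℕ} (hK1 : ke ≤ K) (hK2 : 3 ≤ K) (hr : 0 < r) (ψ : (Fin K → A) → Fin k)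
    (hψ : Injective ψ) {y : (Fin r → A) → A} {Pt : Set (Fin r → A)} {h : ℕ}
    (hy : ∀ τ ∈ Charts K k Pt, IsPol Γ fun b : Fin k → A => y (b ∘ τ))
    {w₀ : (Fin r → A) → A}
    (hw₀' : ∀ x ∈ Next K k Pt, ∀ θ : A → A → Prop, IsCong Γ (Sg Γ x) θ → ncl (Sg Γ x) θ ≤ h →
      θ (w₀ x) (y x))
    (hV : ∀ p : ℕ, p.Prime → p ≤ Nat.card A → ∀ Q : Set (Fin r → A),
      (∀ x ∈ Q, ∀ τ : Fin r → Fin k, LS.IsChart x τ →
        (IsPol Γ fun b : Fin k → A => y (b ∘ τ)) ∧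
        ∀ (b : Fin k → A) (S : Set A) (θ μ : A → A → Prop), IsTyp Γ q p h S θ μ →
          (∀ i, b (τ i) ∈ S) → μ (y (b ∘ τ)) (w₀ (b ∘ τ))) →
      ∃ w' : (Fin r → A) → A, IsPol Γ w' ∧
        ∀ x ∈ Q, ∀ (S : Set A) (θ μ : A → A → Prop), IsTyp Γ q p h S θ μ →
          (∀ i, x i ∈ S) → θ (w' x) (y x)) :
    ∃ w : (Fin r → A) → A, IsPol Γ w ∧ ∀ x ∈ Pt, ∀ θ : A → A → Prop,
      IsCong Γ (Sg Γ x) θ → ncl (Sg Γ x) θ ≤ h + 1 → θ (w x) (y x) := by
  classical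
  by_contra hfail
  obtain ⟨J, _, x, θ, hF, hmin⟩ := exists_minimal_failing hfail
  have M2 : ∀ θ' : J → A → A → Prop, (∀ j, IsCong Γ (Sg Γ (x j)) (θ' j)) →
      (∀ j a b, θ j a b → θ' j a b) → (∃ j a b, θ' j a b ∧ ¬ θ j a b) →
      ∃ w : (Fin r → A) → A, IsPol Γ w ∧ ∀ j, θ' j (w (x j)) (y (x j)) := by
    rintro θ' h1 h2 ⟨j, a, b, h3, h4⟩
    by_contra hcon
    have h5 := hmin J x θ' ⟨hF.mem, h1,
      fun i => (ncl_mono (hF.cong i) (h1 i) (h2 i)).trans (hF.le i), hcon⟩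
    have h6 : ∑ i, ncl (Sg Γ (x i)) (θ' i) < ∑ i, ncl (Sg Γ (x i)) (θ i) :=
      Finset.sum_lt_sum (fun i _ => ncl_mono (hF.cong i) (h1 i) (h2 i))
        ⟨j, Finset.mem_univ j, ncl_lt (hF.cong j) (h1 j) (h2 j) ⟨a, b, h3, h4⟩⟩
    omega
  have M1 : ∀ j, ∃ w : (Fin r → A) → A, IsPol Γ w ∧ ∀ i, i ≠ j → θ i (w (x i)) (y (x i)) := by
    intro j
    by_contra hcon
    have h5 := hmin {i // i ≠ j} (fun i => x i) (fun i => θ i) ⟨fun i => hF.mem i,
      fun i => hF.cong i, fun i => hF.le i, fun ⟨w, hw, h'⟩ => hcon ⟨w, hw, fun i hi => h' ⟨i, hi⟩⟩⟩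
    have h6 : ∑ i : {i // i ≠ j}, ncl (Sg Γ (x i)) (θ i) + ncl (Sg Γ (x j)) (θ j) =
        ∑ i, ncl (Sg Γ (x i)) (θ i) := by
      rw [← Finset.sum_erase_add _ _ (Finset.mem_univ j)]
      congr 1
      rw [← Finset.sum_subtype (Finset.univ.erase j) (p := fun i => i ≠ j)
        (fun i => by simp) fun i => ncl (Sg Γ (x i)) (θ i)]
    have h7 : 0 < ncl (Sg Γ (x j)) (θ j) := ncl_pos ⟨_, letter_mem (x j) ⟨0, hr⟩⟩
    omega
  have hymem : ∀ z ∈ Pt, y z ∈ Sg Γ z := by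
    intro z hz
    obtain ⟨w, hw, hwz⟩ := exists_small hr ψ hψ (fun _ => z)
      (hy _ (Or.inr ⟨fun _ => z, ψ, fun _ => hz, rfl⟩))
    exact ⟨w, hw, (hwz ⟨0, by omega⟩).symm⟩
  have M3 : K < Fintype.card J := by
    by_contra hcon
    rcases isEmpty_or_nonempty J with hJ | hJ
    · exact hF.fail ⟨fun v => v ⟨0, hr⟩, isPol_proj _, fun j => (hJ.false j).elim⟩
    · have hle : Fintype.card J ≤ Fintype.card (Fin K) := by
        rw [Fintype.card_fin]
        omega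
      obtain ⟨emb⟩ := Function.Embedding.nonempty_of_card_le hle
      have hsurj := invFun_surjective emb.injective
      obtain ⟨w, hw, hwx⟩ := exists_small hr ψ hψ (fun s => x (invFun emb s))
        (hy _ (Or.inr ⟨fun s => x (invFun emb s), ψ, fun s => hF.mem _, rfl⟩))
      refine hF.fail ⟨w, hw, fun j => ?_⟩
      obtain ⟨s, rfl⟩ := hsurj j
      rw [hwx s]
      exact (hF.cong _).refl _ (hymem _ (hF.mem _))
  -- the maximal relation
  let B : J → Set A := fun j => Sg Γ (x j)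
  let M₀ : Set (J → A) := {z | ∃ w : (Fin r → A) → A, IsPol Γ w ∧ ∀ j, θ j (w (x j)) (z j)}
  let y' : J → A := fun j => y (x j)
  have hM₀inv : Inv Γ M₀ := by
    intro n f hf z hz
    choose w hw hwz using hz
    exact ⟨fun v => f fun i => w i v, hf.comp hw,
      fun j => (hF.cong j).comp n f hf _ _ fun i => hwz i j⟩
  have hM₀sub : ∀ z ∈ M₀, ∀ j, z j ∈ B j := by
    rintro z ⟨w, hw, hwz⟩ j
    exact ((hF.cong j).mem _ _ (hwz j)).2
  have hM₀y : y' ∉ M₀ := fun ⟨w, hw, hwz⟩ => hF.fail ⟨w, hw, hwz⟩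
  obtain ⟨M, hM⟩ := (Set.toFinite {N : Set (J → A) | Inv Γ N ∧ M₀ ⊆ N ∧
    (∀ z ∈ N, ∀ j, z j ∈ B j) ∧ y' ∉ N}).exists_maximal ⟨M₀, hM₀inv, subset_rfl, hM₀sub, hM₀y⟩
  obtain ⟨⟨hMinv, hM₀M, hMsub, hMy⟩, hMmax⟩ := hM
  have hw_mem : ∀ w : (Fin r → A) → A, IsPol Γ w → (fun j => w (x j)) ∈ M := fun w hw =>
    hM₀M ⟨w, hw, fun j => (hF.cong j).refl _ ⟨w, hw, rfl⟩⟩
  have hcrit : CritAt Γ B M y' := by
    refine ⟨hMinv, hMsub, ?_, fun j => hymem _ (hF.mem j), hMy, ?_, ?_⟩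
    · rintro j _ ⟨w, hw, rfl⟩
      exact ⟨_, hw_mem w hw, rfl⟩
    · intro j
      obtain ⟨w, hw, hwx⟩ := M1 j
      refine ⟨w (x j), hM₀M ⟨w, hw, fun i => ?_⟩⟩
      by_cases hij : i = j
      · subst hij
        rw [update_self]
        exact (hF.cong i).refl _ ⟨w, hw, rfl⟩
      · rw [update_of_ne hij]
        exact hwx i hij
    · intro N hN1 hN2 hN3 hN4
      exact hMmax ⟨hN1, hM₀M.trans hN2, hN3, hN4⟩ hN2
  have hstruct : ∀ j, IsCong Γ (B j) (Ker M j) ∧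
      (∀ x ∈ M, ∀ b, Ker M j (x j) b → update x j b ∈ M) ∧
      ∃ μ, IsMonolith Γ (B j) (Ker M j) μ ∧ (∀ a, update y' j a ∈ M → μ a (y' j)) ∧
        Centralizes Γ μ μ (Ker M j) :=
    structStmt (paraStmt Γ) ke e hke he m G q hG J B M y' (by omega) (by omega)
      (fun j => sg_isSub _) hcrit
  have hθKer : ∀ j a b, θ j a b → Ker M j a b := by
    intro j a b hab
    obtain ⟨w, hw, rfl⟩ := ((hF.cong j).mem a b hab).1
    refine ⟨_, hw_mem w hw, rfl, hM₀M ⟨w, hw, fun i => ?_⟩⟩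
    by_cases hij : i = j
    · subst hij
      rw [update_self]
      exact hab
    · rw [update_of_ne hij]
      exact (hF.cong i).refl _ ⟨w, hw, rfl⟩
  have hKerθ : ∀ j a b, Ker M j a b → θ j a b := by
    by_contra hcon
    push Not at hcon
    obtain ⟨w, hw, hwx⟩ := M2 (fun j => Ker M j) (fun j => (hstruct j).1) hθKer hcon
    exact hMy (saturate (fun j => (hstruct j).2.1) (hw_mem w hw) hwx)
  have hKer : ∀ j, Ker M j = θ j := fun j =>
    funext fun a => funext fun b => propext ⟨hKerθ j a b, hθKer j a b⟩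
  have hμ : ∀ j, ∃ (μ : A → A → Prop) (p : ℕ), IsAb Γ (Sg Γ (x j)) (θ j) μ ∧
      ncl (Sg Γ (x j)) μ ≤ h ∧ (∃ a b, μ a b ∧ ¬ θ j a b) ∧
      p.Prime ∧ p ≤ Nat.card A ∧ IsExp (Sg Γ (x j)) q (θ j) μ p := by
    intro j
    obtain ⟨-, -, μ, h1, -, h3⟩ := hstruct j
    rw [hKer j] at h1 h3
    have hAb : IsAb Γ (Sg Γ (x j)) (θ j) μ := ⟨hF.cong j, h1.cong, h1.le, h3⟩
    obtain ⟨p, hp, hp', hp''⟩ := groupStmt2 Γ m G q hG _ _ _ hAb h1
    have h4 := ncl_lt (hF.cong j) h1.cong h1.le h1.ne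
    have h5 := hF.le j
    exact ⟨μ, p, hAb, by omega, h1.ne, hp, hp', hp''⟩
  choose μ p hAb hncl hne hp hp' hexp using hμ
  have M2' : ∀ i, ∃ w : (Fin r → A) → A, IsPol Γ w ∧ μ i (w (x i)) (y (x i)) ∧
      ∀ l, l ≠ i → θ l (w (x l)) (y (x l)) := by
    intro i
    obtain ⟨w, hw, hwx⟩ := M2 (update θ i (μ i)) (fun l => by
      by_cases hl : l = i
      · subst hl
        rw [update_self]
        exact (hAb l).congμ
      · rw [update_of_ne hl]
        exact hF.cong l) (fun l a b => by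
      by_cases hl : l = i
      · subst hl
        rw [update_self]
        exact (hAb l).le a b
      · rw [update_of_ne hl]
        exact id) (by
      obtain ⟨a, b, h1, h2⟩ := hne i
      exact ⟨i, a, b, by rw [update_self]; exact h1, h2⟩)
    refine ⟨w, hw, ?_, fun l hl => ?_⟩
    · have := hwx i
      rwa [update_self] at this
    · have := hwx l
      rwa [update_of_ne hl] at this
  have hpeq : ∀ i j, p i = p j := by
    intro i j
    by_contra hij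
    have hij' : i ≠ j := fun h => hij (h ▸ rfl)
    obtain ⟨wi, hwi, hwi1, hwi2⟩ := M2' i
    obtain ⟨wj, hwj, hwj1, hwj2⟩ := M2' j
    obtain ⟨N, hN1, hN2⟩ := Nat.chineseRemainder ((Nat.coprime_primes (hp i) (hp j)).2 hij) 1 0
    have hN1' : N % p i = 1 := by
      rw [hN1, Nat.mod_eq_of_lt (hp i).one_lt]
    have hN2' : N % p j = 0 := by
      rw [hN2, Nat.zero_mod]
    have hz : ∀ n : ℕ, IsPol Γ fun v : Fin r → A => (q (wj v) (wi v))^[n] (wi v) := by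
      intro n
      induction n with
      | zero => exact hwi
      | succ n ih =>
        have := Grp.pol3 hG.polq hwj hwi ih
        convert this using 2
        rename_i v
        exact iterate_succ_apply' _ _ _
    refine hF.fail ⟨_, hz N, fun l => ?_⟩
    by_cases hli : l = i
    · subst hli
      have h1 : μ l (wj (x l)) (wi (x l)) := (hAb l).congμ.trans _ _ _
        ((hAb l).le _ _ (hwj2 l hij')) ((hAb l).congμ.symm _ _ hwi1)
      have h2 := ((groupStmt4 Γ m G q hG _ _ _ (hAb l) (p l) (hexp l) _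
        ((hAb l).congμ.mem _ _ hwi1).1 _ h1 N).2 hN1')
      exact (hF.cong l).trans _ _ _ h2 (hwj2 l hij')
    · by_cases hlj : l = j
      · subst hlj
        have h1 : μ l (wj (x l)) (wi (x l)) := (hAb l).congμ.trans _ _ _ hwj1
          ((hAb l).le _ _ ((hF.cong l).symm _ _ (hwi2 l hli)))
        have h2 := ((groupStmt4 Γ m G q hG _ _ _ (hAb l) (p l) (hexp l) _
          ((hAb l).congμ.mem _ _ h1).2 _ h1 N).1 hN2')
        exact (hF.cong l).trans _ _ _ h2 (hwi2 l hli)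
      · have h3 := Grp.iter_cong hG (hAb l) (hF.cong l) (hwj2 l hlj) (hwi2 l hli) (hwi2 l hli) N
        rwa [Grp.iter_self hG (hAb l)] at h3
  obtain ⟨j₀⟩ : Nonempty J := Fintype.card_pos_iff.1 (by omega)
  obtain ⟨w', hw', hw'x⟩ := hV (p j₀) (hp j₀) (hp' j₀) (Set.range x) (by
    rintro _ ⟨j, rfl⟩ τ hτ
    have hτ' : τ ∈ Charts K k Pt := Or.inl ⟨x j, hF.mem j, hτ⟩
    refine ⟨hy τ hτ', fun b S θ' μ' htyp hb => ?_⟩
    have hsub : Sg Γ (b ∘ τ) ⊆ S := sg_subset htyp.sub hb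
    have h1 := hw₀' (b ∘ τ) (Or.inr ⟨τ, hτ', b, rfl⟩) _
      (restrict_cong htyp.ab.congμ (sg_isSub (b ∘ τ)) hsub)
      ((ncl_restrict μ' hsub).trans htyp.ncl_le)
    exact htyp.ab.congμ.symm _ _ h1.1)
  refine hF.fail ⟨w', hw', fun j => hw'x (x j) ⟨j, rfl⟩ (Sg Γ (x j)) (θ j) (μ j)
    ⟨sg_isSub _, hAb j, ?_, hncl j⟩ (letter_mem (x j))⟩
  rw [← hpeq j j₀]
  exact hexp j

end step

end GH

open Function in
/-- Module GH. -/
theorem ghStmt {A : Type} [Finite A] {Γ : Set (FinRel A)} (hV : VSysStmt Γ) {ke : ℕ}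
    {e : (Option (Fin ke) → A) → A} (hke : 2 ≤ ke) (he : IsEdge Γ ke e) : GHStmt Γ := by
  classical
  have := Fintype.ofFinite A
  obtain ⟨m, G, q, hG⟩ := gummStmt Γ ke e hke he
  choose k₀ hk₀ using fun (p h : ℕ) (hp : p.Prime) => hV m G q hG p h hp
  let K := max ke 3
  let k₁ : ℕ → ℕ → ℕ := fun p h => if hp : p.Prime then k₀ p h hp else 0
  let k := Fintype.card (Fin K → A) + ∑ p ∈ Finset.range (Nat.card A + 1),
    ∑ h ∈ Finset.range (Nat.card A + 1), k₁ p h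
  have hk : ∀ p h (hp : p.Prime), p ≤ Nat.card A → h ≤ Nat.card A → k₀ p h hp ≤ k := by
    intro p h hp h1 h2
    have h3 : k₁ p h = k₀ p h hp := dif_pos hp
    have h4 : k₁ p h ≤ ∑ h ∈ Finset.range (Nat.card A + 1), k₁ p h :=
      Finset.single_le_sum (f := fun h => k₁ p h) (fun _ _ => Nat.zero_le _)
        (Finset.mem_range.2 (by omega))
    have h5 : ∑ h ∈ Finset.range (Nat.card A + 1), k₁ p h ≤
        ∑ p ∈ Finset.range (Nat.card A + 1), ∑ h ∈ Finset.range (Nat.card A + 1), k₁ p h :=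
      Finset.single_le_sum (f := fun p => ∑ h ∈ Finset.range (Nat.card A + 1), k₁ p h)
        (fun _ _ => Nat.zero_le _) (Finset.mem_range.2 (by omega))
    rw [← h3]
    exact (h4.trans h5).trans (Nat.le_add_left _ _)
  have hψ : ∃ ψ : (Fin K → A) → Fin k, Injective ψ :=
    ⟨fun v => Fin.castAdd _ (Fintype.equivFin (Fin K → A) v),
      (Fin.castAdd_injective _ _).comp (Fintype.equivFin (Fin K → A)).injective⟩
  obtain ⟨ψ, hψ⟩ := hψ
  refine ⟨K, k, fun r hr P y hy => ?_⟩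
  have key : ∀ h, h ≤ Nat.card A → ∃ w : (Fin r → A) → A, IsPol Γ w ∧
      ∀ x ∈ Lev K k P (Nat.card A - h), ∀ θ : A → A → Prop, IsCong Γ (GH.Sg Γ x) θ →
        ncl (GH.Sg Γ x) θ ≤ h → θ (w x) (y x) := by
    intro h
    induction h with
    | zero =>
      intro _
      refine ⟨fun v => v ⟨0, hr⟩, isPol_proj _, fun x _ θ _ h1 => ?_⟩
      have h2 : 0 < ncl (GH.Sg Γ x) θ := GH.ncl_pos ⟨_, GH.letter_mem x ⟨0, hr⟩⟩
      omega
    | succ h ih =>
      intro hh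
      obtain ⟨w₀, hw₀, hw₀'⟩ := ih (by omega)
      have h1 : Nat.card A - h = (Nat.card A - (h + 1)) + 1 := by omega
      refine GH.step hke he hG (le_max_left _ _) (le_max_right _ _) hr ψ hψ (w₀ := w₀)
        (hy _ (by omega)) ?_ ?_
      · rw [h1] at hw₀'
        exact hw₀'
      · intro p hp hp' Q hQ
        exact hk₀ p h hp k (hk p h hp hp' (by omega)) r hr y w₀ hw₀ Q hQ
  obtain ⟨w, hw, hw'⟩ := key (Nat.card A) le_rfl
  rw [Nat.sub_self] at hw'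
  refine ⟨w, hw, fun x hx => ?_⟩
  have h1 : IsCong Γ (GH.Sg Γ x) (fun a b => a = b ∧ a ∈ GH.Sg Γ x) := by
    refine ⟨?_, fun a ha => ⟨rfl, ha⟩, ?_, ?_, ?_⟩
    · rintro a b ⟨rfl, h⟩
      exact ⟨h, h⟩
    · rintro a b ⟨rfl, h⟩
      exact ⟨rfl, h⟩
    · rintro a b c ⟨rfl, h⟩ ⟨rfl, h'⟩
      exact ⟨rfl, h⟩
    · intro n f hf v v' h
      have h2 : v = v' := funext fun i => (h i).1
      subst h2
      exact ⟨rfl, GH.sg_isSub x n f hf v fun i => (h i).2⟩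
  exact (hw' x hx _ h1 (GH.ncl_le_card _ _)).1

end Pool.Agent.Lib.MP2ea600
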