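import Mathlib

/-!
# Linear systems: families of subspaces of `K^(U × B^r)` closed under substitution of variables
(MP_2ea600_lc)

`U` is an index set, `B` an alphabet, `K` a field.  Words of length `r` are functions
`Fin r → B`, and the space of functions is `U → (Fin r → B) → K`.
-/

namespace Pool.Agent.Lib.MP2ea600.LS

open Function

/-- A family of subspaces `V r ≤ K^(U × B^r)`. -/
abbrev Fam (K U B : Type) [Field K] := ∀ r : ℕ, Submodule K (U → (Fin r → B) → K)

variable {K U U₂ U₃ B : Type} [Field K]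

/-- The word obtained from `v` by substituting variables and constants as prescribed by `σ`. -/
def sb {r r' : ℕ} (σ : Fin r → Fin r' ⊕ B) (v : Fin r' → B) : Fin r → B :=
  fun i => Sum.elim v id (σ i)

/-- Closed under substitution of variables. -/
def SubstClosed (V : Fam K U B) : Prop :=
  ∀ (r r' : ℕ) (σ : Fin r → Fin r'), ∀ f ∈ V r, (fun u v => f u (v ∘ σ)) ∈ V r'

/-- A system: closed under substitution of variables and of constants from `L`, and under
multiplication by functions of the colours of the letters. -/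
structure IsSys (L : Set B) (c : B → ℕ) (V : Fam K U B) : Prop where
  subst : ∀ (r r' : ℕ) (σ : Fin r → Fin r' ⊕ B), (∀ i b, σ i = Sum.inr b → b ∈ L) →
    ∀ f ∈ V r, (fun u v => f u (sb σ v)) ∈ V r'
  mul : ∀ (r : ℕ) (θ : (Fin r → ℕ) → K), ∀ f ∈ V r, (fun u v => θ (c ∘ v) * f u v) ∈ V r

/-- `w` is obtained from `v` by cutting the set of positions into at most `C` intervals and
applying a letter map on each of them. -/
def Cx (C : ℕ) {r : ℕ} (v w : Fin r → B) : Prop :=
  ∃ (κ : Fin r → ℕ) (g : ℕ → B → B), Monotone κ ∧ (∀ i, κ i < C) ∧ ∀ i, w i = g (κ i) (v i)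

/-- The linear map `T` is local with constant `C`: the values of `T f` at the word `v` depend only
on the values of `f` at the words `w` with `Cx C v w`. -/
def Loc (C : ℕ) {r : ℕ} (T : (U → (Fin r → B) → K) →ₗ[K] (U₂ → (Fin r → B) → K)) : Prop :=
  ∀ (f : U → (Fin r → B) → K) (v : Fin r → B), (∀ w, Cx C v w → ∀ u, f u w = 0) →
    ∀ u, T f u v = 0

/-- The family has local projections, uniformly in the length of the words. -/
def IsLS (V : Fam K U B) : Prop :=
  ∃ C : ℕ, ∀ r : ℕ, ∃ P : (U → (Fin r → B) → K) →ₗ[K] (U → (Fin r → B) → K),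
    (∀ f, P f ∈ V r) ∧ (∀ f ∈ V r, P f = f) ∧ Loc C P

/-- A linear map on indices, applied at every word. -/
def app (a : (U → K) →ₗ[K] (U₂ → K)) (r : ℕ) :
    (U → (Fin r → B) → K) →ₗ[K] (U₂ → (Fin r → B) → K) where
  toFun f := fun u₂ v => a (fun u => f u v) u₂
  map_add' f g := by
    funext u₂ v
    exact congrFun (a.map_add (fun u => f u v) fun u => g u v) u₂
  map_smul' t f := by
    funext u₂ v
    exact congrFun (a.map_smul t fun u => f u v) u₂

@[simp] theorem app_apply (a : (U → K) →ₗ[K] (U₂ → K)) (r : ℕ) (f : U → (Fin r → B) → K) (u₂ : U₂)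
    (v : Fin r → B) : app a r f u₂ v = a (fun u => f u v) u₂ := rfl

/-- The image of a family under a linear map on indices. -/
def mapF (a : (U → K) →ₗ[K] (U₂ → K)) (V : Fam K U B) : Fam K U₂ B :=
  fun r => (V r).map (app a r)

/-- The kernel of a linear map on indices, restricted to a family. -/
def kerF (a : (U → K) →ₗ[K] (U₂ → K)) (V : Fam K U B) : Fam K U B :=
  fun r => V r ⊓ LinearMap.ker (app a r)

/-- A chart of the word `v`: a map that is monotone on the set of positions of each letter. -/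
def IsChart {r k : ℕ} (v : Fin r → B) (τ : Fin r → Fin k) : Prop :=
  ∀ i j, i ≤ j → v i = v j → τ i ≤ τ j

/-! ### Statements of the modules -/

/-- Module OMEGA, first statement. -/
def OmegaStmt (B : Type) [Fintype B] : Prop :=
  ∀ (C r : ℕ) (v : Fin r → B), 0 < r → ∃ (ι : Type) (_ : Fintype ι) (c : ι → ℤ)
    (σ : ι → Fin (Fintype.card B * C) → Fin r) (τ : ι → Fin r → Fin (Fintype.card B * C)),
    (∀ j, IsChart v (τ j)) ∧ ∀ w : Fin r → B, Cx C v w →
      ∀ (G : Type) (_ : AddCommGroup G) (F : (Fin r → B) → G),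
        F w = ∑ j, c j • F (w ∘ σ j ∘ τ j)

/-- Module OMEGA, second statement. -/
def ChartStmt (B : Type) [Fintype B] : Prop :=
  ∀ (k r : ℕ) (v : Fin r → B) (τ : Fin r → Fin k), IsChart v τ → ∀ b : Fin k → B,
    Cx (Fintype.card B * k + 1) v (b ∘ τ)

/-- Module DCC. -/
def DccStmt (K U B : Type) [Field K] : Prop :=
  ∀ S : Set (Fam K U B), (∀ V ∈ S, SubstClosed V) → S.Nonempty →
    ∃ V ∈ S, ∀ W ∈ S, W ≤ V → W = V

/-- Module LIFT. -/
def LiftStmt (K U U₂ B : Type) [Field K] : Prop :=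
  ∀ (V : Fam K U B), SubstClosed V → ∀ a : (U → K) →ₗ[K] (U₂ → K), IsLS (kerF a V) →
    ∃ C, ∀ r, ∃ S : (U₂ → (Fin r → B) → K) →ₗ[K] (U → (Fin r → B) → K), Loc C S ∧
      ∀ f ∈ V r, S (app a r f) ∈ V r ∧ f - S (app a r f) ∈ kerF a V r

/-- Module EXT. -/
def ExtStmt (K U U₂ B : Type) [Field K] : Prop :=
  ∀ (V : Fam K U B), SubstClosed V → ∀ a : (U → K) →ₗ[K] (U₂ → K), IsLS (kerF a V) →
    IsLS (mapF a V) → IsLS V

/-- Module QUOT. -/
def QuotStmt (K U U₂ B : Type) [Field K] : Prop :=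
  ∀ (V : Fam K U B), SubstClosed V → ∀ a : (U → K) →ₗ[K] (U₂ → K), IsLS (kerF a V) →
    IsLS V → IsLS (mapF a V)

/-- The main theorem on linear systems. -/
def AllLSStmt (K U B : Type) [Field K] : Prop :=
  ∀ (L : Set B) (c : B → ℕ) (V : Fam K U B), IsSys L c V → IsLS V

/-- Local extension. -/
def LocalExtStmt (K U B : Type) [Field K] : Prop :=
  ∀ V : Fam K U B, SubstClosed V → ∃ k₀, ∀ k, k₀ ≤ k → ∀ (r : ℕ), 0 < r →
    ∀ y : U → (Fin r → B) → K, ∃ f ∈ V r, ∀ v : Fin r → B,
      (∀ τ : Fin r → Fin k, IsChart v τ → (fun u b => y u (b ∘ τ)) ∈ V k) → ∀ u, f u v = y u v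

end Pool.Agent.Lib.MP2ea600.LS
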