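import Pool.Agent.Lib.MP_2ea600_lc.UADefs
import Pool.Agent.Lib.MP_2ea600_lc.LSDefs

/-!
# Definitions and statements of the modules VSYS, GH and FINAL (MP_2ea600_lc)
-/

namespace Pool.Agent.Lib.MP2ea600

open Function

/-- The number of classes of `μ` on `S`. -/
noncomputable def ncl {A : Type} (S : Set A) (μ : A → A → Prop) : ℕ :=
  ((fun a => {x | μ a x}) '' S).ncard

/-- `S` is a subuniverse with congruences `θ ≤ μ`, where `μ` is abelian of exponent `p` modulo `θ`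
and has at most `h` classes. -/
structure IsTyp {A : Type} (Γ : Set (FinRel A)) (q : A → A → A → A) (p h : ℕ) (S : Set A)
    (θ μ : A → A → Prop) : Prop where
  sub : IsSub Γ S
  ab : IsAb Γ S θ μ
  exp : IsExp S q θ μ p
  ncl_le : ncl S μ ≤ h

/-- Module VSYS: correction of a polymorphism `w` inside the `μ`-classes of all types. -/
def VSysStmt {A : Type} (Γ : Set (FinRel A)) : Prop :=
  ∀ m G q, IsGumm Γ m G q → ∀ p h : ℕ, p.Prime → ∃ k₀ : ℕ, ∀ k, k₀ ≤ k →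
    ∀ r : ℕ, 0 < r → ∀ y w : (Fin r → A) → A, IsPol Γ w → ∀ Q : Set (Fin r → A),
    (∀ x ∈ Q, ∀ τ : Fin r → Fin k, LS.IsChart x τ →
      (IsPol Γ fun b : Fin k → A => y (b ∘ τ)) ∧
      ∀ (b : Fin k → A) (S : Set A) (θ μ : A → A → Prop), IsTyp Γ q p h S θ μ →
        (∀ i, b (τ i) ∈ S) → μ (y (b ∘ τ)) (w (b ∘ τ))) →
    ∃ w' : (Fin r → A) → A, IsPol Γ w' ∧
      ∀ x ∈ Q, ∀ (S : Set A) (θ μ : A → A → Prop), IsTyp Γ q p h S θ μ →
        (∀ i, x i ∈ S) → θ (w' x) (y x)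

/-- The charts of a set of points: charts of single points, and maps depending only on the values
of `K` points. -/
def Charts {A : Type} (K k : ℕ) {r : ℕ} (P : Set (Fin r → A)) : Set (Fin r → Fin k) :=
  {τ | (∃ x ∈ P, LS.IsChart x τ) ∨
    ∃ (x : Fin K → Fin r → A) (ψ : (Fin K → A) → Fin k), (∀ s, x s ∈ P) ∧
      τ = fun i => ψ fun s => x s i}

/-- The points of `P` and all points factoring through a chart of `P`. -/
def Next {A : Type} (K k : ℕ) {r : ℕ} (P : Set (Fin r → A)) : Set (Fin r → A) :=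
  P ∪ {x | ∃ τ ∈ Charts K k P, ∃ b : Fin k → A, x = b ∘ τ}

/-- Iterates of `Next`. -/
def Lev {A : Type} (K k : ℕ) {r : ℕ} (P : Set (Fin r → A)) : ℕ → Set (Fin r → A)
  | 0 => P
  | j + 1 => Next K k (Lev K k P j)

/-- Module GH: locally polymorphic assignments extend to polymorphisms on `P`. -/
def GHStmt {A : Type} (Γ : Set (FinRel A)) : Prop :=
  ∃ K k : ℕ, ∀ r : ℕ, 0 < r → ∀ (P : Set (Fin r → A)) (y : (Fin r → A) → A),
    (∀ j < Nat.card A, ∀ τ ∈ Charts K k (Lev K k P j), IsPol Γ fun b : Fin k → A => y (b ∘ τ)) →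
    ∃ w : (Fin r → A) → A, IsPol Γ w ∧ ∀ x ∈ P, w x = y x

/-- Module FINAL. -/
def FinalStmt {A : Type} (Γ : Set (FinRel A)) : Prop :=
  GHStmt Γ → (∃ p : Polynomial ℕ, ∀ n : ℕ, 0 < n → ∀ N : Set (Fin n → A), Inv Γ N →
    ∃ r ≤ p.eval n, ∃ u : Fin r → Fin n → A, N = GenRel Γ u) → HasShortPPDefinitions Γ

end Pool.Agent.Lib.MP2ea600
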