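import Pool.Agent.Lib.MP_2ea600_lc.LSDefs

/-!
# Linear systems: basic lemmas (MP_2ea600_lc)
-/

namespace Pool.Agent.Lib.MP2ea600.LS

open Function

variable {K U U₂ U₃ B : Type} [Field K] {L : Set B} {c : B → ℕ} {V : Fam K U B}

theorem Cx.refl {C : ℕ} (hC : 0 < C) {r : ℕ} (v : Fin r → B) : Cx C v v :=
  ⟨fun _ => 0, fun _ => id, monotone_const, fun _ => hC, fun _ => rfl⟩

theorem Cx.mono {C C' : ℕ} (h : C ≤ C') {r : ℕ} {v w : Fin r → B} (hw : Cx C v w) : Cx C' v w := by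
  obtain ⟨κ, g, h1, h2, h3⟩ := hw
  exact ⟨κ, g, h1, fun i => (h2 i).trans_le h, h3⟩

theorem Cx.trans {C C' : ℕ} {r : ℕ} {v w x : Fin r → B} (h1 : Cx C v w) (h2 : Cx C' w x) :
    Cx (C * C') v x := by
  obtain ⟨κ, g, hκ, hC, hg⟩ := h1
  obtain ⟨κ', g', hκ', hC', hg'⟩ := h2
  refine ⟨fun i => κ i * C' + κ' i, fun n b => g' (n % C') (g (n / C') b), ?_, ?_, ?_⟩
  · intro i j hij
    exact Nat.add_le_add (Nat.mul_le_mul_right _ (hκ hij)) (hκ' hij)
  · intro i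
    have h1 := hC i
    have h2 := hC' i
    calc κ i * C' + κ' i < κ i * C' + C' := by omega
      _ = (κ i + 1) * C' := by ring
      _ ≤ C * C' := Nat.mul_le_mul_right _ h1
  · intro i
    have h2 := hC' i
    have hpos : 0 < C' := by omega
    have e1 : (κ i * C' + κ' i) % C' = κ' i := by
      rw [Nat.mul_comm, Nat.mul_add_mod, Nat.mod_eq_of_lt h2]
    have e2 : (κ i * C' + κ' i) / C' = κ i := by
      rw [Nat.mul_comm, Nat.mul_add_div hpos, Nat.div_eq_of_lt h2, Nat.add_zero]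
    simp only [e1, e2]
    rw [hg' i, hg i]

theorem Loc.mono {C C' : ℕ} (h : C ≤ C') {r : ℕ}
    {T : (U → (Fin r → B) → K) →ₗ[K] (U₂ → (Fin r → B) → K)} (hT : Loc C T) : Loc C' T :=
  fun f v hf => hT f v fun w hw => hf w (hw.mono h)

theorem Loc.comp {C C' : ℕ} {r : ℕ} {S : (U → (Fin r → B) → K) →ₗ[K] (U₂ → (Fin r → B) → K)}
    {T : (U₂ → (Fin r → B) → K) →ₗ[K] (U₃ → (Fin r → B) → K)} (hS : Loc C S) (hT : Loc C' T) :
    Loc (C' * C) (T ∘ₗ S) :=
  fun f v hf => hT (S f) v fun w hw u => hS f w (fun x hx => hf x (hw.trans hx)) u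

theorem Loc.add {C C' : ℕ} {r : ℕ} {S T : (U → (Fin r → B) → K) →ₗ[K] (U₂ → (Fin r → B) → K)}
    (hS : Loc C S) (hT : Loc C' T) : Loc (max C C') (S + T) := by
  intro f v hf u
  have h1 := (hS.mono (le_max_left C C')) f v hf u
  have h2 := (hT.mono (le_max_right C C')) f v hf u
  simp [h1, h2]

theorem Loc.sub {C C' : ℕ} {r : ℕ} {S T : (U → (Fin r → B) → K) →ₗ[K] (U₂ → (Fin r → B) → K)}
    (hS : Loc C S) (hT : Loc C' T) : Loc (max C C') (S - T) := by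
  intro f v hf u
  have h1 := (hS.mono (le_max_left C C')) f v hf u
  have h2 := (hT.mono (le_max_right C C')) f v hf u
  simp [h1, h2]

theorem loc_id {r : ℕ} : Loc 1 (LinearMap.id : (U → (Fin r → B) → K) →ₗ[K] _) :=
  fun _ v hf u => hf v (Cx.refl one_pos v) u

theorem loc_app (a : (U → K) →ₗ[K] (U₂ → K)) (r : ℕ) : Loc (B := B) 1 (app a r) := by
  intro f v hf u
  have : (fun u => f u v) = 0 := funext fun u => hf v (Cx.refl one_pos v) u
  rw [app_apply, this, map_zero]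
  rfl

theorem IsLS.exists_pos (h : IsLS V) : ∃ C : ℕ, 0 < C ∧ ∀ r : ℕ,
    ∃ P : (U → (Fin r → B) → K) →ₗ[K] (U → (Fin r → B) → K),
    (∀ f, P f ∈ V r) ∧ (∀ f ∈ V r, P f = f) ∧ Loc C P := by
  obtain ⟨C, hC⟩ := h
  refine ⟨C + 1, Nat.succ_pos _, fun r => ?_⟩
  obtain ⟨P, h1, h2, h3⟩ := hC r
  exact ⟨P, h1, h2, h3.mono (Nat.le_succ _)⟩

theorem isLS_bot : IsLS (⊥ : Fam K U B) :=
  ⟨0, fun _ => ⟨0, fun f => by simp, fun f hf => by
    have : f = 0 := by simpa using hf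
    simp [this], fun _ _ _ _ => rfl⟩⟩

/-! ### Systems -/

theorem sb_inl {r r' : ℕ} (σ : Fin r → Fin r') (v : Fin r' → B) :
    sb (fun i => Sum.inl (σ i)) v = v ∘ σ := rfl

theorem IsSys.substClosed (h : IsSys L c V) : SubstClosed V := by
  intro r r' σ f hf
  exact h.subst r r' (fun i => Sum.inl (σ i)) (fun i b hb => by simp at hb) f hf

theorem IsSys.mapF (h : IsSys L c V) (a : (U → K) →ₗ[K] (U₂ → K)) : IsSys L c (mapF a V) := by
  constructor
  · rintro r r' σ hσ _ ⟨f, hf, rfl⟩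
    exact ⟨_, h.subst r r' σ hσ f hf, rfl⟩
  · rintro r θ _ ⟨f, hf, rfl⟩
    refine ⟨_, h.mul r θ f hf, ?_⟩
    funext u v
    exact congrFun (a.map_smul (θ (c ∘ v)) fun u => f u v) u

theorem IsSys.kerF (h : IsSys L c V) (a : (U → K) →ₗ[K] (U₂ → K)) : IsSys L c (kerF a V) := by
  constructor
  · rintro r r' σ hσ f ⟨hf, hf'⟩
    refine ⟨h.subst r r' σ hσ f hf, ?_⟩
    rw [SetLike.mem_coe, LinearMap.mem_ker] at hf' ⊢
    funext u v
    exact congrFun (congrFun hf' u) (sb σ v)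
  · rintro r θ f ⟨hf, hf'⟩
    refine ⟨h.mul r θ f hf, ?_⟩
    rw [SetLike.mem_coe, LinearMap.mem_ker] at hf' ⊢
    funext u v
    have h1 := congrFun (a.map_smul (θ (c ∘ v)) fun u => f u v) u
    have h2 := congrFun (congrFun hf' u) v
    refine h1.trans ?_
    show θ (c ∘ v) * a (fun u => f u v) u = 0
    rw [app_apply] at h2
    rw [h2]
    simp

theorem kerF_le (a : (U → K) →ₗ[K] (U₂ → K)) (V : Fam K U B) : kerF a V ≤ V :=
  fun _ => inf_le_left

theorem kerF_mono (a : (U → K) →ₗ[K] (U₂ → K)) {V W : Fam K U B} (h : V ≤ W) :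
    LS.kerF a V ≤ LS.kerF a W :=
  fun r => inf_le_inf_right _ (h r)

theorem mapF_mono (a : (U → K) →ₗ[K] (U₂ → K)) {V W : Fam K U B} (h : V ≤ W) :
    LS.mapF a V ≤ LS.mapF a W :=
  fun r => Submodule.map_mono (h r)

end Pool.Agent.Lib.MP2ea600.LS
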