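import Pool.Agent.Lib.MP_2ea600_lc.LSBasic

/-!
# Linear systems: the families `R^S` and two rules (MP_2ea600_lc)
-/

namespace Pool.Agent.Lib.MP2ea600.LS

open Function

variable {K U U₂ B : Type} [Field K] {L : Set B} {c : B → ℕ} {V : Fam K U B}

theorem IsSys.subst' (h : IsSys L c V) {r r' : ℕ} {f : U → (Fin r → B) → K} (hf : f ∈ V r)
    (s : (Fin r' → B) → Fin r → B)
    (hs : ∀ i, (∃ j, ∀ v, s v i = v j) ∨ ∃ b ∈ L, ∀ v, s v i = b) :
    (fun u v => f u (s v)) ∈ V r' := by
  have h1 : ∀ i, ∃ z : Fin r' ⊕ B, (∀ b, z = Sum.inr b → b ∈ L) ∧ ∀ v, s v i = Sum.elim v id z := by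
    intro i
    rcases hs i with ⟨j, hj⟩ | ⟨b, hb, hb'⟩
    · exact ⟨Sum.inl j, fun b hb => by simp at hb, hj⟩
    · exact ⟨Sum.inr b, fun b' hb' => by simp only [Sum.inr.injEq] at hb'; exact hb' ▸ hb, hb'⟩
  choose σ hσ hσ' using h1
  have h2 := h.subst r r' σ (fun i b hb => hσ i b hb) f hf
  have h3 : (fun u v => f u (s v)) = fun u v => f u (sb σ v) := by
    funext u v
    congr 1
    funext i
    exact hσ' i v
  rw [h3]
  exact h2

theorem IsSys.mul' (h : IsSys L c V) {r : ℕ} {f : U → (Fin r → B) → K} (hf : f ∈ V r)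
    (p : (Fin r → ℕ) → Prop) [DecidablePred p] : (fun u v => if p (c ∘ v) then f u v else 0) ∈ V r := by
  have h1 := h.mul r (fun χ => if p χ then 1 else 0) f hf
  convert h1 using 3
  split_ifs <;> simp

theorem IsSys.piecewise [Finite B] (h : IsSys L c V) {r : ℕ}
    (f : (Fin r → ℕ) → (U → (Fin r → B) → K)) (hf : ∀ χ, f χ ∈ V r) :
    (fun u v => f (c ∘ v) u v) ∈ V r := by
  classical
  have := Fintype.ofFinite B
  have h1 : (fun u v => f (c ∘ v) u v) =
      ∑ χ ∈ (Finset.univ.image fun v : Fin r → B => c ∘ v),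
        fun u v => if c ∘ v = χ then f χ u v else 0 := by
    funext u v
    rw [Finset.sum_apply, Finset.sum_apply, Finset.sum_eq_single (c ∘ v)]
    · simp
    · intro χ _ hχ
      rw [if_neg (Ne.symm hχ)]
    · intro hv
      exact absurd (Finset.mem_image_of_mem _ (Finset.mem_univ v)) hv
  rw [h1]
  exact Submodule.sum_mem _ fun χ _ => h.mul' (hf χ) fun χ' => χ' = χ

/-- The family `R^S`: functions of the words of `V` whose last letter has become an index,
vanishing when this index is not in `S`. -/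
def RS (V : Fam K U B) (S : Set B) : Fam K (U × B) B := fun r =>
  { carrier := {F | (fun u (w : Fin (r + 1) → B) =>
      F (u, w (Fin.last r)) (Fin.init (α := fun _ => B) w)) ∈ V (r + 1) ∧
        ∀ u x, x ∉ S → ∀ v, F (u, x) v = 0}
    add_mem' := by
      rintro F G ⟨h1, h2⟩ ⟨h3, h4⟩
      refine ⟨(V (r + 1)).add_mem h1 h3, fun u x hx v => ?_⟩
      simp [h2 u x hx v, h4 u x hx v]
    zero_mem' := ⟨(V (r + 1)).zero_mem, fun _ _ _ _ => rfl⟩
    smul_mem' := by
      rintro t F ⟨h1, h2⟩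
      refine ⟨(V (r + 1)).smul_mem t h1, fun u x hx v => ?_⟩
      simp [h2 u x hx v] }

theorem mem_RS {S : Set B} {r : ℕ} {F : U × B → (Fin r → B) → K} : F ∈ RS V S r ↔
    (fun u (w : Fin (r + 1) → B) =>
      F (u, w (Fin.last r)) (Fin.init (α := fun _ => B) w)) ∈ V (r + 1) ∧
        ∀ u x, x ∉ S → ∀ v, F (u, x) v = 0 := Iff.rfl

/-- Evaluation of an element of `R^S`. -/
theorem RS_eval (h : IsSys L c V) {S : Set B} {r r' : ℕ} {F : U × B → (Fin r → B) → K}
    (hF : F ∈ RS V S r) (s : (Fin r' → B) → Fin r → B)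
    (hs : ∀ i, (∃ j, ∀ v, s v i = v j) ∨ ∃ b ∈ L, ∀ v, s v i = b)
    (x : (Fin r' → B) → B) (hx : (∃ j, ∀ v, x v = v j) ∨ ∃ b ∈ L, ∀ v, x v = b) :
    (fun u v => F (u, x v) (s v)) ∈ V r' := by
  have h1 := h.subst' hF.1 (fun v => Fin.snoc (α := fun _ => B) (s v) (x v)) (by
    intro i
    refine Fin.lastCases ?_ (fun j => ?_) i
    · simpa using hx
    · simpa using hs j)
  simpa using h1

/-- Substitutions in `R^S`, which may also use the index `x`. -/
theorem RS_subst (h : IsSys L c V) {S : Set B} {r r' : ℕ} {F : U × B → (Fin r → B) → K}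
    (hF : F ∈ RS V S r) (s : B → (Fin r' → B) → Fin r → B)
    (hs : ∀ i, (∃ j, ∀ x v, s x v i = v j) ∨ (∀ x v, s x v i = x) ∨ ∃ b ∈ L, ∀ x v, s x v i = b) :
    (fun p v => F p (s p.2 v)) ∈ RS V S r' := by
  refine ⟨?_, fun u x hx v => hF.2 u x hx _⟩
  have h1 := h.subst' hF.1 (fun w : Fin (r' + 1) → B => Fin.snoc (α := fun _ => B)
    (s (w (Fin.last r')) (Fin.init (α := fun _ => B) w)) (w (Fin.last r'))) (by
    intro i
    refine Fin.lastCases ?_ (fun j => ?_) i
    · exact Or.inl ⟨Fin.last r', fun v => by simp⟩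
    · rcases hs j with ⟨l, hl⟩ | hl | ⟨b, hb, hl⟩
      · exact Or.inl ⟨l.castSucc, fun v => by simp [hl, Fin.init]⟩
      · exact Or.inl ⟨Fin.last r', fun v => by simp [hl]⟩
      · exact Or.inr ⟨b, hb, fun v => by simp [hl]⟩)
  simpa using h1

theorem RS_isSys (h : IsSys L c V) (S : Set B) : IsSys L c (RS V S) := by
  constructor
  · intro r r' σ hσ F hF
    refine RS_subst h hF (fun _ v => sb σ v) fun i => ?_
    rcases hi : σ i with j | b
    · exact Or.inl ⟨j, fun x v => by simp [sb, hi]⟩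
    · exact Or.inr (Or.inr ⟨b, hσ i b hi, fun x v => by simp [sb, hi]⟩)
  · intro r θ F hF
    refine ⟨?_, fun u x hx v => by simp [hF.2 u x hx v]⟩
    have h1 := h.mul (r + 1) (fun χ => θ (Fin.init (α := fun _ => ℕ) χ)) _ hF.1
    convert h1 using 3
    rfl

theorem RS_mono (V : Fam K U B) {S T : Set B} (h : S ⊆ T) : RS V S ≤ RS V T :=
  fun _ _ hF => ⟨hF.1, fun u x hx v => hF.2 u x (fun hx' => hx (h hx')) v⟩

theorem RS_empty (V : Fam K U B) : RS V ∅ = ⊥ := by
  funext r
  refine (eq_bot_iff (α := Submodule K (U × B → (Fin r → B) → K))).2 ?_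
  intro F hF
  have : F = 0 := by
    funext ⟨u, x⟩ v
    exact hF.2 u x (Set.notMem_empty x) v
  simp [this]

/-- Evaluation at the index `s`. -/
def ev (K U : Type) [Field K] {B : Type} (s : B) : (U × B → K) →ₗ[K] (U → K) :=
  LinearMap.funLeft K K fun u => (u, s)

@[simp] theorem app_ev {r : ℕ} (s : B) (F : U × B → (Fin r → B) → K) (u : U) (v : Fin r → B) :
    app (ev K U s) r F u v = F (u, s) v := rfl

theorem ker_ev_RS (V : Fam K U B) (S : Set B) (s : B) :
    kerF (ev K U s) (RS V S) = RS V (S \ {s}) := by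
  funext r
  ext F
  constructor
  · rintro ⟨h1, h2⟩
    refine ⟨h1.1, fun u x hx v => ?_⟩
    by_cases hxs : x = s
    · rw [SetLike.mem_coe, LinearMap.mem_ker] at h2
      subst hxs
      exact congrFun (congrFun h2 u) v
    · exact h1.2 u x (fun h => hx ⟨h, hxs⟩) v
  · intro hF
    refine ⟨⟨hF.1, fun u x hx v => hF.2 u x (fun h => hx h.1) v⟩, ?_⟩
    rw [SetLike.mem_coe, LinearMap.mem_ker]
    funext u v
    exact hF.2 u s (fun h => h.2 rfl) v

theorem map_ev_RS_le (h : IsSys L c V) (S : Set B) {a : B} (ha : a ∈ L) :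
    mapF (ev K U a) (RS V S) ≤ V := by
  rintro r _ ⟨F, hF, rfl⟩
  exact RS_eval h hF (fun v => v) (fun i => Or.inl ⟨i, fun _ => rfl⟩) (fun _ => a)
    (Or.inr ⟨a, ha, fun _ => rfl⟩)

/-- The image of `R^S` under the evaluation at `s` is a system with the additional constant
`s`. -/
theorem map_ev_isSys (h : IsSys L c V) (S : Set B) (s : B) :
    IsSys (insert s L) c (mapF (ev K U s) (RS V S)) := by
  classical
  constructor
  · rintro r r' σ hσ _ ⟨F, hF, rfl⟩
    refine ⟨_, RS_subst h hF (fun x v i => match σ i with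
      | Sum.inl j => v j
      | Sum.inr b => if b = s then x else b) (fun i => ?_), ?_⟩
    · rcases hi : σ i with j | b
      · exact Or.inl ⟨j, fun x v => by simp⟩
      · by_cases hb : b = s
        · exact Or.inr (Or.inl fun x v => by simp [hb])
        · refine Or.inr (Or.inr ⟨b, ?_, fun x v => by simp [hb]⟩)
          rcases hσ i b hi with h' | h'
          · exact absurd h' hb
          · exact h'
    · funext u v
      rw [app_ev, app_ev]
      congr 1
      funext i
      simp only [sb]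
      rcases hi : σ i with j | b
      · simp
      · by_cases hb : b = s <;> simp [hb]
  · exact ((RS_isSys h S).mapF _).mul

end Pool.Agent.Lib.MP2ea600.LS
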