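import Pool.Agent.Lib.MP_2ea600_lc.Rules

/-!
# Linear systems: two rules for local projections (MP_2ea600_lc)
-/

namespace Pool.Agent.Lib.MP2ea600.LS

open Function

variable {K U U₂ B B' : Type} [Field K] {L : Set B} {c : B → ℕ} {V : Fam K U B}

/-- Restriction of functions along a letter map. -/
def res (ι : B' → B) (r : ℕ) : (U → (Fin r → B) → K) →ₗ[K] (U → (Fin r → B') → K) where
  toFun f := fun u v => f u (ι ∘ v)
  map_add' _ _ := rfl
  map_smul' _ _ := rfl

@[simp] theorem res_apply (ι : B' → B) (r : ℕ) (f : U → (Fin r → B) → K) (u : U)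
    (v : Fin r → B') : res ι r f u v = f u (ι ∘ v) := rfl

/-- Restriction of a family along a letter map. -/
def resF (ι : B' → B) (V : Fam K U B) : Fam K U B' := fun r => (V r).map (res ι r)

theorem resF_isSys (h : IsSys L c V) (ι : B' → B) : IsSys (ι ⁻¹' L) (c ∘ ι) (resF ι V) := by
  constructor
  · rintro r r' σ hσ _ ⟨f, hf, rfl⟩
    refine ⟨_, h.subst r r' (fun i => Sum.map id ι (σ i)) (fun i b hb => ?_) f hf, ?_⟩
    · rcases hi : σ i with j | b'
      · simp [hi] at hb
      · simp only [hi, Sum.map_inr, Sum.inr.injEq] at hb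
        subst hb
        exact hσ i b' hi
    · funext u v
      simp only [res_apply]
      congr 1
      funext i
      simp only [sb, comp_apply]
      rcases hi : σ i with j | b' <;> simp
  · rintro r θ _ ⟨f, hf, rfl⟩
    exact ⟨_, h.mul r θ f hf, rfl⟩

theorem cx_update [DecidableEq B] {r : ℕ} (w : Fin r → B) (s : Fin r) (x : B) :
    Cx 3 w (update w s x) := by
  refine ⟨fun i => if i < s then 0 else if i = s then 1 else 2, fun n b => if n = 1 then x else b,
    ?_, ?_, ?_⟩
  · intro i j hij
    simp only
    split_ifs <;> omega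
  · intro i
    simp only
    split_ifs <;> omega
  · intro i
    by_cases hi : i = s
    · subst hi
      simp
    · rw [update_of_ne hi]
      by_cases h1 : i < s <;> simp [h1, hi]

theorem cx_tail [DecidableEq B] (c : B → ℕ) (γ : ℕ) (b₀ : B) {r : ℕ} (v : Fin r → B) (s : Fin r) :
    Cx 2 v (fun i => if s < i ∧ c (v i) = γ then b₀ else v i) := by
  refine ⟨fun i => if s < i then 1 else 0, fun n b => if n = 1 ∧ c b = γ then b₀ else b, ?_, ?_, ?_⟩
  · intro i j hij
    simp only
    split_ifs <;> omega
  · intro i
    simp only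
    split_ifs <;> omega
  · intro i
    by_cases h : s < i <;> simp [h]

/-- `F_s ((u, x), w) = f (w[s := x]) - f (w[s := b₀])` for `x` of colour `γ`. -/
def dif (c : B → ℕ) (γ : ℕ) (b₀ : B) {r : ℕ} (s : Fin r) :
    (U → (Fin r → B) → K) →ₗ[K] (U × B → (Fin r → B) → K) where
  toFun f := fun p w => if c p.2 = γ then f p.1 (update w s p.2) - f p.1 (update w s b₀) else 0
  map_add' f g := by
    funext p w
    simp only [Pi.add_apply]
    split_ifs
    · ring
    · simp
  map_smul' t f := by
    funext p w
    simp only [Pi.smul_apply, smul_eq_mul, RingHom.id_apply]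
    split_ifs
    · ring
    · simp

theorem dif_mem (h : IsSys L c V) {γ : ℕ} {b₀ : B} (hb₀ : b₀ ∈ L) {r : ℕ} (s : Fin r)
    {f : U → (Fin r → B) → K} (hf : f ∈ V r) :
    dif c γ b₀ s f ∈ RS V {x | c x = γ ∧ x ≠ b₀} r := by
  classical
  constructor
  · have h1 := h.subst' hf (fun w : Fin (r + 1) → B =>
      update (Fin.init (α := fun _ => B) w) s (w (Fin.last r))) (by
      intro i
      by_cases hi : i = s
      · subst hi
        exact Or.inl ⟨Fin.last r, fun v => by simp⟩
      · exact Or.inl ⟨i.castSucc, fun v => by simp [update_of_ne hi, Fin.init]⟩)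
    have h2 := h.subst' hf (fun w : Fin (r + 1) → B =>
      update (Fin.init (α := fun _ => B) w) s b₀) (by
      intro i
      by_cases hi : i = s
      · subst hi
        exact Or.inr ⟨b₀, hb₀, fun v => by simp⟩
      · exact Or.inl ⟨i.castSucc, fun v => by simp [update_of_ne hi, Fin.init]⟩)
    exact h.mul' ((V (r + 1)).sub_mem h1 h2) fun χ => χ (Fin.last r) = γ
  · intro u x hx v
    show (if c x = γ then f u (update v s x) - f u (update v s b₀) else 0) = 0
    split_ifs with h1
    · have : x = b₀ := by
        by_contra h2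
        exact hx ⟨h1, h2⟩
      rw [this, sub_self]
    · rfl

theorem telescope [DecidableEq B] (c : B → ℕ) (γ : ℕ) (b₀ : B) {r : ℕ} (f : (Fin r → B) → K)
    (v : Fin r → B) :
    f v = f (fun i => if c (v i) = γ then b₀ else v i) + ∑ s : Fin r,
      if c (v s) = γ then
        f (update (fun i => if s < i ∧ c (v i) = γ then b₀ else v i) s (v s)) -
        f (update (fun i => if s < i ∧ c (v i) = γ then b₀ else v i) s b₀) else 0 := by
  let g : ℕ → K := fun m => f (fun i : Fin r => if m ≤ i.1 ∧ c (v i) = γ then b₀ else v i)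
  have h1 : ∀ s : Fin r, (if c (v s) = γ then
        f (update (fun i => if s < i ∧ c (v i) = γ then b₀ else v i) s (v s)) -
        f (update (fun i => if s < i ∧ c (v i) = γ then b₀ else v i) s b₀) else 0)
      = g (s.1 + 1) - g s.1 := by
    intro s
    split_ifs with hs
    · congr 1
      · simp only [g]
        congr 1
        funext i
        by_cases hi : i = s
        · subst hi
          simp
        · rw [update_of_ne hi]
          have : s < i ↔ s.1 + 1 ≤ i.1 := by rw [Fin.lt_def]; omega
          simp only [this]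
      · simp only [g]
        congr 1
        funext i
        by_cases hi : i = s
        · subst hi
          simp [hs]
        · rw [update_of_ne hi]
          have h2 : i.1 ≠ s.1 := fun h => hi (Fin.ext h)
          have : s < i ↔ s.1 ≤ i.1 := by rw [Fin.lt_def]; omega
          simp only [this]
    · rw [eq_comm, sub_eq_zero]
      simp only [g]
      congr 1
      funext i
      by_cases hi : i = s
      · subst hi
        simp [hs]
      · have h2 : i.1 ≠ s.1 := fun h => hi (Fin.ext h)
        have : s.1 + 1 ≤ i.1 ↔ s.1 ≤ i.1 := by omega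
        simp only [this]
  rw [Finset.sum_congr rfl fun s _ => h1 s, Fin.sum_univ_eq_sum_range (fun m => g (m + 1) - g m) r,
    Finset.sum_range_sub]
  have h2 : g 0 = f (fun i => if c (v i) = γ then b₀ else v i) := by simp [g]
  have h3 : g r = f v := by
    simp only [g]
    congr 1
    funext i
    have := i.2
    simp only [not_le.2 this, false_and, if_false]
  rw [h2, h3]
  ring

/-- First rule. -/
theorem rule_one [Finite B] (h : IsSys L c V) {γ : ℕ} {b₀ : B} (hL : b₀ ∈ L)
    (h1 : IsLS (RS V {x | c x = γ ∧ x ≠ b₀}))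
    (h2 : IsLS (resF (Subtype.val : {b : B // c b ≠ γ ∨ b = b₀} → B) V)) : IsLS V := by
  classical
  obtain ⟨C₁, hC₁⟩ := h1
  obtain ⟨C₂, hC₂⟩ := h2
  refine ⟨max C₂ (2 * C₁ * 3), fun r => ?_⟩
  obtain ⟨PT, hT1, hT2, hT3⟩ := hC₁ r
  obtain ⟨P', hP1, hP2, hP3⟩ := hC₂ r
  let ν : B → {b : B // c b ≠ γ ∨ b = b₀} := fun b =>
    if hb : c b = γ then ⟨b₀, Or.inr rfl⟩ else ⟨b, Or.inl hb⟩
  have hν : ∀ b, (ν b).1 = if c b = γ then b₀ else b := by
    intro b
    simp only [ν]
    split_ifs <;> rfl
  let tl : (Fin r → B) → Fin r → Fin r → B := fun v s i => if s < i ∧ c (v i) = γ then b₀ else v i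
  let P : (U → (Fin r → B) → K) →ₗ[K] (U → (Fin r → B) → K) :=
    { toFun := fun f u v => P' (res Subtype.val r f) u (fun i => ν (v i)) +
        ∑ s : Fin r, if c (v s) = γ then PT (dif c γ b₀ s f) (u, v s) (tl v s) else 0
      map_add' := by
        intro f g
        funext u v
        simp only [map_add, Pi.add_apply]
        have : ∀ s : Fin r, (if c (v s) = γ then PT (dif c γ b₀ s f) (u, v s) (tl v s) +
            PT (dif c γ b₀ s g) (u, v s) (tl v s) else 0) =
            (if c (v s) = γ then PT (dif c γ b₀ s f) (u, v s) (tl v s) else 0) +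
            if c (v s) = γ then PT (dif c γ b₀ s g) (u, v s) (tl v s) else 0 := by
          intro s
          split_ifs <;> simp
        rw [Finset.sum_congr rfl fun s _ => this s, Finset.sum_add_distrib]
        ring
      map_smul' := by
        intro t f
        funext u v
        simp only [map_smul, Pi.smul_apply, smul_eq_mul, RingHom.id_apply, mul_add, Finset.mul_sum,
          mul_ite, mul_zero] }
  have hP : ∀ f u v, P f u v = P' (res Subtype.val r f) u (fun i => ν (v i)) +
        ∑ s : Fin r, if c (v s) = γ then PT (dif c γ b₀ s f) (u, v s) (tl v s) else 0 :=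
    fun _ _ _ => rfl
  refine ⟨P, ?_, ?_, ?_⟩
  · intro f
    obtain ⟨g, hg, hg'⟩ := hP1 (res Subtype.val r f)
    have e1 : (fun u v => P' (res Subtype.val r f) u fun i => ν (v i)) ∈ V r := by
      have := h.piecewise (fun χ u v => g u fun i => if χ i = γ then b₀ else v i) (fun χ => by
        refine h.subst' hg (fun v i => if χ i = γ then b₀ else v i) fun i => ?_
        by_cases hi : χ i = γ
        · exact Or.inr ⟨b₀, hL, fun v => by simp [hi]⟩
        · exact Or.inl ⟨i, fun v => by simp [hi]⟩)
      convert this using 3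
      rename_i u v
      rw [← hg', res_apply]
      congr 1
      funext i
      simp only [comp_apply, hν]
    have e2 : ∀ s : Fin r, (fun u v => if c (v s) = γ then
        PT (dif c γ b₀ s f) (u, v s) (tl v s) else 0) ∈ V r := by
      intro s
      have := h.piecewise (fun χ u v => if χ s = γ then PT (dif c γ b₀ s f) (u, v s)
          (fun i => if s < i ∧ χ i = γ then b₀ else v i) else 0) (fun χ => by
        by_cases hs : χ s = γ
        · simp only [hs, if_true]
          refine RS_eval h (hT1 (dif c γ b₀ s f)) (fun v i => if s < i ∧ χ i = γ then b₀ else v i)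
            (fun i => ?_) (fun v => v s) (Or.inl ⟨s, fun _ => rfl⟩)
          by_cases hi : s < i ∧ χ i = γ
          · exact Or.inr ⟨b₀, hL, fun v => by simp [hi]⟩
          · exact Or.inl ⟨i, fun v => by simp [hi]⟩
        · simp only [hs, if_false]
          exact (V r).zero_mem)
      exact this
    have e3 : P f = (fun u v => P' (res Subtype.val r f) u fun i => ν (v i)) +
        ∑ s : Fin r, fun u v => if c (v s) = γ then
        PT (dif c γ b₀ s f) (u, v s) (tl v s) else 0 := by
      funext u v
      rw [hP, Pi.add_apply, Pi.add_apply, Finset.sum_apply, Finset.sum_apply]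
    rw [e3]
    exact (V r).add_mem e1 (Submodule.sum_mem _ fun s _ => e2 s)
  · intro f hf
    funext u v
    have e1 : P' (res Subtype.val r f) = res Subtype.val r f := hP2 _ ⟨f, hf, rfl⟩
    have e2 : ∀ s : Fin r, PT (dif c γ b₀ s f) = dif c γ b₀ s f :=
      fun s => hT2 _ (dif_mem h hL s hf)
    rw [hP, e1]
    simp only [e2]
    rw [telescope c γ b₀ (f u) v]
    congr 1
    · rw [res_apply]
      congr 1
      funext i
      simp only [comp_apply, hν]
    · refine Finset.sum_congr rfl fun s _ => ?_
      by_cases hs : c (v s) = γ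
      · rw [if_pos hs, if_pos hs]
        show (if c (v s) = γ then _ else _) = _
        rw [if_pos hs]
      · rw [if_neg hs, if_neg hs]
  · intro f v hf u
    rw [hP]
    have e1 : P' (res Subtype.val r f) u (fun i => ν (v i)) = 0 := by
      refine hP3 _ _ (fun w' hw' u' => ?_) u
      rw [res_apply]
      refine hf _ ?_ u'
      obtain ⟨κ, g, hκ, hκ', hg⟩ := hw'
      refine ⟨κ, fun n b => (g n (ν b)).1, hκ, fun i => (hκ' i).trans_le (le_max_left _ _),
        fun i => ?_⟩
      rw [comp_apply, hg i]
    have e2 : ∀ s : Fin r, PT (dif c γ b₀ s f) (u, v s) (tl v s) = 0 := by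
      intro s
      refine hT3 _ _ (fun w hw p => ?_) _
      have h3 : ∀ x, Cx (max C₂ (2 * C₁ * 3)) v (update w s x) := fun x =>
        (((cx_tail c γ b₀ v s).trans hw).trans (cx_update w s x)).mono (le_max_right _ _)
      show (if c p.2 = γ then f p.1 (update w s p.2) - f p.1 (update w s b₀) else 0) = 0
      rw [hf _ (h3 _), hf _ (h3 _)]
      simp
    rw [e1, zero_add]
    exact Finset.sum_eq_zero fun s _ => by rw [e2 s, ite_self]

/-- `G ((u, x), w) = f (u, w)` for `x` of colour `γ`. -/
def cst (c : B → ℕ) (γ : ℕ) (r : ℕ) :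
    (U → (Fin r → B) → K) →ₗ[K] (U × B → (Fin r → B) → K) where
  toFun f := fun p w => if c p.2 = γ then f p.1 w else 0
  map_add' f g := by
    funext p w
    simp only [Pi.add_apply]
    split_ifs
    · rfl
    · simp
  map_smul' t f := by
    funext p w
    simp only [Pi.smul_apply, smul_eq_mul, RingHom.id_apply]
    split_ifs
    · rfl
    · simp

theorem cst_mem (h : IsSys L c V) {γ : ℕ} {r : ℕ} {f : U → (Fin r → B) → K} (hf : f ∈ V r) :
    cst c γ r f ∈ RS V {x | c x = γ} r := by
  constructor
  · have h1 := h.subst' hf (fun w : Fin (r + 1) → B => Fin.init (α := fun _ => B) w)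
      (fun i => Or.inl ⟨i.castSucc, fun v => rfl⟩)
    exact h.mul' h1 fun χ => χ (Fin.last r) = γ
  · intro u x hx v
    exact if_neg hx

/-- Second rule. -/
theorem rule_two [Finite B] (h : IsSys L c V) {γ : ℕ} (h1 : IsLS (RS V {x | c x = γ}))
    (h2 : IsLS (resF (Subtype.val : {b : B // c b ≠ γ} → B) V)) : IsLS V := by
  classical
  obtain ⟨C₁, hC₁⟩ := h1
  obtain ⟨C₂, hC₂⟩ := h2
  refine ⟨max C₁ C₂, fun r => ?_⟩
  obtain ⟨PR, hR1, hR2, hR3⟩ := hC₁ r
  obtain ⟨P', hP1, hP2, hP3⟩ := hC₂ r
  let P : (U → (Fin r → B) → K) →ₗ[K] (U → (Fin r → B) → K) :=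
    { toFun := fun f u v => if hv : ∃ j, (c ∘ v) j = γ then PR (cst c γ r f) (u, v hv.choose) v
        else P' (res Subtype.val r f) u fun i => ⟨v i, fun hi => hv ⟨i, hi⟩⟩
      map_add' := by
        intro f g
        funext u v
        simp only [map_add, Pi.add_apply]
        split_ifs <;> rfl
      map_smul' := by
        intro t f
        funext u v
        simp only [map_smul, Pi.smul_apply, RingHom.id_apply]
        split_ifs <;> rfl }
  have hP : ∀ f u v, P f u v = if hv : ∃ j, (c ∘ v) j = γ then
      PR (cst c γ r f) (u, v hv.choose) v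
        else P' (res Subtype.val r f) u fun i => ⟨v i, fun hi => hv ⟨i, hi⟩⟩ :=
    fun _ _ _ => rfl
  refine ⟨P, ?_, ?_, ?_⟩
  · intro f
    obtain ⟨g, hg, hg'⟩ := hP1 (res Subtype.val r f)
    have := h.piecewise (fun χ u v => if hv : ∃ j, χ j = γ then
      PR (cst c γ r f) (u, v hv.choose) v else g u v) (fun χ => by
      by_cases hv : ∃ j, χ j = γ
      · simp only [hv, dite_true]
        exact RS_eval h (hR1 (cst c γ r f)) (fun v => v) (fun i => Or.inl ⟨i, fun _ => rfl⟩)
          (fun v => v hv.choose) (Or.inl ⟨_, fun _ => rfl⟩)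
      · simp only [hv, dite_false]
        exact hg)
    convert this using 3
    rename_i u v
    rw [hP]
    split_ifs with hv
    · rfl
    · rw [← hg', res_apply]
      rfl
  · intro f hf
    funext u v
    have e1 : P' (res Subtype.val r f) = res Subtype.val r f := hP2 _ ⟨f, hf, rfl⟩
    have e2 : PR (cst c γ r f) = cst c γ r f := hR2 _ (cst_mem h hf)
    rw [hP, e1, e2]
    split_ifs with hv
    · exact if_pos hv.choose_spec
    · rfl
  · intro f v hf u
    rw [hP]
    split_ifs with hv
    · refine hR3 _ _ (fun w hw p => ?_) _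
      show (if c p.2 = γ then f p.1 w else 0) = 0
      rw [hf w (hw.mono (le_max_left _ _)), ite_self]
    · refine hP3 _ _ (fun w' hw' u' => ?_) u
      rw [res_apply]
      refine hf _ ?_ u'
      obtain ⟨κ, g, hκ, hκ', hg⟩ := hw'
      refine ⟨κ, fun n b => if hb : c b ≠ γ then (g n ⟨b, hb⟩).1 else b, hκ,
        fun i => (hκ' i).trans_le (le_max_right _ _), fun i => ?_⟩
      have hi : c (v i) ≠ γ := fun hi => hv ⟨i, hi⟩
      rw [comp_apply, hg i]
      simp only [dif_pos hi]

end Pool.Agent.Lib.MP2ea600.LS
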