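import Pool.Agent.Lib.MP_2ea600_lc.Calc

/-!
# Few subpowers: definitions and statements of the modules of the proof (MP_2ea600_lc)
-/

namespace Pool.Agent.Lib.MP2ea600

open Function

/-- The invariant relation generated by a family of tuples. -/
def GenRel {A : Type} (Γ : Set (FinRel A)) {ι X : Type} (u : ι → X → A) : Set (X → A) :=
  {x | ∃ w : (ι → A) → A, IsPol Γ w ∧ x = fun i => w fun j => u j i}

/-- `Γ` has few subpowers: for some polynomial `p` there are at most `2^p(n)` relations of arity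
`n > 0` which are pp-definable from `Γ`. -/
def HasFewSubpowers {A : Type} (Γ : Set (FinRel A)) : Prop :=
  ∃ p : Polynomial ℕ, ∀ n : ℕ, 0 < n →
    {R : Set (Fin n → A) | ∃ φ : PPFormula Γ n, φ.Defines R}.ncard ≤ 2 ^ p.eval n

/-- The family `S` of subsets of `Fin k` is cubical: there is a polymorphism `t` with arguments
indexed by `S` satisfying, for each coordinate `i`, the identity `t(z_w) = x`, where `z_w = y` if
`i ∈ w` and `z_w = x` otherwise. -/
def IsCubical {A : Type} (Γ : Set (FinRel A)) {k : ℕ} (S : Finset (Finset (Fin k))) : Prop :=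
  ∃ t : (S → A) → A, IsPol Γ t ∧
    ∀ (i : Fin k) (a b : A), t (fun w => if i ∈ w.1 then b else a) = a

/-- A `k`-edge polymorphism; the argument `none` corresponds to the pair `{0, 1}` and the argument
`some j` to the singleton `{j}`. -/
structure IsEdge {A : Type} (Γ : Set (FinRel A)) (k : ℕ) (e : (Option (Fin k) → A) → A) : Prop where
  pol : IsPol Γ e
  /-- `e (b; b, a, a, ..., a) = a` and `e (b; a, b, a, ..., a) = a` -/
  low : ∀ (i : Fin k), i.1 ≤ 1 → ∀ a b : A,
    e (fun o => o.elim b fun j => if j = i then b else a) = a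
  /-- `e (a; a, a, ..., b, ..., a) = a` with `b` in position `i ≥ 2` -/
  high : ∀ (i : Fin k), 1 < i.1 → ∀ a b : A,
    e (fun o => o.elim a fun j => if j = i then b else a) = a

/-- Gumm terms `G 0, ..., G m, q`. -/
structure IsGumm {A : Type} (Γ : Set (FinRel A)) (m : ℕ) (G : ℕ → A → A → A → A)
    (q : A → A → A → A) : Prop where
  polG : ∀ i, IsPol Γ fun v : Fin 3 → A => G i (v 0) (v 1) (v 2)
  polq : IsPol Γ fun v : Fin 3 → A => q (v 0) (v 1) (v 2)
  mid : ∀ i x y, G i x y x = x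
  first : ∀ x z, G 0 x x z = x
  step : ∀ i < m, ∀ x z, G i x z z = G (i + 1) x x z
  last : ∀ x z, G m x z z = q x z z
  qleft : ∀ x z, q x x z = z

/-- The relation `θ_j` on the `j`-th coordinate: some `c` can be completed by both `a` and `b`. -/
def Ker {A J : Type} [DecidableEq J] (M : Set (J → A)) (j : J) (a b : A) : Prop :=
  ∃ x ∈ M, x j = a ∧ update x j b ∈ M

/-- `M` is an invariant relation, subdirect in the product of the subuniverses `B j`, maximal
without the tuple `y`, while all the tuples `y` changed suitably in one place are in `M`. -/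
structure CritAt {A J : Type} [DecidableEq J] (Γ : Set (FinRel A)) (B : J → Set A)
    (M : Set (J → A)) (y : J → A) : Prop where
  inv : Inv Γ M
  sub : ∀ x ∈ M, ∀ j, x j ∈ B j
  onto : ∀ j, ∀ a ∈ B j, ∃ x ∈ M, x j = a
  ymem : ∀ j, y j ∈ B j
  notMem : y ∉ M
  near : ∀ j, ∃ a, update y j a ∈ M
  max : ∀ N : Set (J → A), Inv Γ N → M ⊆ N → (∀ x ∈ N, ∀ j, x j ∈ B j) → y ∉ N → N ⊆ M

/-- `θ ≤ μ` are congruences of `S` and `μ` is abelian modulo `θ`. -/
structure IsAb {A : Type} (Γ : Set (FinRel A)) (S : Set A) (θ μ : A → A → Prop) : Prop where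
  congθ : IsCong Γ S θ
  congμ : IsCong Γ S μ
  le : ∀ a b, θ a b → μ a b
  centr : Centralizes Γ μ μ θ

/-- The groups on the blocks of `μ` modulo `θ` have exponent dividing `n`. -/
def IsExp {A : Type} (S : Set A) (q : A → A → A → A) (θ μ : A → A → Prop) (n : ℕ) : Prop :=
  ∀ a ∈ S, ∀ x, μ x a → θ ((q x a)^[n] a) a

/-! ### Statements of the modules -/

/-- Module CUBE: few subpowers give a cube polymorphism. -/
def CubeStmt {A : Type} (Γ : Set (FinRel A)) : Prop :=
  HasFewSubpowers Γ → ∃ k, 2 ≤ k ∧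
    IsCubical Γ ((Finset.univ : Finset (Finset (Fin k))).filter fun w => w.Nonempty)

/-- Module GEN: few subpowers give small generating families. -/
def GenStmt {A : Type} (Γ : Set (FinRel A)) : Prop :=
  HasFewSubpowers Γ → ∃ p : Polynomial ℕ, ∀ n : ℕ, 0 < n → ∀ N : Set (Fin n → A), Inv Γ N →
    ∃ r ≤ p.eval n, ∃ u : Fin r → Fin n → A, N = GenRel Γ u

/-- Module EDGE: a cube polymorphism gives an edge polymorphism. -/
def EdgeStmt {A : Type} (Γ : Set (FinRel A)) : Prop :=
  ∀ k, 2 ≤ k →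
    IsCubical Γ ((Finset.univ : Finset (Finset (Fin k))).filter fun w => w.Nonempty) →
    ∃ e, IsEdge Γ k e

/-- Module GUMM: an edge polymorphism gives Gumm terms. -/
def GummStmt {A : Type} (Γ : Set (FinRel A)) : Prop :=
  ∀ k e, 2 ≤ k → IsEdge Γ k e → ∃ m G q, IsGumm Γ m G q

/-- Module PARA: the parallelogram property near a tuple. -/
def ParaStmt {A : Type} (Γ : Set (FinRel A)) : Prop :=
  ∀ k e, 2 ≤ k → IsEdge Γ k e → ∀ (J : Type) [Fintype J] [DecidableEq J] (R : Set (J → A)),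
    Inv Γ R → ∀ y : J → A, (∀ j, ∃ a, update y j a ∈ R) → k ≤ Fintype.card J →
    ∀ (j : J) (b : A) (c : J → A), update y j b ∈ R → update c j (y j) ∈ R → update c j b ∈ R →
    y ∈ R

/-- Module STRUCT: the structure of maximal relations omitting a tuple. -/
def StructStmt {A : Type} (Γ : Set (FinRel A)) : Prop :=
  ∀ k e, 2 ≤ k → IsEdge Γ k e → ∀ m G q, IsGumm Γ m G q →
    ∀ (J : Type) [Fintype J] [DecidableEq J] (B : J → Set A) (M : Set (J → A)) (y : J → A),
    k ≤ Fintype.card J → 3 ≤ Fintype.card J → (∀ j, IsSub Γ (B j)) → CritAt Γ B M y → ∀ j : J,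
      IsCong Γ (B j) (Ker M j) ∧
      (∀ x ∈ M, ∀ b, Ker M j (x j) b → update x j b ∈ M) ∧
      ∃ μ, IsMonolith Γ (B j) (Ker M j) μ ∧ (∀ a, update y j a ∈ M → μ a (y j)) ∧
        Centralizes Γ μ μ (Ker M j)

/-- Module GROUP, first part: the difference term on abelian blocks. -/
def GroupStmt1 {A : Type} (Γ : Set (FinRel A)) : Prop :=
  ∀ m G q, IsGumm Γ m G q → ∀ (S : Set A) (θ μ : A → A → Prop), IsAb Γ S θ μ →
    (∀ x y, μ x y → θ (q x y y) x) ∧
    ∀ (ι : Type) [Finite ι] (f : (ι → A) → A), IsPol Γ f → ∀ x y z : ι → A,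
      (∀ i, μ (x i) (y i)) → (∀ i, μ (y i) (z i)) →
      θ (q (f x) (f y) (f z)) (f fun i => q (x i) (y i) (z i))

/-- Module GROUP, second part: a minimal abelian congruence has prime exponent. -/
def GroupStmt2 {A : Type} (Γ : Set (FinRel A)) : Prop :=
  ∀ m G q, IsGumm Γ m G q → ∀ (S : Set A) (θ μ : A → A → Prop), IsAb Γ S θ μ →
    IsMonolith Γ S θ μ → ∃ p, p.Prime ∧ p ≤ Nat.card A ∧ IsExp S q θ μ p

/-- Module GROUP, third part: embedding of the blocks into vector spaces over `ZMod p`. -/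
def GroupStmt3 {A : Type} (Γ : Set (FinRel A)) : Prop :=
  ∀ m G q, IsGumm Γ m G q → ∀ (S : Set A) (θ μ : A → A → Prop), IsAb Γ S θ μ →
    ∀ p : ℕ, p.Prime → IsExp S q θ μ p →
    ∃ (X : Type) (_ : Finite X) (χ : X → A → A → ZMod p),
      (∀ i, ∀ a ∈ S, ∀ x y, μ x a → μ y a → χ i a (q x a y) = χ i a x + χ i a y) ∧
      ∀ a ∈ S, ∀ x y, μ x a → μ y a → ((∀ i, χ i a x = χ i a y) ↔ θ x y)

/-- Module GROUP, fourth part: multiples. -/
def GroupStmt4 {A : Type} (Γ : Set (FinRel A)) : Prop :=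
  ∀ m G q, IsGumm Γ m G q → ∀ (S : Set A) (θ μ : A → A → Prop), IsAb Γ S θ μ →
    ∀ p : ℕ, IsExp S q θ μ p → ∀ a ∈ S, ∀ x, μ x a → ∀ n : ℕ,
      (n % p = 0 → θ ((q x a)^[n] a) a) ∧ (n % p = 1 → θ ((q x a)^[n] a) x)

end Pool.Agent.Lib.MP2ea600
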